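import Pool.Agent.NetGraphs.SL.Stmts

/-!
# Thin annuli take a small part of a ball
-/

set_option autoImplicit false

namespace Pool.Agent.NetGraphs.SL

open SimpleGraph Pool.Agent.NetGraphs

/-- the part of an annulus about `o` in the ball of radius `s` about `x` -/
def aNN_A {V : Type} (G : SimpleGraph V) (o x : V) (s t w : ℕ) : Set V :=
  {z | G.dist x z ≤ s ∧ t < G.dist o z ∧ G.dist o z ≤ t + w}

theorem aNN_fin {V : Type} {G : SimpleGraph V} (hG : Standing G) (o x : V) (s t w : ℕ) :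
    (aNN_A G o x s t w).Finite :=
  (nb_finite hG x s).subset fun _ hz => hz.1

theorem aNN_sep {V : Type} (G : SimpleGraph V) (A : Finset V) (c : ℕ) :
    ∃ Z : Finset V, Z ⊆ A ∧ (∀ a ∈ Z, ∀ b ∈ Z, a ≠ b → c ≤ G.dist a b) ∧
      (0 < c → ∀ z ∈ A, ∃ p ∈ Z, G.dist p z < c) := by
  classical
  obtain ⟨P, hP⟩ : ∃ P : Finset V → Prop, ∀ Z, P Z ↔ ∀ a ∈ Z, ∀ b ∈ Z, a ≠ b → c ≤ G.dist a b :=
    ⟨_, fun _ => Iff.rfl⟩
  obtain ⟨Z, hZ, hmax⟩ := Finset.exists_max_image (A.powerset.filter P) Finset.card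
    ⟨∅, by rw [Finset.mem_filter, hP]; simp⟩
  rw [Finset.mem_filter, Finset.mem_powerset, hP] at hZ
  refine ⟨Z, hZ.1, hZ.2, ?_⟩
  intro hc z hz
  by_contra hno
  push Not at hno
  have hzZ : z ∉ Z := by
    intro h
    have := hno z h
    rw [SimpleGraph.dist_self] at this
    omega
  have h1 : insert z Z ∈ A.powerset.filter P := by
    rw [Finset.mem_filter, Finset.mem_powerset, hP]
    refine ⟨Finset.insert_subset hz hZ.1, ?_⟩
    intro a ha b hb hab
    rw [Finset.mem_insert] at ha hb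
    rcases ha with rfl | ha
    · rcases hb with rfl | hb
      · exact absurd rfl hab
      · rw [G.dist_comm]
        exact hno b hb
    · rcases hb with rfl | hb
      · exact hno a ha
      · exact hZ.2 a ha b hb hab
  have h2 := hmax _ h1
  rw [Finset.card_insert_of_notMem hzZ] at h2
  omega

theorem aNN_step {V : Type} {G : SimpleGraph V} {D : ℕ} (h : Hyp G D) (o x : V) (s t w : ℕ)
    (hw : 1 ≤ w) (ht : 2 * w ≤ t) :
    (1 + D ^ 3) * (aNN_A G o x s t w).ncard ≤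
      D ^ 3 * (aNN_A G o x (s + 3 * w) (t - 2 * w) (3 * w)).ncard := by
  classical
  have hG := h.st
  have hc := hG.connected
  have hfA := aNN_fin hG o x s t w
  obtain ⟨Z, hZA, hZs, hZc⟩ := aNN_sep G hfA.toFinset (6 * w)
  have hZc' := hZc (by omega)
  have hmem : ∀ z ∈ Z, z ∈ aNN_A G o x s t w := fun z hz => hfA.mem_toFinset.1 (hZA hz)
  -- the covering
  have hvol : vol G x (6 * w - 1) ≤ D ^ 3 * vol G x (w - 1) := by
    have e1 := h.dbl x (w - 1)
    have e2 := h.dbl x (2 * w - 1)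
    have e3 := h.dbl x (4 * w - 1)
    have f1 : 2 * (w - 1) + 1 = 2 * w - 1 := by omega
    have f2 : 2 * (2 * w - 1) + 1 = 4 * w - 1 := by omega
    have f3 : 2 * (4 * w - 1) + 1 = 8 * w - 1 := by omega
    rw [f1] at e1
    rw [f2] at e2
    rw [f3] at e3
    calc vol G x (6 * w - 1) ≤ vol G x (8 * w - 1) := vol_mono hG x (by omega)
      _ ≤ D * vol G x (4 * w - 1) := e3
      _ ≤ D * (D * vol G x (2 * w - 1)) := Nat.mul_le_mul_left _ e2
      _ ≤ D * (D * (D * vol G x (w - 1))) := Nat.mul_le_mul_left _ (Nat.mul_le_mul_left _ e1)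
      _ = D ^ 3 * vol G x (w - 1) := by ring
  have hA1 : (aNN_A G o x s t w).ncard ≤ Z.card * vol G x (6 * w - 1) := by
    rw [Set.ncard_eq_toFinset_card _ hfA]
    have hsub : hfA.toFinset ⊆ Z.biUnion fun p => (nb_finite hG p (6 * w - 1)).toFinset := by
      intro z hz
      obtain ⟨p, hp, hpz⟩ := hZc' z hz
      rw [Finset.mem_biUnion]
      refine ⟨p, hp, (nb_finite hG p (6 * w - 1)).mem_toFinset.2 ?_⟩
      change G.dist p z ≤ 6 * w - 1
      omega
    refine (Finset.card_le_card hsub).trans (Finset.card_biUnion_le.trans ?_)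
    refine Finset.sum_le_card_nsmul _ _ _ fun p _ => ?_
    rw [← Set.ncard_eq_toFinset_card _ (nb_finite hG p (6 * w - 1))]
    exact (vol_eq hG h.tr p x _).le
  -- the points of the geodesics
  have hgeo : ∀ z : V, ∃ z' : V, z ∈ Z → G.dist o z' = t - w ∧ G.dist z' z ≤ 2 * w := by
    intro z
    by_cases hz : z ∈ Z
    · have h1 := hmem z hz
      have h2 : t - w ≤ G.dist o z := by
        have := h1.2.1
        omega
      obtain ⟨c, hc1, hc2⟩ := geod_point hc o z h2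
      refine ⟨c, fun _ => ⟨hc1, ?_⟩⟩
      have := h1.2.2
      omega
    · exact ⟨z, fun h0 => absurd h0 hz⟩
  choose f hf using hgeo
  have hfB := aNN_fin hG o x (s + 3 * w) (t - 2 * w) (2 * w)
  have hB1 : Z.card * vol G x (w - 1) ≤ (aNN_A G o x (s + 3 * w) (t - 2 * w) (2 * w)).ncard := by
    rw [Set.ncard_eq_toFinset_card _ hfB]
    have hsub : (Z.biUnion fun p => (nb_finite hG (f p) (w - 1)).toFinset) ⊆ hfB.toFinset := by
      intro y hy
      rw [Finset.mem_biUnion] at hy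
      obtain ⟨p, hp, hy⟩ := hy
      have hy' : G.dist (f p) y ≤ w - 1 := (nb_finite hG (f p) (w - 1)).mem_toFinset.1 hy
      obtain ⟨h1, h2⟩ := hf p hp
      obtain ⟨h3, h4, h5⟩ := hmem p hp
      rw [hfB.mem_toFinset]
      have t1 : G.dist x y ≤ G.dist x p + G.dist p y := hc.dist_triangle
      have t2 : G.dist p y ≤ G.dist p (f p) + G.dist (f p) y := hc.dist_triangle
      have t3 : G.dist p (f p) = G.dist (f p) p := G.dist_comm
      have t4 : G.dist o y ≤ G.dist o (f p) + G.dist (f p) y := hc.dist_triangle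
      have t5 : G.dist o (f p) ≤ G.dist o y + G.dist y (f p) := hc.dist_triangle
      have t6 : G.dist y (f p) = G.dist (f p) y := G.dist_comm
      refine ⟨?_, ?_, ?_⟩ <;> omega
    refine le_trans (le_of_eq ?_) (Finset.card_le_card hsub)
    rw [Finset.card_biUnion]
    · refine (Finset.sum_const_nat fun p _ => ?_).symm
      rw [← Set.ncard_eq_toFinset_card _ (nb_finite hG (f p) (w - 1))]
      exact (vol_eq hG h.tr (f p) x _)
    · intro p hp q hq hpq
      change Disjoint (nb_finite hG (f p) (w - 1)).toFinset (nb_finite hG (f q) (w - 1)).toFinset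
      rw [Finset.disjoint_left]
      intro y hy hy'
      have h1 : G.dist (f p) y ≤ w - 1 := (nb_finite hG (f p) (w - 1)).mem_toFinset.1 hy
      have h2 : G.dist (f q) y ≤ w - 1 := (nb_finite hG (f q) (w - 1)).mem_toFinset.1 hy'
      have h3 := hZs p hp q hq hpq
      have h4 := (hf p hp).2
      have h5 := (hf q hq).2
      have t1 : G.dist p q ≤ G.dist p (f p) + G.dist (f p) q := hc.dist_triangle
      have t2 : G.dist (f p) q ≤ G.dist (f p) y + G.dist y q := hc.dist_triangle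
      have t3 : G.dist y q ≤ G.dist y (f q) + G.dist (f q) q := hc.dist_triangle
      have t4 : G.dist p (f p) = G.dist (f p) p := G.dist_comm
      have t5 : G.dist y (f q) = G.dist (f q) y := G.dist_comm
      omega
  -- the disjoint union
  have hsum : (aNN_A G o x s t w).ncard + (aNN_A G o x (s + 3 * w) (t - 2 * w) (2 * w)).ncard ≤
      (aNN_A G o x (s + 3 * w) (t - 2 * w) (3 * w)).ncard := by
    rw [← Set.ncard_union_eq ?_ hfA hfB]
    · refine Set.ncard_le_ncard ?_ (aNN_fin hG _ _ _ _ _)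
      rintro z (⟨h1, h2, h3⟩ | ⟨h1, h2, h3⟩)
      · refine ⟨?_, ?_, ?_⟩ <;> omega
      · refine ⟨?_, ?_, ?_⟩ <;> omega
    · rw [Set.disjoint_left]
      rintro z ⟨h1, h2, h3⟩ ⟨h4, h5, h6⟩
      omega
  have hmain : (aNN_A G o x s t w).ncard ≤
      D ^ 3 * (aNN_A G o x (s + 3 * w) (t - 2 * w) (2 * w)).ncard := by
    calc (aNN_A G o x s t w).ncard ≤ Z.card * vol G x (6 * w - 1) := hA1
      _ ≤ Z.card * (D ^ 3 * vol G x (w - 1)) := Nat.mul_le_mul_left _ hvol
      _ = D ^ 3 * (Z.card * vol G x (w - 1)) := by ring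
      _ ≤ _ := Nat.mul_le_mul_left _ hB1
  calc (1 + D ^ 3) * (aNN_A G o x s t w).ncard
      = (aNN_A G o x s t w).ncard + D ^ 3 * (aNN_A G o x s t w).ncard := by ring
    _ ≤ D ^ 3 * (aNN_A G o x (s + 3 * w) (t - 2 * w) (2 * w)).ncard +
        D ^ 3 * (aNN_A G o x s t w).ncard := Nat.add_le_add_right hmain _
    _ = D ^ 3 * ((aNN_A G o x s t w).ncard +
        (aNN_A G o x (s + 3 * w) (t - 2 * w) (2 * w)).ncard) := by ring
    _ ≤ _ := Nat.mul_le_mul_left _ hsum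

theorem aNN_iter {V : Type} {G : SimpleGraph V} {D : ℕ} (h : Hyp G D) (o x : V) (j : ℕ) :
    ∀ s t w : ℕ, 1 ≤ w → (3 ^ j - 1) * w ≤ t →
      ((aNN_A G o x s t w).ncard : ℝ) ≤
        ((D : ℝ) ^ 3 / (1 + (D : ℝ) ^ 3)) ^ j * (vol G x (s + (2 * 3 ^ j - 2) * w) : ℝ) := by
  have hG := h.st
  induction j with
  | zero =>
    intro s t w _ _
    simp only [pow_zero, mul_one, one_mul]
    have h1 : (aNN_A G o x s t w).ncard ≤ vol G x s :=
      Set.ncard_le_ncard (fun _ hz => hz.1) (nb_finite hG x s)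
    have h2 : s + (2 - 2) * w = s := by simp
    rw [h2]
    exact_mod_cast h1
  | succ j ih =>
    intro s t w hw ht
    have h3 : 1 ≤ 3 ^ j := Nat.one_le_pow _ _ (by norm_num)
    obtain ⟨c, hc⟩ : ∃ c, 3 ^ j = c + 1 := ⟨3 ^ j - 1, by omega⟩
    have hc' : 3 ^ (j + 1) = 3 * c + 3 := by rw [pow_succ, hc]; ring
    have e1 : (3 ^ (j + 1) - 1) * w = 3 * c * w + 2 * w := by
      rw [hc']
      have : 3 * c + 3 - 1 = 3 * c + 2 := by omega
      rw [this]
      ring
    rw [e1] at ht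
    have ht2 : 2 * w ≤ t := le_trans (Nat.le_add_left _ _) ht
    have h4 := aNN_step h o x s t w hw ht2
    have h5 := ih (s + 3 * w) (t - 2 * w) (3 * w) (by omega) (by
      rw [hc]
      have e2 : (c + 1 - 1) * (3 * w) = 3 * c * w := by
        rw [Nat.add_sub_cancel]
        ring
      rw [e2]
      omega)
    have h6 : (vol G x (s + 3 * w + (2 * 3 ^ j - 2) * (3 * w)) : ℝ) ≤
        (vol G x (s + (2 * 3 ^ (j + 1) - 2) * w) : ℝ) := by
      have h7 : s + 3 * w + (2 * 3 ^ j - 2) * (3 * w) ≤ s + (2 * 3 ^ (j + 1) - 2) * w := by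
        rw [hc', hc]
        have e3 : 2 * (c + 1) - 2 = 2 * c := by omega
        have e4 : 2 * (3 * c + 3) - 2 = 6 * c + 4 := by omega
        rw [e3, e4]
        nlinarith
      exact_mod_cast vol_mono hG x h7
    have hq : (0 : ℝ) < 1 + (D : ℝ) ^ 3 := by positivity
    have h8 : (1 + (D : ℝ) ^ 3) * ((aNN_A G o x s t w).ncard : ℝ) ≤
        (D : ℝ) ^ 3 * ((aNN_A G o x (s + 3 * w) (t - 2 * w) (3 * w)).ncard : ℝ) := by
      exact_mod_cast h4
    have h9 : ((aNN_A G o x s t w).ncard : ℝ) ≤ (D : ℝ) ^ 3 / (1 + (D : ℝ) ^ 3) *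
        ((aNN_A G o x (s + 3 * w) (t - 2 * w) (3 * w)).ncard : ℝ) := by
      rw [div_mul_eq_mul_div, le_div_iff₀ hq]
      linarith
    have hq0 : (0 : ℝ) ≤ (D : ℝ) ^ 3 / (1 + (D : ℝ) ^ 3) := by positivity
    calc ((aNN_A G o x s t w).ncard : ℝ) ≤ (D : ℝ) ^ 3 / (1 + (D : ℝ) ^ 3) *
          ((aNN_A G o x (s + 3 * w) (t - 2 * w) (3 * w)).ncard : ℝ) := h9
      _ ≤ (D : ℝ) ^ 3 / (1 + (D : ℝ) ^ 3) * (((D : ℝ) ^ 3 / (1 + (D : ℝ) ^ 3)) ^ j *
          (vol G x (s + 3 * w + (2 * 3 ^ j - 2) * (3 * w)) : ℝ)) :=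
        mul_le_mul_of_nonneg_left h5 hq0
      _ ≤ (D : ℝ) ^ 3 / (1 + (D : ℝ) ^ 3) * (((D : ℝ) ^ 3 / (1 + (D : ℝ) ^ 3)) ^ j *
          (vol G x (s + (2 * 3 ^ (j + 1) - 2) * w) : ℝ)) := by
        apply mul_le_mul_of_nonneg_left _ hq0
        exact mul_le_mul_of_nonneg_left h6 (pow_nonneg hq0 _)
      _ = _ := by rw [pow_succ]; ring

theorem t_ANN : S_ANN := by
  intro D a ha
  have hq0 : (0 : ℝ) ≤ (D : ℝ) ^ 3 / (1 + (D : ℝ) ^ 3) := by positivity
  have hq1 : (D : ℝ) ^ 3 / (1 + (D : ℝ) ^ 3) < 1 := by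
    rw [div_lt_one (by positivity)]
    linarith
  obtain ⟨j, hj⟩ := exists_pow_lt_of_lt_one (show (0 : ℝ) < a / (D + 1) by positivity) hq1
  refine ⟨4 * 3 ^ j, Nat.one_le_iff_ne_zero.2 (by positivity), ?_⟩
  intro V G h o x s t w hms hst
  change ((aNN_A G o x s t w).ncard : ℝ) ≤ a * vol G x s
  rcases Nat.eq_zero_or_pos w with hw | hw
  · have h0 : aNN_A G o x s t w = ∅ := by
      rw [Set.eq_empty_iff_forall_notMem]
      rintro z ⟨_, h2, h3⟩
      omega
    rw [h0, Set.ncard_empty]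
    push_cast
    positivity
  · have h3 : 1 ≤ 3 ^ j := Nat.one_le_pow _ _ (by norm_num)
    have e1 : 4 * 3 ^ j * w = 4 * (3 ^ j * w) := by ring
    rw [e1] at hms
    have h4 : (3 ^ j - 1) * w ≤ t := by
      refine le_trans (Nat.mul_le_mul_right w (Nat.sub_le _ _)) ?_
      omega
    have h5 := aNN_iter h o x j s t w hw h4
    have h6 : vol G x (s + (2 * 3 ^ j - 2) * w) ≤ D * vol G x s := by
      refine le_trans (vol_mono h.st x ?_) (vol_double h x s)
      have h7 : (2 * 3 ^ j - 2) * w ≤ 2 * (3 ^ j * w) := by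
        refine le_trans (Nat.mul_le_mul_right w (Nat.sub_le _ _)) ?_
        rw [mul_assoc]
      omega
    have h7 : (vol G x (s + (2 * 3 ^ j - 2) * w) : ℝ) ≤ D * vol G x s := by exact_mod_cast h6
    have h8 : ((D : ℝ) ^ 3 / (1 + (D : ℝ) ^ 3)) ^ j * D ≤ a := by
      rw [lt_div_iff₀ (by positivity)] at hj
      have : 0 ≤ ((D : ℝ) ^ 3 / (1 + (D : ℝ) ^ 3)) ^ j := pow_nonneg hq0 _
      nlinarith
    calc ((aNN_A G o x s t w).ncard : ℝ) ≤ _ := h5
      _ ≤ ((D : ℝ) ^ 3 / (1 + (D : ℝ) ^ 3)) ^ j * (D * vol G x s) :=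
        mul_le_mul_of_nonneg_left h7 (pow_nonneg hq0 _)
      _ = (((D : ℝ) ^ 3 / (1 + (D : ℝ) ^ 3)) ^ j * D) * vol G x s := by ring
      _ ≤ a * vol G x s := mul_le_mul_of_nonneg_right h8 (Nat.cast_nonneg _)

end Pool.Agent.NetGraphs.SL
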