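import Pool.Agent.NetGraphs.SL.Stmts

set_option autoImplicit false

namespace Pool.Agent.NetGraphs.SL

open SimpleGraph Pool.Agent.NetGraphs

/-- the number of restrictions in the union that send `y` to `z` -/
theorem aVG_fiber {V : Type} {G : SimpleGraph V} {F : Finset V} {o y z : V}
    (hfin : (RS G F y z).Finite) (hy : y ∈ F) (RR : Finset (F → V))
    (hRR : ∀ ρ ∈ RR, ∃ x, ρ ∈ RS G F o x) [DecidablePred fun ρ : F → V => ρ ⟨y, hy⟩ = z] :
    (RR.filter (fun ρ : F → V => ρ ⟨y, hy⟩ = z)).card ≤ (RS G F y z).ncard := by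
  classical
  rw [Set.ncard_eq_toFinset_card _ hfin]
  apply Finset.card_le_card
  intro ρ hρ
  rw [Finset.mem_filter] at hρ
  obtain ⟨x, φ, h1, h2⟩ := hRR ρ hρ.1
  rw [Set.Finite.mem_toFinset]
  exact ⟨φ, by rw [← hρ.2]; exact h2 ⟨y, hy⟩, h2⟩

theorem t_AVG (h1 : S_UNIMOD) : S_AVG := by
  classical
  intro D
  refine ⟨(D : ℝ) ^ 3 + 1, by positivity, ?_⟩
  intro V G hG k hk N hN S g hg
  have st := hG.st
  obtain ⟨o⟩ := st.connected.nonempty
  obtain ⟨R, hR⟩ : ∃ R, ∀ z ∈ S, G.dist o z ≤ R :=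
    ⟨S.sup (fun z => G.dist o z), fun z hz => Finset.le_sup (f := fun z => G.dist o z) hz⟩
  by_contra hcon
  push Not at hcon
  have hc2 : ∀ φ : G ≃g G, ((D : ℝ) ^ 3 + 1) * ∑ z ∈ S, g z <
      (vol G o k : ℝ) * ∑ z ∈ S, (φ '' N).indicator g z := by
    intro φ
    obtain ⟨v, hv⟩ := hcon φ
    rwa [vol_eq st hG.tr v o k] at hv
  obtain ⟨M, hM⟩ : ∃ M, M = R + k := ⟨_, rfl⟩
  obtain ⟨F, hF⟩ : ∃ F, F = (nb_finite st o (M + R)).toFinset := ⟨_, rfl⟩
  have memF : ∀ x, x ∈ F ↔ G.dist o x ≤ M + R := by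
    intro x; rw [hF, Set.Finite.mem_toFinset]; rfl
  obtain ⟨B, hB⟩ : ∃ B, B = (nb_finite st o M).toFinset := ⟨_, rfl⟩
  have memB : ∀ x, x ∈ B ↔ G.dist o x ≤ M := by
    intro x; rw [hB, Set.Finite.mem_toFinset]; rfl
  have cardB : B.card = vol G o M := by
    unfold vol; rw [Set.ncard_eq_toFinset_card _ (nb_finite st o M), hB]
  have hoF : o ∈ F := by rw [memF]; simp
  have hfin : ∀ x, (RS G F o x).Finite := fun x => (h1 D V G hG F o o x x hoF hoF).1
  obtain ⟨n, hn⟩ : ∃ n, n = (RS G F o o).ncard := ⟨_, rfl⟩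
  have hn0 : 0 < n := by rw [hn]; exact (h1 D V G hG F o o o o hoF hoF).2.1
  have hcard : ∀ y ∈ F, ∀ z, (RS G F y z).ncard = n := by
    intro y hy z; rw [hn]; exact (h1 D V G hG F y o z o hy hoF).2.2
  obtain ⟨RR, hRR⟩ : ∃ RR : Finset (F → V), RR = B.biUnion (fun x => (hfin x).toFinset) := ⟨_, rfl⟩
  have cardRR : RR.card = vol G o M * n := by
    rw [hRR, Finset.card_biUnion]
    · rw [Finset.sum_congr rfl (g := fun _ => n), Finset.sum_const, cardB, smul_eq_mul]
      intro x _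
      rw [← Set.ncard_eq_toFinset_card _ (hfin x)]
      exact hcard o hoF x
    · intro x _ x' _ hne
      rw [Function.onFun, Finset.disjoint_left]
      intro ρ h2 h3
      rw [Set.Finite.mem_toFinset] at h2 h3
      obtain ⟨φ, h4, h5⟩ := h2
      obtain ⟨φ', h6, h7⟩ := h3
      apply hne
      rw [← h4, ← h6, h5 ⟨o, hoF⟩, h7 ⟨o, hoF⟩]
  have memRR : ∀ ρ ∈ RR, ∃ x, x ∈ B ∧ ρ ∈ RS G F o x := by
    intro ρ hρ
    rw [hRR, Finset.mem_biUnion] at hρ
    obtain ⟨x, hx, hx2⟩ := hρ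
    rw [Set.Finite.mem_toFinset] at hx2
    exact ⟨x, hx, hx2⟩
  have hvM : 0 < vol G o M := vol_pos st o M
  have neRR : RR.Nonempty := by
    rw [← Finset.card_pos, cardRR]; exact Nat.mul_pos hvM hn0
  obtain ⟨FN, hFN⟩ : ∃ FN : Finset F, FN = (Finset.univ : Finset F).filter (fun y => y.1 ∈ N) :=
    ⟨_, rfl⟩
  -- the pointwise bound
  have key1 : ∀ ρ ∈ RR, ((D : ℝ) ^ 3 + 1) * ∑ z ∈ S, g z <
      (vol G o k : ℝ) * ∑ z ∈ S, ∑ y ∈ FN, (if ρ y = z then g z else 0) := by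
    intro ρ hρ
    obtain ⟨x, hx, φ, hφ, hφρ⟩ := memRR ρ hρ
    refine lt_of_lt_of_le (hc2 φ) ?_
    apply mul_le_mul_of_nonneg_left _ (Nat.cast_nonneg _)
    apply Finset.sum_le_sum
    intro z hz
    by_cases hzN : z ∈ φ '' N
    · rw [Set.indicator_of_mem hzN]
      obtain ⟨y, hy, hyz⟩ := hzN
      have hyF : y ∈ F := by
        rw [memF]
        have e1 : G.dist o y = G.dist (φ o) (φ y) := (dist_iso st.connected φ o y).symm
        have e2 : G.dist (φ o) (φ y) ≤ G.dist (φ o) o + G.dist o (φ y) :=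
          st.connected.dist_triangle
        have e3 : G.dist (φ o) o ≤ M := by
          rw [G.dist_comm, hφ]; exact (memB x).1 hx
        have e4 : G.dist o (φ y) ≤ R := by rw [hyz]; exact hR z hz
        omega
      have hyFN : (⟨y, hyF⟩ : F) ∈ FN := by rw [hFN, Finset.mem_filter]; exact ⟨Finset.mem_univ _, hy⟩
      have h3 := Finset.single_le_sum (f := fun y : F => if ρ y = z then g z else 0) (s := FN)
        (fun y _ => by split_ifs <;> [exact hg z; exact le_rfl]) hyFN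
      have h4 : ρ ⟨y, hyF⟩ = z := by rw [← hφρ ⟨y, hyF⟩]; exact hyz
      simp only [h4, if_true] at h3
      exact h3
    · rw [Set.indicator_of_notMem hzN]
      apply Finset.sum_nonneg
      intro y _
      split_ifs <;> [exact hg z; exact le_rfl]
  have key2 := Finset.sum_lt_sum_of_nonempty neRR key1
  rw [Finset.sum_const, nsmul_eq_mul, ← Finset.mul_sum, Finset.sum_comm] at key2
  have key3 : ∑ z ∈ S, ∑ ρ ∈ RR, ∑ y ∈ FN, (if ρ y = z then g z else 0) ≤
      (FN.card : ℝ) * n * ∑ z ∈ S, g z := by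
    rw [Finset.mul_sum]
    apply Finset.sum_le_sum
    intro z _
    rw [Finset.sum_comm]
    have : ∀ y ∈ FN, ∑ ρ ∈ RR, (if ρ y = z then g z else 0) ≤ (n : ℝ) * g z := by
      intro y _
      rw [← Finset.sum_filter, Finset.sum_const, nsmul_eq_mul]
      apply mul_le_mul_of_nonneg_right _ (hg z)
      have h2 := aVG_fiber (o := o) (z := z) ((h1 D V G hG F y.1 o z o y.2 hoF).1) y.2 RR
        (fun ρ hρ => by obtain ⟨x, _, hx⟩ := memRR ρ hρ; exact ⟨x, hx⟩)
      rw [hcard y.1 y.2 z] at h2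
      exact_mod_cast h2
    refine le_trans (Finset.sum_le_sum this) ?_
    rw [Finset.sum_const, nsmul_eq_mul, mul_assoc]
  -- counting the points of the net
  have key4 : FN.card * vol G o ((k - 1) / 2) ≤ D * vol G o M := by
    have h2 : (FN.image (fun y : F => y.1)).card = FN.card :=
      Finset.card_image_of_injective _ Subtype.val_injective
    have h3 := sep_count (T := FN.image (fun y : F => y.1)) st hG.tr hk (R := M + R) o ?_ ?_
    · rw [h2] at h3
      refine le_trans h3 (le_trans (vol_mono st o (n := 2 * M) (by omega)) (vol_double hG o M))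
    · intro a ha b hb hab
      rw [Finset.mem_image] at ha hb
      obtain ⟨a', ha', rfl⟩ := ha
      obtain ⟨b', hb', rfl⟩ := hb
      rw [hFN, Finset.mem_filter] at ha' hb'
      exact hN _ ha'.2 _ hb'.2 hab
    · intro a ha
      rw [Finset.mem_image] at ha
      obtain ⟨a', ha', rfl⟩ := ha
      exact (memF _).1 a'.2
  have key5 : vol G o k * FN.card ≤ D ^ 3 * vol G o M := by
    calc vol G o k * FN.card ≤ (D ^ 2 * vol G o ((k - 1) / 2)) * FN.card :=
          Nat.mul_le_mul_right _ (vol_half hG o k)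
      _ = D ^ 2 * (FN.card * vol G o ((k - 1) / 2)) := by ring
      _ ≤ D ^ 2 * (D * vol G o M) := Nat.mul_le_mul_left _ key4
      _ = D ^ 3 * vol G o M := by ring
  have key5' : (vol G o k : ℝ) * FN.card ≤ (D : ℝ) ^ 3 * vol G o M := by exact_mod_cast key5
  have hS0 : 0 ≤ ∑ z ∈ S, g z := Finset.sum_nonneg (fun z _ => hg z)
  have key6 : (vol G o k : ℝ) * ∑ z ∈ S, ∑ ρ ∈ RR, ∑ y ∈ FN, (if ρ y = z then g z else 0) ≤
      (D : ℝ) ^ 3 * vol G o M * (n * ∑ z ∈ S, g z) := by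
    calc (vol G o k : ℝ) * ∑ z ∈ S, ∑ ρ ∈ RR, ∑ y ∈ FN, (if ρ y = z then g z else 0)
        ≤ (vol G o k : ℝ) * ((FN.card : ℝ) * n * ∑ z ∈ S, g z) :=
          mul_le_mul_of_nonneg_left key3 (Nat.cast_nonneg _)
      _ = ((vol G o k : ℝ) * FN.card) * (n * ∑ z ∈ S, g z) := by ring
      _ ≤ _ := mul_le_mul_of_nonneg_right key5' (by positivity)
  rw [cardRR] at key2
  push_cast at key2
  have h8 : (0 : ℝ) ≤ (vol G o M : ℝ) * n * ∑ z ∈ S, g z := by positivity
  nlinarith [key2, key6, h8]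

end Pool.Agent.NetGraphs.SL
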