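import Pool.Agent.NetGraphs.SL.Defs

set_option autoImplicit false

/-!
# Basic facts about balls, nets and roads
-/

namespace Pool.Agent.NetGraphs.SL

open SimpleGraph Pool.Agent.NetGraphs

variable {V : Type} {G : SimpleGraph V} {D : ℕ}

/-! ### Part A -/

theorem bA_nb (v : V) (n : ℕ) : nb G v n = ball G v (n : ℝ) := by
  ext u
  show G.dist v u ≤ n ↔ (G.dist v u : ℝ) ≤ (n : ℝ)
  exact_mod_cast Iff.rfl

theorem nb_finite (hG : Standing G) (v : V) (n : ℕ) : (nb G v n).Finite := by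
  rw [bA_nb]
  exact ball_finite hG v n

theorem vol_pos (hG : Standing G) (v : V) (n : ℕ) : 1 ≤ vol G v n := by
  unfold vol
  have h : v ∈ nb G v n := by
    show G.dist v v ≤ n
    simp
  exact (Set.ncard_pos (nb_finite hG v n)).2 ⟨v, h⟩

theorem vol_mono (hG : Standing G) (v : V) {m n : ℕ} (h : m ≤ n) : vol G v m ≤ vol G v n :=
  Set.ncard_le_ncard (fun _ hu => le_trans hu h) (nb_finite hG v n)

theorem vol_eq (hG : Standing G) (ht : VertexTransitive G) (u v : V) (n : ℕ) : vol G u n = vol G v n := by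
  unfold vol
  rw [bA_nb, bA_nb]
  exact ball_card_eq hG.connected ht u v n

theorem vol_double (h : Hyp G D) (v : V) (n : ℕ) : vol G v (2 * n) ≤ D * vol G v n :=
  (vol_mono h.st v (Nat.le_succ _)).trans (h.dbl v n)

theorem vol_pow (h : Hyp G D) (v : V) (n i : ℕ) : vol G v (2 ^ i * n) ≤ D ^ i * vol G v n := by
  induction i with
  | zero => simp
  | succ i ih =>
    have e : 2 ^ (i + 1) * n = 2 * (2 ^ i * n) := by ring
    rw [e]
    refine (vol_double h v _).trans ?_
    calc D * vol G v (2 ^ i * n) ≤ D * (D ^ i * vol G v n) := Nat.mul_le_mul_left _ ih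
      _ = D ^ (i + 1) * vol G v n := by ring

theorem vol_half (h : Hyp G D) (v : V) (k : ℕ) : vol G v k ≤ D ^ 2 * vol G v ((k - 1) / 2) := by
  obtain ⟨n, hn⟩ : ∃ n, n = (k - 1) / 2 := ⟨_, rfl⟩
  rw [← hn]
  have h1 : k ≤ 2 * (2 * n + 1) + 1 := by omega
  calc vol G v k ≤ vol G v (2 * (2 * n + 1) + 1) := vol_mono h.st v h1
    _ ≤ D * vol G v (2 * n + 1) := h.dbl v _
    _ ≤ D * (D * vol G v n) := Nat.mul_le_mul_left _ (h.dbl v n)
    _ = D ^ 2 * vol G v n := by ring

/-- a point at distance `m` on a geodesic -/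
theorem geod_point (hG : G.Connected) (a b : V) {m : ℕ} (hm : m ≤ G.dist a b) :
    ∃ c, G.dist a c = m ∧ G.dist c b = G.dist a b - m := by
  obtain ⟨c, h1, h2⟩ := exists_between hG a b m
  have h3 := hG.dist_triangle (u := a) (v := c) (w := b)
  exact ⟨c, by omega, by omega⟩

theorem exists_dist_eq (hG : Standing G) (o : V) (L : ℕ) : ∃ q, G.dist o q = L := by
  have hinf := hG.infinite
  obtain ⟨q', hq'⟩ := (nb_finite hG o L).exists_notMem
  have h1 : L < G.dist o q' := not_le.1 hq'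
  obtain ⟨c, hc, -⟩ := geod_point hG.connected o q' h1.le
  exact ⟨c, hc⟩

theorem bA_getVert_le (hG : G.Connected) {a b : V} (w : G.Walk a b) (i d : ℕ)
    (h : i + d ≤ w.length) : G.dist (w.getVert i) (w.getVert (i + d)) ≤ d := by
  induction d with
  | zero => simp
  | succ d ih =>
    have h1 := ih (by omega)
    have h2 : G.Adj (w.getVert (i + d)) (w.getVert (i + d + 1)) :=
      w.adj_getVert_succ (by omega)
    have h3 := hG.dist_triangle (u := w.getVert i) (v := w.getVert (i + d))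
      (w := w.getVert (i + d + 1))
    rw [dist_eq_one_iff_adj.2 h2] at h3
    rw [← add_assoc]
    omega

theorem bA_getVert (hG : G.Connected) {a b : V} (w : G.Walk a b) (hw : w.length = G.dist a b)
    {i j : ℕ} (hij : i ≤ j) (hj : j ≤ w.length) :
    G.dist (w.getVert i) (w.getVert j) = j - i := by
  have h1 := bA_getVert_le hG w 0 i (by omega)
  have h2 := bA_getVert_le hG w i (j - i) (by omega)
  have h3 := bA_getVert_le hG w j (w.length - j) (by omega)
  rw [zero_add, Walk.getVert_zero] at h1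
  have e2 : i + (j - i) = j := by omega
  have e3 : j + (w.length - j) = w.length := by omega
  rw [e2] at h2
  rw [e3, Walk.getVert_length] at h3
  have t1 := hG.dist_triangle (u := a) (v := w.getVert i) (w := b)
  have t2 := hG.dist_triangle (u := w.getVert i) (v := w.getVert j) (w := b)
  omega

theorem road_exists (hG : Standing G) (o : V) (k I : ℕ) : ∃ h : ℕ → V, h 0 = o ∧ Road G k I h := by
  obtain ⟨q, hq⟩ := exists_dist_eq hG o (2 * k * I)
  obtain ⟨w, hw⟩ := hG.connected.exists_walk_length_eq_dist o q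
  refine ⟨fun i => w.getVert (2 * k * i), ?_, ?_⟩
  · show w.getVert (2 * k * 0) = o
    rw [mul_zero, Walk.getVert_zero]
  · intro i j hij hj
    show G.dist (w.getVert (2 * k * i)) (w.getVert (2 * k * j)) = 2 * k * (j - i)
    rw [bA_getVert hG.connected w hw (Nat.mul_le_mul_left _ hij)
      (by rw [hw, hq]; exact Nat.mul_le_mul_left _ hj), Nat.mul_sub]

/-! ### Part B -/

/-- every separated set is contained in a net -/
theorem net_exists_ge (G : SimpleGraph V) (k : ℕ) {A : Set V} (hA : Separated G k A) :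
    ∃ N, A ⊆ N ∧ IsNet G k N := by
  obtain ⟨m, hm1, hm2⟩ := zorn_subset_nonempty {N : Set V | Separated G k N} (by
    intro c hc hch _
    refine ⟨⋃₀ c, ?_, fun s hs => Set.subset_sUnion_of_mem hs⟩
    rintro u ⟨s, hs, hus⟩ v ⟨t, ht, hvt⟩ huv
    rcases hch.total hs ht with h | h
    · exact hc ht u (h hus) v hvt huv
    · exact hc hs u hus v (h hvt) huv) A hA
  exact ⟨m, hm1, hm2⟩

theorem net_cover {k : ℕ} (hk : 1 ≤ k) {N : Set V} (hN : IsNet G k N) (v : V) :
    ∃ p ∈ N, G.dist v p < k := by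
  by_contra hcon
  push Not at hcon
  have hsep : Separated G k (insert v N) := by
    intro a ha b hb hab
    rcases Set.mem_insert_iff.1 ha with h1 | h1 <;> rcases Set.mem_insert_iff.1 hb with h2 | h2
    · exact absurd (h1.trans h2.symm) hab
    · rw [h1]
      exact hcon b h2
    · rw [h2, G.dist_comm]
      exact hcon a h1
    · exact hN.1 a h1 b h2 hab
  have hv : v ∈ N := hN.2 hsep (Set.subset_insert v N) (Set.mem_insert v N)
  have h0 := hcon v hv
  rw [dist_self] at h0
  omega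

theorem bB_reach {k : ℕ} {N : Set V} (hc : G.Connected) (p q : N) (h : G.dist p.1 q.1 ≤ 2 * k) :
    (netGraph G k N).Reachable p q := by
  by_cases hpq : p = q
  · rw [hpq]
  · have hne : p.1 ≠ q.1 := fun h => hpq (Subtype.ext h)
    have hadj : (netGraph G k N).Adj p q := ⟨hc.pos_dist_of_ne hne, h⟩
    exact hadj.reachable

theorem bB_walk {k : ℕ} (hk : 1 ≤ k) {N : Set V} (hN : IsNet G k N) (hc : G.Connected) {u v : V}
    (w : G.Walk u v) : ∀ p q : N, G.dist u p.1 < k → G.dist v q.1 < k →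
      (netGraph G k N).Reachable p q := by
  induction w with
  | nil =>
    rename_i a
    intro p q hp hq
    apply bB_reach hc
    have h1 := hc.dist_triangle (u := p.1) (v := a) (w := q.1)
    rw [G.dist_comm] at hp
    omega
  | cons h w ih =>
    rename_i a b c
    intro p q hp hq
    obtain ⟨n, hn, hbn⟩ := net_cover hk hN b
    have h1 : G.dist a b = 1 := dist_eq_one_iff_adj.2 h
    have h2 := hc.dist_triangle (u := p.1) (v := a) (w := n)
    have h3 := hc.dist_triangle (u := a) (v := b) (w := n)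
    rw [G.dist_comm] at hp
    exact (bB_reach hc p ⟨n, hn⟩ (by change G.dist p.1 n ≤ 2 * k; omega)).trans
      (ih ⟨n, hn⟩ q hbn hq)

theorem net_conn (hG : Standing G) {k : ℕ} (hk : 1 ≤ k) {N : Set V} (hN : IsNet G k N) :
    (netGraph G k N).Connected := by
  have : Infinite V := hG.infinite
  obtain ⟨v0⟩ : Nonempty V := inferInstance
  obtain ⟨p0, hp0, _⟩ := net_cover hk hN v0
  have : Nonempty N := ⟨⟨p0, hp0⟩⟩
  refine ⟨fun p q => ?_⟩
  obtain ⟨w⟩ := hG.connected.preconnected p.1 q.1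
  exact bB_walk hk hN hG.connected w p q (by rw [dist_self]; omega) (by rw [dist_self]; omega)

theorem sep_image (hG : Standing G) {k : ℕ} {N : Set V} (hN : Separated G k N) (φ : G ≃g G) :
    Separated G k (φ '' N) := by
  rintro _ ⟨a, ha, rfl⟩ _ ⟨b, hb, rfl⟩ hab
  rw [dist_iso hG.connected φ]
  exact hN a ha b hb fun h => hab (by rw [h])

theorem net_image (hG : Standing G) {k : ℕ} {N : Set V} (hN : IsNet G k N) (φ : G ≃g G) :
    IsNet G k (φ '' N) := by
  refine ⟨sep_image hG hN.1 φ, ?_⟩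
  intro M hM hle x hx
  have h1 : Separated G k (φ.symm '' M) := sep_image hG hM φ.symm
  have h2 : N ≤ φ.symm '' M := by
    intro a ha
    exact ⟨φ a, hle ⟨a, ha, rfl⟩, φ.symm_apply_apply a⟩
  have h3 := hN.2 h1 h2 ⟨x, hx, rfl⟩
  exact ⟨φ.symm x, h3, φ.apply_symm_apply x⟩

/-- edges and distances of the net graph -/
theorem netGraph_adj {k : ℕ} {N : Set V} (p q : N) :
    (netGraph G k N).Adj p q ↔ 0 < G.dist p.1 q.1 ∧ G.dist p.1 q.1 ≤ 2 * k := Iff.rfl

theorem dist_le_net (hG : Standing G) {k : ℕ} (hk : 1 ≤ k) {N : Set V} (hN : IsNet G k N) (p q : N) :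
    G.dist p.1 q.1 ≤ 2 * k * (netGraph G k N).dist p q :=
  dist_le_netGraph hG.connected (net_conn hG hk hN) p q

/-! ### Part C -/

/-- disjoint balls -/
theorem sep_count (hG : Standing G) (ht : VertexTransitive G) {s R : ℕ} (hs : 1 ≤ s) {T : Finset V} (x : V)
    (hT : ∀ a ∈ T, ∀ b ∈ T, a ≠ b → s ≤ G.dist a b) (hTx : ∀ a ∈ T, G.dist x a ≤ R) :
    T.card * vol G x ((s - 1) / 2) ≤ vol G x (R + (s - 1) / 2) := by
  classical
  set r := (s - 1) / 2 with hr
  let B : V → Finset V := fun a => (nb_finite hG a r).toFinset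
  have hmB : ∀ a u, u ∈ B a ↔ G.dist a u ≤ r := fun a u => by
    simp only [B, Set.Finite.mem_toFinset, nb, Set.mem_setOf_eq]
  have hcard : ∀ a, (B a).card = vol G x r := fun a => by
    rw [← vol_eq hG ht a x r, vol, Set.ncard_eq_toFinset_card _ (nb_finite hG a r)]
  have hdisj : (T : Set V).PairwiseDisjoint B := by
    intro a ha b hb hab
    rw [Function.onFun, Finset.disjoint_left]
    intro u hu hv
    rw [hmB] at hu hv
    have h1 := hT a ha b hb hab
    have h2 : G.dist a b ≤ G.dist a u + G.dist u b := hG.connected.dist_triangle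
    rw [G.dist_comm (u := u) (v := b)] at h2
    omega
  have h3 : (T.biUnion B).card = T.card * vol G x r := by
    rw [Finset.card_biUnion hdisj, Finset.sum_congr rfl fun a _ => hcard a, Finset.sum_const,
      smul_eq_mul]
  rw [← h3, vol, Set.ncard_eq_toFinset_card _ (nb_finite hG x (R + r))]
  apply Finset.card_le_card
  intro u hu
  rw [Finset.mem_biUnion] at hu
  obtain ⟨a, ha, hu⟩ := hu
  rw [hmB] at hu
  simp only [Set.Finite.mem_toFinset, nb, Set.mem_setOf_eq]
  have h1 := hTx a ha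
  have h2 : G.dist x u ≤ G.dist x a + G.dist a u := hG.connected.dist_triangle
  omega

theorem sep_card_le (h : Hyp G D) {s i : ℕ} (hs : 1 ≤ s) {T : Finset V} (x : V)
    (hT : ∀ a ∈ T, ∀ b ∈ T, a ≠ b → s ≤ G.dist a b) (hTx : ∀ a ∈ T, G.dist x a ≤ 2 ^ i * s) :
    T.card ≤ D ^ (i + 3) := by
  have h1 := sep_count h.st h.tr hs x hT hTx
  have h2 : vol G x (2 ^ i * s + (s - 1) / 2) ≤ vol G x (2 ^ (i + 1) * s) := by
    apply vol_mono h.st
    have h3 : s ≤ 2 ^ i * s := Nat.le_mul_of_pos_left s (by positivity)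
    rw [pow_succ]
    have h4 : 2 ^ i * 2 * s = 2 ^ i * s + 2 ^ i * s := by ring
    omega
  have h3 := vol_pow h x s (i + 1)
  have h4 := vol_half h x s
  have h5 : D ^ (i + 1) * vol G x s ≤ D ^ (i + 1) * (D ^ 2 * vol G x ((s - 1) / 2)) :=
    Nat.mul_le_mul_left _ h4
  have h6 : D ^ (i + 1) * (D ^ 2 * vol G x ((s - 1) / 2)) =
      D ^ (i + 3) * vol G x ((s - 1) / 2) := by ring
  exact Nat.le_of_mul_le_mul_right (((h1.trans h2).trans h3).trans (h5.trans h6.le))
    (vol_pos h.st x _)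

/-! ### Part D -/

theorem bD_nonempty (G : SimpleGraph V) (x : V) (R r : ℝ) : {n | Pk G x R r n}.Nonempty :=
  ⟨0, ∅, rfl, by simp, by simp⟩

theorem bD_bdd (hG : Standing G) (x : V) (R r : ℝ) : BddAbove {n | Pk G x R r n} := by
  classical
  refine ⟨(nb_finite hG x ⌊R⌋₊).toFinset.card, ?_⟩
  rintro n ⟨S, rfl, h1, -⟩
  apply Finset.card_le_card
  intro s hs
  rw [Set.Finite.mem_toFinset]
  exact Nat.le_floor (h1 s hs)

/-- packing numbers are attained -/
theorem pk_attained (hG : Standing G) (x : V) (R r : ℝ) : ∃ S : Finset V, S.card = pk G x R r ∧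
    (∀ s ∈ S, (G.dist x s : ℝ) ≤ R) ∧ ∀ s ∈ S, ∀ t ∈ S, s ≠ t → r ≤ (G.dist s t : ℝ) :=
  Nat.sSup_mem (bD_nonempty G x R r) (bD_bdd hG x R r)

theorem le_pk (hG : Standing G) (x : V) (R r : ℝ) (S : Finset V) (h1 : ∀ s ∈ S, (G.dist x s : ℝ) ≤ R)
    (h2 : ∀ s ∈ S, ∀ t ∈ S, s ≠ t → r ≤ (G.dist s t : ℝ)) : S.card ≤ pk G x R r :=
  le_csSup (bD_bdd hG x R r) ⟨S, rfl, h1, h2⟩

theorem bD_pk_le (hG : Standing G) (ht : VertexTransitive G) (x y : V) (R r : ℝ) : pk G x R r ≤ pk G y R r := by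
  classical
  obtain ⟨S, hc, h1, h2⟩ := pk_attained hG x R r
  obtain ⟨φ, hφ⟩ := ht x y
  rw [← hc, ← Finset.card_map φ.toEquiv.toEmbedding]
  apply le_pk hG
  · intro s hs
    rw [Finset.mem_map] at hs
    obtain ⟨a, ha, rfl⟩ := hs
    have := h1 a ha
    rw [← hφ]
    have h3 := dist_iso hG.connected φ x a
    simpa [h3] using this
  · intro s hs t ht' hst
    rw [Finset.mem_map] at hs ht'
    obtain ⟨a, ha, rfl⟩ := hs
    obtain ⟨b, hb, rfl⟩ := ht'
    have hab : a ≠ b := by
      rintro rfl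
      exact hst rfl
    have := h2 a ha b hb hab
    have h3 := dist_iso hG.connected φ a b
    simpa [h3] using this

theorem pk_eq (hG : Standing G) (ht : VertexTransitive G) (x y : V) (R r : ℝ) : pk G x R r = pk G y R r :=
  le_antisymm (bD_pk_le hG ht x y R r) (bD_pk_le hG ht y x R r)

theorem pk_mono (hG : Standing G) (x : V) {R R' r r' : ℝ} (hR : R ≤ R') (hr : r' ≤ r) :
    pk G x R r ≤ pk G x R' r' := by
  obtain ⟨S, hc, h1, h2⟩ := pk_attained hG x R r
  rw [← hc]
  exact le_pk hG x R' r' S (fun s hs => (h1 s hs).trans hR) (fun s hs t ht hst => hr.trans (h2 s hs t ht hst))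

end Pool.Agent.NetGraphs.SL
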