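import Pool.Agent.NetGraphs.SL.Stmts

set_option autoImplicit false

namespace Pool.Agent.NetGraphs.SL

open SimpleGraph Pool.Agent.NetGraphs

/-- distances along the road in the net graph -/
theorem cMA_road {V : Type} {G : SimpleGraph V} (hG : Standing G) {k I : ℕ} {h : ℕ → V} {N N' : Set V}
    (hk : 1 ≤ k) (hr : Road G k I h) (hN' : HWNet G k I h N N') (m i : ℕ) (hi : i + m ≤ I) :
    (netGraph G k N').dist ⟨h i, hN'.road i (by omega)⟩ ⟨h (i + m), hN'.road (i + m) hi⟩ ≤ m := by
  induction m with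
  | zero => simp
  | succ m ih =>
    have h1 := ih (by omega)
    have hcon := net_conn hG hk hN'.net
    have h2 : (netGraph G k N').Adj ⟨h (i + m), hN'.road (i + m) (by omega)⟩
        ⟨h (i + (m + 1)), hN'.road (i + (m + 1)) hi⟩ := by
      rw [netGraph_adj]
      have h3 := hr (i + m) (i + (m + 1)) (by omega) hi
      have h4 : 2 * k * (i + (m + 1) - (i + m)) = 2 * k := by
        have : i + (m + 1) - (i + m) = 1 := by omega
        rw [this, mul_one]
      constructor
      · change 0 < G.dist (h (i + m)) (h (i + (m + 1)))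
        rw [h3, h4]; omega
      · change G.dist (h (i + m)) (h (i + (m + 1))) ≤ 2 * k
        rw [h3, h4]
    have h5 := hcon.dist_triangle (u := ⟨h i, hN'.road i (by omega)⟩)
      (v := ⟨h (i + m), hN'.road (i + m) (by omega)⟩) (w := ⟨h (i + (m + 1)), hN'.road (i + (m + 1)) hi⟩)
    have h6 := SimpleGraph.dist_eq_one_iff_adj.2 h2
    omega

theorem cMA_road_abs {V : Type} {G : SimpleGraph V} (hG : Standing G) {k I : ℕ} {h : ℕ → V} {N N' : Set V}
    (hk : 1 ≤ k) (hr : Road G k I h) (hN' : HWNet G k I h N N') (L i j : ℕ) (hi : i ≤ I) (hj : j ≤ I)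
    (hd : G.dist (h i) (h j) < 2 * k * (L + 1)) :
    (netGraph G k N').dist ⟨h i, hN'.road i hi⟩ ⟨h j, hN'.road j hj⟩ ≤ L := by
  rcases le_total i j with hij | hij
  · obtain ⟨m, rfl⟩ := Nat.exists_eq_add_of_le hij
    have h1 := hr i (i + m) hij hj
    rw [h1, Nat.add_sub_cancel_left] at hd
    have h2 : m < L + 1 := Nat.lt_of_mul_lt_mul_left hd
    have h3 := cMA_road hG hk hr hN' m i hj
    omega
  · obtain ⟨m, rfl⟩ := Nat.exists_eq_add_of_le hij
    have h1 := hr j (j + m) hij hi
    rw [G.dist_comm, h1, Nat.add_sub_cancel_left] at hd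
    have h2 : m < L + 1 := Nat.lt_of_mul_lt_mul_left hd
    have h3 := cMA_road hG hk hr hN' m j hi
    rw [SimpleGraph.dist_comm]
    omega

theorem t_CMP1 (h1 : S_COARSE) : S_CMP1 := by
  intro D
  obtain ⟨c0, hc0⟩ := h1 D
  refine ⟨4 * c0, ?_⟩
  intro V G hG k I h N N' hk hroad hN hNN J hJI hJ p hp x hx hx'
  have hcon : G.Connected := hG.st.connected
  have hN'conn := net_conn hG.st hk hNN.net
  have hNconn := net_conn hG.st hk hN
  have hsep : Separated G k N' := hNN.net.prop
  have hfar : ∀ y ∈ N, y ∉ N' → ∃ j, j ≤ I ∧ G.dist y (h j) < k := by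
    intro y hy hy'
    by_contra hcontra
    push Not at hcontra
    exact hy' (hNN.keep y hy hcontra)
  have key : ∀ (y q : N) (w : (netGraph G k N).Walk y q), q = p →
      (∀ hy : y.1 ∈ N', (netGraph G k N').dist ⟨h J, hJ⟩ ⟨y.1, hy⟩ ≤ w.length + 4 * c0) ∧
      (y.1 ∉ N' → ∃ j, ∃ hj : j ≤ I, G.dist y.1 (h j) < k ∧
        (netGraph G k N').dist ⟨h J, hJ⟩ ⟨h j, hNN.road j hj⟩ ≤ w.length + 1) := by
    intro y q w
    induction w with
    | nil =>
      rename_i u
      rintro rfl
      refine ⟨fun hy => ?_, fun hy => ⟨J, hJI, hp, by simp⟩⟩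
      have : u.1 = h J := by
        by_contra hne
        have := hsep u.1 hy (h J) hJ hne
        omega
      have h2 : (⟨h J, hJ⟩ : N') = ⟨u.1, hy⟩ := Subtype.ext this.symm
      rw [h2]; simp
    | cons hadj w' ih =>
      rename_i u v z
      intro hz
      obtain ⟨ihA, ihB⟩ := ih hz
      have hadj' := (netGraph_adj u v).1 hadj
      refine ⟨fun hy => ?_, fun hy => ?_⟩
      · by_cases hv : v.1 ∈ N'
        · have e1 := ihA hv
          have e2 : (netGraph G k N').Adj ⟨v.1, hv⟩ ⟨u.1, hy⟩ := by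
            rw [netGraph_adj]
            change 0 < G.dist v.1 u.1 ∧ G.dist v.1 u.1 ≤ 2 * k
            rw [G.dist_comm]; exact hadj'
          have e3 := SimpleGraph.dist_eq_one_iff_adj.2 e2
          have e4 := hN'conn.dist_triangle (u := ⟨h J, hJ⟩) (v := ⟨v.1, hv⟩) (w := ⟨u.1, hy⟩)
          rw [SimpleGraph.Walk.length_cons]
          omega
        · obtain ⟨j, hj, e1, e2⟩ := ihB hv
          have e3 := hc0 V G hG k hk N' hNN.net ⟨h j, hNN.road j hj⟩ ⟨u.1, hy⟩
          have e4 : G.dist (h j) u.1 ≤ G.dist (h j) v.1 + G.dist v.1 u.1 := hcon.dist_triangle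
          have e5 : G.dist (h j) v.1 = G.dist v.1 (h j) := G.dist_comm
          have e6 : G.dist v.1 u.1 = G.dist u.1 v.1 := G.dist_comm
          have e7 : G.dist (h j) u.1 ≤ 3 * k := by omega
          have e8 : c0 * (G.dist (h j) u.1 + k) ≤ k * (4 * c0) := by
            calc c0 * (G.dist (h j) u.1 + k) ≤ c0 * (3 * k + k) := Nat.mul_le_mul_left _ (by omega)
              _ = k * (4 * c0) := by ring
          have e9 : (netGraph G k N').dist ⟨h j, hNN.road j hj⟩ ⟨u.1, hy⟩ ≤ 4 * c0 :=
            Nat.le_of_mul_le_mul_left (e3.trans e8) (by omega)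
          have e10 := hN'conn.dist_triangle (u := ⟨h J, hJ⟩) (v := ⟨h j, hNN.road j hj⟩) (w := ⟨u.1, hy⟩)
          rw [SimpleGraph.Walk.length_cons]
          omega
      · obtain ⟨j, hj, e1⟩ := hfar u.1 u.2 hy
        refine ⟨j, hj, e1, ?_⟩
        apply cMA_road_abs hG.st hk hroad hNN _ J j hJI hj
        -- the distance of u and p
        have e2 : G.dist u.1 p.1 ≤ 2 * k * (w'.length + 1) := by
          have f1 := dist_le_net hG.st hk hN u p
          have f2 : (netGraph G k N).dist u p ≤ w'.length + 1 := by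
            have f3 := SimpleGraph.dist_le (SimpleGraph.Walk.cons hadj w')
            rw [SimpleGraph.Walk.length_cons] at f3
            have f4 : (netGraph G k N).dist u p = (netGraph G k N).dist u z := congrArg _ hz.symm
            omega
          exact f1.trans (Nat.mul_le_mul_left _ f2)
        have e3 : G.dist (h J) (h j) ≤ G.dist (h J) p.1 + G.dist p.1 (h j) := hcon.dist_triangle
        have e4 : G.dist p.1 (h j) ≤ G.dist p.1 u.1 + G.dist u.1 (h j) := hcon.dist_triangle
        have e5 : G.dist (h J) p.1 = G.dist p.1 (h J) := G.dist_comm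
        have e6 : G.dist p.1 u.1 = G.dist u.1 p.1 := G.dist_comm
        rw [SimpleGraph.Walk.length_cons]
        have e7 : 2 * k * (w'.length + 1 + 1 + 1) = 2 * k * (w'.length + 1) + 4 * k := by ring
        omega
  obtain ⟨w, hw⟩ := hNconn.exists_walk_length_eq_dist ⟨x, hx⟩ p
  have h2 := (key ⟨x, hx⟩ p w rfl).1 hx'
  have h3 : (netGraph G k N).dist p ⟨x, hx⟩ = (netGraph G k N).dist ⟨x, hx⟩ p := SimpleGraph.dist_comm
  rw [hw] at h2
  rw [h3]
  exact h2

end Pool.Agent.NetGraphs.SL
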