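import Pool.Agent.NetGraphs.SL.Stmts

/-! Far from the road nothing changes. -/

set_option autoImplicit false

namespace Pool.Agent.NetGraphs.SL

open SimpleGraph Pool.Agent.NetGraphs

/-- walks of the net graph of `N'` that stay away from the road are walks of the net graph of `N` -/
theorem cMB_walk {V : Type} {G : SimpleGraph V} (hG : Standing G) {k I : ℕ} {h : ℕ → V} {N N' : Set V}
    (hw : HWNet G k I h N N') {a b : N'} (w : (netGraph G k N').Walk a b) :
    ∀ (ha : a.1 ∈ N) (hb : b.1 ∈ N), (∀ i, i ≤ I → 2 * k * (w.length + 2) ≤ G.dist a.1 (h i)) →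
      ∃ w' : (netGraph G k N).Walk ⟨a.1, ha⟩ ⟨b.1, hb⟩, w'.length = w.length := by
  induction w with
  | nil => intro ha hb _; exact ⟨.nil, rfl⟩
  | @cons a c b hac w ih =>
    intro ha hb hfar
    have h1 : ∀ i, i ≤ I → 2 * k * (w.length + 2) ≤ G.dist c.1 (h i) := by
      intro i hi
      have h2 := hfar i hi
      have h3 : G.dist a.1 (h i) ≤ G.dist a.1 c.1 + G.dist c.1 (h i) := hG.connected.dist_triangle
      have h4 : G.dist a.1 c.1 ≤ 2 * k := hac.2
      rw [Walk.length_cons] at h2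
      have h5 : 2 * k * (w.length + 1 + 2) = 2 * k * (w.length + 2) + 2 * k := by ring
      omega
    have hc : c.1 ∈ N := by
      by_contra hcn
      obtain ⟨i, hi, h2⟩ := hw.near c.1 c.2 hcn
      have h3 := h1 i hi
      have h4 : 2 * k * (w.length + 2) = 2 * k * w.length + 2 * k + 2 * k := by ring
      have h5 : 0 ≤ 2 * k * w.length := Nat.zero_le _
      omega
    obtain ⟨w', hw'⟩ := ih hc hb h1
    have hadj : (netGraph G k N).Adj ⟨a.1, ha⟩ ⟨c.1, hc⟩ := hac
    exact ⟨Walk.cons hadj w', by rw [Walk.length_cons, Walk.length_cons, hw']⟩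

theorem t_CMP2 : S_CMP2 := by
  intro V G hG k I h N N' r hk _ hw x y hx hx' hy hy' hfar hr
  by_contra hlt
  push Not at hlt
  obtain ⟨w, hwl⟩ := (net_conn hG hk hw.net).exists_walk_length_eq_dist
    (⟨x, hx'⟩ : N') (⟨y, hy'⟩ : N')
  obtain ⟨w', hw'⟩ := cMB_walk hG hw w hx hy (by
    intro i hi
    refine le_trans ?_ (hfar i hi)
    apply Nat.mul_le_mul_left
    omega)
  have h1 : (netGraph G k N).dist ⟨x, hx⟩ ⟨y, hy⟩ ≤ w'.length := dist_le w'
  omega

end Pool.Agent.NetGraphs.SL
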