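import Pool.Agent.NetGraphs.SL.Stmts

set_option autoImplicit false

namespace Pool.Agent.NetGraphs.SL

open SimpleGraph Pool.Agent.NetGraphs

theorem cOA_walk {V : Type} {G : SimpleGraph V} (hG : Standing G) {k : ℕ} (hk : 1 ≤ k) {N : Set V}
    (hN : IsNet G k N) (p : N) : ∀ (i : ℕ), i ≤ 3 * k → ∀ x : V, G.dist p.1 x = i → ∀ n : N,
      G.dist x n.1 < k → ∃ w : (netGraph G k N).Walk p n, ∀ m ∈ w.support, G.dist p.1 m.1 ≤ 4 * k := by
  intro i
  induction i with
  | zero =>
    intro _ x hx n hn
    have hxp : p.1 = x := (hG.connected.dist_eq_zero_iff).1 hx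
    subst hxp
    have : p = n := by
      by_contra hne
      have := hN.prop p.1 p.2 n.1 n.2 (fun h => hne (Subtype.ext h))
      omega
    subst this
    exact ⟨Walk.nil, by simp⟩
  | succ i ih =>
    intro hi x hx n hn
    obtain ⟨y, hy1, hy2⟩ := geod_point hG.connected p.1 x (m := i) (by omega)
    rw [hx] at hy2
    obtain ⟨ny, hnyN, hny⟩ := net_cover hk hN y
    obtain ⟨w, hw⟩ := ih (by omega) y hy1 ⟨ny, hnyN⟩ hny
    have h1 : G.dist ny n.1 ≤ G.dist ny x + G.dist x n.1 := hG.connected.dist_triangle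
    have h2 : G.dist ny x ≤ G.dist ny y + G.dist y x := hG.connected.dist_triangle
    have h3 : G.dist ny y = G.dist y ny := G.dist_comm
    have h4 : G.dist p.1 n.1 ≤ G.dist p.1 x + G.dist x n.1 := hG.connected.dist_triangle
    by_cases hne : (⟨ny, hnyN⟩ : N) = n
    · subst hne
      exact ⟨w, hw⟩
    · have hadj : (netGraph G k N).Adj ⟨ny, hnyN⟩ n := by
        refine ⟨?_, ?_⟩
        · apply Nat.pos_of_ne_zero
          intro h0
          exact hne (Subtype.ext ((hG.connected.dist_eq_zero_iff).1 h0))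
        · show G.dist ny n.1 ≤ 2 * k
          omega
      refine ⟨w.concat hadj, ?_⟩
      intro m hm
      rw [Walk.support_concat, List.mem_append, List.mem_singleton] at hm
      rcases hm with hm | rfl
      · exact hw m hm
      · omega

theorem cOA_near {D : ℕ} {V : Type} {G : SimpleGraph V} (h : Hyp G D) {k : ℕ} (hk : 1 ≤ k) {N : Set V}
    (hN : IsNet G k N) (p q : N) (hpq : G.dist p.1 q.1 ≤ 3 * k) :
    (netGraph G k N).dist p q ≤ D ^ 5 := by
  classical
  obtain ⟨w, hw⟩ := cOA_walk h.st hk hN p _ hpq q.1 rfl q (by simp; omega)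
  have hP : w.bypass.IsPath := w.bypass_isPath
  have hsup : ∀ m ∈ w.bypass.support, G.dist p.1 m.1 ≤ 4 * k := fun m hm =>
    hw m (w.support_bypass_subset_support hm)
  let T : Finset V := (w.bypass.support.map Subtype.val).toFinset
  have hnd : (w.bypass.support.map Subtype.val).Nodup :=
    hP.support_nodup.map Subtype.val_injective
  have hcard : T.card = w.bypass.length + 1 := by
    show (w.bypass.support.map Subtype.val).toFinset.card = _
    rw [List.toFinset_card_of_nodup hnd, List.length_map, Walk.length_support]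
  have hmem : ∀ a ∈ T, ∃ m : N, m ∈ w.bypass.support ∧ m.1 = a := by
    intro a ha
    have := List.mem_toFinset.1 ha
    rw [List.mem_map] at this
    exact this
  have hle : T.card ≤ D ^ (2 + 3) := by
    apply sep_card_le h (s := k) (i := 2) hk p.1
    · intro a ha b hb hab
      obtain ⟨m, _, rfl⟩ := hmem a ha
      obtain ⟨m', _, rfl⟩ := hmem b hb
      exact hN.prop m.1 m.2 m'.1 m'.2 hab
    · intro a ha
      obtain ⟨m, hm, rfl⟩ := hmem a ha
      have := hsup m hm
      omega
  have hd : (netGraph G k N).dist p q ≤ w.bypass.length := SimpleGraph.dist_le _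
  have h5 : D ^ (2 + 3) = D ^ 5 := rfl
  omega

theorem t_COARSE : S_COARSE := by
  intro D
  refine ⟨D ^ 5, ?_⟩
  intro V G h k hk N hN
  have hG := h.st
  have hH := net_conn hG hk hN
  have key : ∀ d : ℕ, ∀ p q : N, G.dist p.1 q.1 = d →
      k * (netGraph G k N).dist p q ≤ D ^ 5 * (d + k) := by
    intro d
    induction d using Nat.strong_induction_on with
    | _ d ih =>
      intro p q hpq
      by_cases h3 : d ≤ 3 * k
      · have h1 := cOA_near h hk hN p q (by omega)
        calc k * (netGraph G k N).dist p q ≤ k * D ^ 5 := Nat.mul_le_mul_left _ h1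
          _ = D ^ 5 * k := Nat.mul_comm _ _
          _ ≤ D ^ 5 * (d + k) := Nat.mul_le_mul_left _ (by omega)
      · push Not at h3
        obtain ⟨z, hz1, hz2⟩ := geod_point hG.connected p.1 q.1 (m := 2 * k) (by omega)
        obtain ⟨n, hnN, hzn⟩ := net_cover hk hN z
        have h4 : G.dist p.1 n ≤ G.dist p.1 z + G.dist z n := hG.connected.dist_triangle
        have h5 : G.dist n q.1 ≤ G.dist n z + G.dist z q.1 := hG.connected.dist_triangle
        have h6 : G.dist n z = G.dist z n := G.dist_comm
        have h7 := cOA_near h hk hN p ⟨n, hnN⟩ (by show G.dist p.1 n ≤ 3 * k; omega)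
        have h8 := ih (G.dist n q.1) (by omega) ⟨n, hnN⟩ q rfl
        have h9 : (netGraph G k N).dist p q ≤ (netGraph G k N).dist p ⟨n, hnN⟩ +
          (netGraph G k N).dist ⟨n, hnN⟩ q := hH.dist_triangle
        calc k * (netGraph G k N).dist p q
            ≤ k * ((netGraph G k N).dist p ⟨n, hnN⟩ + (netGraph G k N).dist ⟨n, hnN⟩ q) :=
              Nat.mul_le_mul_left _ h9
          _ = k * (netGraph G k N).dist p ⟨n, hnN⟩ + k * (netGraph G k N).dist ⟨n, hnN⟩ q :=
              Nat.mul_add _ _ _
          _ ≤ k * D ^ 5 + D ^ 5 * (G.dist n q.1 + k) :=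
              Nat.add_le_add (Nat.mul_le_mul_left _ h7) h8
          _ ≤ D ^ 5 * k + D ^ 5 * d := by
              rw [Nat.mul_comm k]
              exact Nat.add_le_add_left (Nat.mul_le_mul_left _ (by omega)) _
          _ = D ^ 5 * (d + k) := by ring
  intro p q
  exact key _ p q rfl

end Pool.Agent.NetGraphs.SL
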