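import Pool.Agent.NetGraphs.SL.Stmts

set_option autoImplicit false

namespace Pool.Agent.NetGraphs.SL

open SimpleGraph Pool.Agent.NetGraphs

/-! Proof. sub_bounded / doubling_of_bounded (NetGraphs/Main.lean; sub_bounded is in Pool/Agent/Results/MP_6f70ff_gt/SubScaleDoubling.lean, copy its short proof)
give VolumeDoubling G: ball(2r) <= C ball(r) for real r>0. With r=n+1/2: ball(2n+1) and ball(n+1/2)=ball(n) (distances are integers), so
vol(2n+1) <= C vol n. D = max 1 (Nat.ceil C). -/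

theorem dBL_bounded {V : Type} {G : SimpleGraph V} (h : SubScaleInvariant G) (N : ℕ → Set V)
    (hN : NetChoice G N) : ∃ C : ℝ, ∀ᶠ k in Filter.atTop, CC G N k ≤ ENNReal.ofReal C := by
  refine ⟨2, ?_⟩
  have h1 := h N hN
  have h2 : (1 : ENNReal) < ENNReal.ofReal 2 := by
    rw [← ENNReal.ofReal_one]
    exact (ENNReal.ofReal_lt_ofReal_iff (by norm_num)).2 (by norm_num)
  exact (h1.eventually (gt_mem_nhds h2)).mono fun _ hk => hk.le

theorem dBL_ball {V : Type} (G : SimpleGraph V) (v : V) (n : ℕ) (r : ℝ) (h1 : (n : ℝ) ≤ r)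
    (h2 : r < (n : ℝ) + 1) : ball G v r = nb G v n := by
  ext u
  constructor
  · intro h
    have h3 : (G.dist v u : ℝ) ≤ r := h
    have h4 : (G.dist v u : ℝ) < (n : ℝ) + 1 := lt_of_le_of_lt h3 h2
    have h5 : G.dist v u < n + 1 := by exact_mod_cast h4
    exact Nat.lt_succ_iff.1 h5
  · intro h
    have h3 : G.dist v u ≤ n := h
    have h4 : (G.dist v u : ℝ) ≤ n := by exact_mod_cast h3
    exact h4.trans h1

theorem t_DBL : S_DBL := by
  intro V G hG ht hs
  obtain ⟨C, hC, h⟩ := doubling_of_bounded hG ht (dBL_bounded hs)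
  refine ⟨max 1 ⌈C⌉₊, hG, ht, le_max_left _ _, ?_⟩
  intro v n
  have h1 := h v ((n : ℝ) + 1 / 2) (by positivity)
  rw [dBL_ball G v n ((n : ℝ) + 1 / 2) (by linarith) (by linarith),
    dBL_ball G v (2 * n + 1) (2 * ((n : ℝ) + 1 / 2)) (by push_cast; linarith)
      (by push_cast; linarith)] at h1
  have h2 : (C : ℝ) ≤ ((max 1 ⌈C⌉₊ : ℕ) : ℝ) := by
    refine (Nat.le_ceil C).trans ?_
    exact_mod_cast le_max_right _ _
  have h3 : ((vol G v (2 * n + 1) : ℕ) : ℝ) ≤ ((max 1 ⌈C⌉₊ * vol G v n : ℕ) : ℝ) := by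
    rw [Nat.cast_mul]
    exact h1.trans (mul_le_mul_of_nonneg_right h2 (Nat.cast_nonneg _))
  exact_mod_cast h3

end Pool.Agent.NetGraphs.SL
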