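import Pool.Agent.NetGraphs.SL.DET1

set_option autoImplicit false

namespace Pool.Agent.NetGraphs.SL

open SimpleGraph Pool.Agent.NetGraphs

theorem dET_road {V : Type} {G : SimpleGraph V} {k I : ℕ} (hk : 1 ≤ k) {h : ℕ → V}
    {N N' : Set V} (hR : Road G k I h) (hW : HWNet G k I h N N') (i : ℕ) :
    ∀ (hi : i ≤ I), ∃ w : (netGraph G k N').Walk ⟨h 0, hW.road 0 (Nat.zero_le _)⟩ ⟨h i, hW.road i hi⟩, w.length = i := by
  induction i with
  | zero => intro hi; exact ⟨Walk.nil, rfl⟩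
  | succ i ih =>
    intro hi
    obtain ⟨w, hw⟩ := ih (by omega)
    have h1 : G.dist (h i) (h (i + 1)) = 2 * k := by
      rw [hR i (i + 1) (by omega) hi]
      simp
    have hadj : (netGraph G k N').Adj ⟨h i, hW.road i (by omega)⟩ ⟨h (i + 1), hW.road (i + 1) hi⟩ := by
      refine ⟨?_, ?_⟩
      · change 0 < G.dist (h i) (h (i + 1))
        omega
      · change G.dist (h i) (h (i + 1)) ≤ 2 * k
        omega
    refine ⟨w.append (Walk.cons hadj Walk.nil), ?_⟩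
    rw [Walk.length_append, hw]
    rfl

/-- the numerical facts -/
theorem dET_num {τ δ c₀ R r C : ℝ} {c r₀ r₁ J : ℕ} (hτ : 0 < τ) (hτ4 : τ ≤ 1 / 4) (hδ : 0 < δ) (hδ1 : δ ≤ 1)
    (hc₀ : 0 ≤ c₀) (hC : C = 1 + τ / 8)
    (hr : 16 / τ + 4 * (8 + c) / τ + 8 / δ + 12 + c₀ + 4 * r₀ + 8 ≤ r)
    (hR : (16 / τ + 4 * (8 + c) / τ + 8 / δ + 12 + c₀ + 4 * r₀ + 8) * r ≤ R)
    (hr₁ : r₁ = ⌊(r - C) / C⌋₊) (hJ : J = ⌊C * (1 - δ / 8) * R⌋₊) :
    (C * r₁ + C ≤ r) ∧ r₀ ≤ r₁ ∧ 1 ≤ r₁ ∧ (r / 4 ≤ r₁) ∧ (C * (1 - δ / 8) * R - 1 ≤ J) ∧ (J ≤ C * (1 - δ / 8) * R) ∧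
      (C * (C * R + 5 + c + 2) + C ≤ (1 + τ) * R) ∧ ((1 - τ) * r ≤ ((r₁ : ℝ) - 2) / C - C) ∧
      (r₁ + 12 + c₀ ≤ C * R * (δ / 4)) ∧ r ≤ R ∧ 0 < r := by
  have hC1 : 1 ≤ C := by rw [hC]; linarith
  have hC2 : C ≤ 2 := by rw [hC]; linarith
  have hC0 : 0 < C := by linarith
  have hC3 : C ≤ 1 + 1 / 32 := by rw [hC]; linarith
  have hCC : C * C ≤ 1 + τ / 3 := by
    have h1 : τ * τ ≤ τ * (1 / 4) := mul_le_mul_of_nonneg_left hτ4 hτ.le
    rw [hC]
    have h2 : (1 + τ / 8) * (1 + τ / 8) = 1 + τ / 4 + τ * τ / 64 := by ring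
    rw [h2]; linarith
  have a1 : 0 < 16 / τ := by positivity
  have a2 : 0 < 4 * (8 + (c : ℝ)) / τ := by positivity
  have a3 : 0 < 8 / δ := by positivity
  have a4 : (0 : ℝ) ≤ 4 * r₀ := by positivity
  set ρ : ℝ := 16 / τ + 4 * (8 + c) / τ + 8 / δ + 12 + c₀ + 4 * r₀ + 8 with hρ
  have hρ1 : 20 ≤ ρ := by linarith
  have hr0 : 0 < r := by linarith
  have hrR' : r ≤ R := by
    have : 1 * r ≤ ρ * r := mul_le_mul_of_nonneg_right (by linarith) hr0.le
    linarith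
  have hrR : ρ ≤ R := by linarith
  have hRpos : 0 < R := by linarith
  have h8τ : 16 ≤ τ * r := by
    have : 16 / τ ≤ r := by linarith
    rw [div_le_iff₀ hτ] at this
    linarith
  have hcτ : 4 * (8 + c) ≤ τ * R := by
    have : 4 * (8 + c) / τ ≤ R := by linarith
    rw [div_le_iff₀ hτ] at this
    linarith
  have hδr : 8 * r ≤ δ * R := by
    have h1 : 8 / δ * r ≤ R := by
      have : 8 / δ * r ≤ ρ * r := mul_le_mul_of_nonneg_right (by linarith) hr0.le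
      linarith
    rw [div_mul_eq_mul_div, div_le_iff₀ hδ] at h1
    linarith
  have b1 : 0 ≤ (r - C) / C := div_nonneg (by linarith) hC0.le
  have b2 : (r₁ : ℝ) ≤ (r - C) / C := by rw [hr₁]; exact Nat.floor_le b1
  have b3 : (r - C) / C - 1 < r₁ := by rw [hr₁]; exact Nat.sub_one_lt_floor _
  have b2' : (r₁ : ℝ) * C ≤ r - C := by rwa [le_div_iff₀ hC0] at b2
  have b3' : r - C < (r₁ + 1) * C := by
    rw [← div_lt_iff₀ hC0]; linarith
  have c1 : C * r₁ + C ≤ r := by linarith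
  have c4 : r / 4 ≤ r₁ := by
    have h2 : ((r₁ : ℝ) + 2) * C ≤ (r₁ + 2) * 2 := mul_le_mul_of_nonneg_left hC2 (by positivity)
    linarith
  have c2 : r₀ ≤ r₁ := by
    have : (r₀ : ℝ) ≤ r₁ := by linarith
    exact_mod_cast this
  have c3 : 1 ≤ r₁ := by
    have : (1 : ℝ) ≤ r₁ := by linarith
    exact_mod_cast this
  have hJ0 : 0 ≤ C * (1 - δ / 8) * R := by
    have : 0 ≤ 1 - δ / 8 := by linarith
    positivity
  have c5 : C * (1 - δ / 8) * R - 1 ≤ J := by rw [hJ]; exact (Nat.sub_one_lt_floor _).le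
  have c6 : (J : ℝ) ≤ C * (1 - δ / 8) * R := by rw [hJ]; exact Nat.floor_le hJ0
  have c7 : C * (C * R + 5 + c + 2) + C ≤ (1 + τ) * R := by
    have h1 : C * (8 + c) ≤ 2 * (8 + c) := mul_le_mul_of_nonneg_right hC2 (by positivity)
    have h3 : C * C * R ≤ (1 + τ / 3) * R := mul_le_mul_of_nonneg_right hCC hRpos.le
    have h4 : C * (C * R + 5 + c + 2) + C = C * C * R + C * (8 + c) := by ring
    have h5 : (1 + τ / 3) * R = R + τ * R / 3 := by ring
    have h6 : (1 + τ) * R = R + τ * R := by ring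
    rw [h4, h6]
    linarith
  have c8 : (1 - τ) * r ≤ ((r₁ : ℝ) - 2) / C - C := by
    have h4 : (1 - τ) * r + C ≤ ((r₁ : ℝ) - 2) / C := by
      rw [le_div_iff₀ hC0]
      have h5 : (((1 - τ) * r + C) * C) * C ≤ ((r₁ : ℝ) - 2) * C := by
        have h9 : (1 - τ) * (C * C) ≤ 1 - τ / 2 := by
          have h10 : (1 - τ) * (C * C) ≤ (1 - τ) * (1 + τ / 3) := mul_le_mul_of_nonneg_left hCC (by linarith)
          have h11 : (1 - τ) * (1 + τ / 3) = 1 - 2 * τ / 3 - τ * τ / 3 := by ring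
          have h12 : 0 ≤ τ * τ := by positivity
          linarith
        have h10 : (1 - τ) * (C * C) * r ≤ (1 - τ / 2) * r := mul_le_mul_of_nonneg_right h9 hr0.le
        have h13 : C * C * C ≤ (1 + τ / 3) * (1 + 1 / 32) := mul_le_mul hCC hC3 hC0.le (by linarith)
        have h14 : (((1 - τ) * r + C) * C) * C = (1 - τ) * (C * C) * r + C * C * C := by ring
        have h15 : (1 - τ / 2) * r = r - τ * r / 2 := by ring
        rw [h14]
        linarith
      exact le_of_mul_le_mul_right h5 hC0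
    linarith
  have c9 : r₁ + 12 + c₀ ≤ C * R * (δ / 4) := by
    have h1 : (r₁ : ℝ) ≤ r := by
      have : (r₁ : ℝ) * 1 ≤ r₁ * C := mul_le_mul_of_nonneg_left hC1 (by positivity)
      linarith
    have h2 : R * (δ / 4) ≤ C * R * (δ / 4) := by
      have : 1 * R ≤ C * R := mul_le_mul_of_nonneg_right hC1 hRpos.le
      rw [one_mul] at this
      exact mul_le_mul_of_nonneg_right this (by linarith)
    linarith
  exact ⟨c1, c2, c3, c4, c5, c6, c7, c8, c9, hrR', hr0⟩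

/-- the count -/
theorem dET_count {α : Type} [DecidableEq α] (T₁ T₂ : Finset α) (hd : Disjoint T₁ T₂) (P : α → Prop) [DecidablePred P] :
    T₁.card + T₂.card ≤ ((T₁ ∪ T₂).filter (fun x => ¬ P x)).card + (T₁.filter P).card + (T₂.filter P).card := by
  have h1 : (T₁ ∪ T₂).card = T₁.card + T₂.card := Finset.card_union_of_disjoint hd
  have h2 : ((T₁ ∪ T₂).filter P).card + ((T₁ ∪ T₂).filter (fun x => ¬ P x)).card = (T₁ ∪ T₂).card :=
    Finset.card_filter_add_card_filter_not P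
  have h3 : ((T₁ ∪ T₂).filter P).card ≤ (T₁.filter P).card + (T₂.filter P).card := by
    rw [Finset.filter_union]
    exact Finset.card_union_le _ _
  omega

theorem t_DET (h1 : S_HW) (h2 : S_CMP1) (h3 : S_CMP2) (h4 : S_ZC) : S_DET := by
  classical
  intro D δ c₀ hδ hδ1 hc₀
  obtain ⟨c, hc⟩ := h2 D
  obtain ⟨Qz, r₀, hz⟩ := h4 D
  refine ⟨18 * Qz, by positivity, ?_⟩
  intro τ hτ hτ4
  refine ⟨1 + τ / 8, 16 / τ + 4 * (8 + c) / τ + 8 / δ + 12 + c₀ + 4 * r₀ + 8, by linarith, ?_⟩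
  intro V G hG k hk o N ho hN hslow hrough R r hr hR x
  set C : ℝ := 1 + τ / 8 with hC
  obtain ⟨r₁, hr₁⟩ : ∃ r₁ : ℕ, r₁ = ⌊(r - C) / C⌋₊ := ⟨_, rfl⟩
  obtain ⟨J, hJ⟩ : ∃ J : ℕ, J = ⌊C * (1 - δ / 8) * R⌋₊ := ⟨_, rfl⟩
  obtain ⟨n1, n2, n3, n4, n5, n6, n7, n8, n9, n10, n11⟩ := dET_num hτ hτ4 hδ hδ1 hc₀ hC hr hR hr₁ hJ
  have hC1 : 1 ≤ C := by rw [hC]; linarith
  have hC2 : C ≤ 2 := by rw [hC]; linarith
  have hRpos : 0 < R := by linarith
  have hst := hG.st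
  have hcon := hst.connected
  -- the road and the second net
  obtain ⟨h, h0, hroad⟩ := road_exists hst o k J
  obtain ⟨N', hW⟩ := h1 V G hst k J h N hk hroad hN
  obtain ⟨f, hf⟩ := hrough N hN
  obtain ⟨f', hf'⟩ := hrough N' hW.net
  obtain ⟨pJ, hpJ, hpJd⟩ := net_cover hk hN (h J)
  have hconN := net_conn hst hk hN
  have hconN' := net_conn hst hk hW.net
  obtain ⟨T₁, hT₁c, hT₁b, hT₁s⟩ := t_push hst hG.tr hk hN hC1 hC2 hf ⟨o, ho⟩ x R r r₁ n3 n1 hRpos.le
  obtain ⟨T₂, hT₂c, hT₂b, hT₂s⟩ := t_push hst hG.tr hk hN hC1 hC2 hf ⟨pJ, hpJ⟩ x (δ / 8 * R) r r₁ n3 n1 (by positivity)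
  have hkR : (1 : ℝ) ≤ k := by exact_mod_cast hk
  -- distances between the two packings
  have hdoJ : G.dist o (h J) = 2 * k * J := by
    have := hroad 0 J (Nat.zero_le _) le_rfl
    rw [h0] at this
    simpa using this
  have hsep : ∀ s ∈ T₁, ∀ t ∈ T₂, r₁ ≤ (netGraph G k N).dist s t := by
    intro s hs t ht
    have e1 := hslow s
    have e2 := hT₁b s hs
    have e3 := hT₂b t ht
    have e4 : (G.dist s.1 t.1 : ℝ) ≤ 2 * k * ((netGraph G k N).dist s t : ℝ) := by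
      exact_mod_cast dist_le_net hst hk hN s t
    have e5 : (G.dist pJ t.1 : ℝ) ≤ 2 * k * ((netGraph G k N).dist ⟨pJ, hpJ⟩ t : ℝ) := by
      exact_mod_cast dist_le_net hst hk hN ⟨pJ, hpJ⟩ t
    have e6 : (G.dist o (h J) : ℝ) ≤ G.dist o s.1 + G.dist s.1 t.1 + G.dist pJ t.1 + G.dist (h J) pJ := by
      have a1 : G.dist o (h J) ≤ G.dist o s.1 + G.dist s.1 (h J) := hcon.dist_triangle
      have a2 : G.dist s.1 (h J) ≤ G.dist s.1 t.1 + G.dist t.1 (h J) := hcon.dist_triangle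
      have a3 : G.dist t.1 (h J) ≤ G.dist t.1 pJ + G.dist pJ (h J) := hcon.dist_triangle
      rw [G.dist_comm (u := t.1) (v := pJ)] at a3
      rw [G.dist_comm (u := pJ) (v := h J)] at a3
      exact_mod_cast (by omega : G.dist o (h J) ≤ G.dist o s.1 + G.dist s.1 t.1 + G.dist pJ t.1 + G.dist (h J) pJ)
    have e7 : (G.dist (h J) pJ : ℝ) ≤ k := by exact_mod_cast hpJd.le
    have e8 : (G.dist o (h J) : ℝ) = 2 * k * J := by exact_mod_cast hdoJ
    -- the bound on d(o,s)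
    set a : ℝ := (G.dist o s.1 : ℝ) with ha
    have ha0 : 0 ≤ a := by positivity
    have e9 : a ≤ (1 - δ / 2) * (2 * k * (C * R + 5) + c₀ * k) := by
      have f1 : (1 + δ) * a ≤ 2 * k * (C * R + 5) + c₀ * k := by
        have : 2 * (k : ℝ) * ((netGraph G k N).dist ⟨o, ho⟩ s : ℝ) ≤ 2 * k * (C * R + 5) :=
          mul_le_mul_of_nonneg_left e2 (by positivity)
        linarith
      have f2 : (1 - δ / 2) * ((1 + δ) * a) ≤ (1 - δ / 2) * (2 * k * (C * R + 5) + c₀ * k) :=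
        mul_le_mul_of_nonneg_left f1 (by linarith)
      have f3 : a ≤ (1 - δ / 2) * ((1 + δ) * a) := by
        have : 0 ≤ δ / 2 * (1 - δ) * a := by
          have : 0 ≤ 1 - δ := by linarith
          positivity
        nlinarith
      linarith
    by_contra hlt
    push Not at hlt
    have e10 : ((netGraph G k N).dist s t : ℝ) ≤ r₁ := by exact_mod_cast hlt.le
    have e11 : 2 * (k : ℝ) * ((netGraph G k N).dist s t : ℝ) ≤ 2 * k * r₁ :=
      mul_le_mul_of_nonneg_left e10 (by positivity)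
    have e12 : 2 * (k : ℝ) * ((netGraph G k N).dist ⟨pJ, hpJ⟩ t : ℝ) ≤ 2 * k * (C * (δ / 8 * R) + 5) :=
      mul_le_mul_of_nonneg_left e3 (by positivity)
    have e13 : 2 * (k : ℝ) * J ≤ (1 - δ / 2) * (2 * k * (C * R + 5) + c₀ * k) + 2 * k * r₁ +
        2 * k * (C * (δ / 8 * R) + 5) + k := by
      rw [← e8]
      linarith
    have e14 : 2 * (k : ℝ) * J ≤ k * ((1 - δ / 2) * (2 * (C * R + 5) + c₀) + 2 * r₁ + 2 * (C * (δ / 8 * R) + 5) + 1) := by
      refine e13.trans (le_of_eq ?_)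
      ring
    have e15 : (k : ℝ) * (2 * J) ≤ k * ((1 - δ / 2) * (2 * (C * R + 5) + c₀) + 2 * r₁ + 2 * (C * (δ / 8 * R) + 5) + 1) := by
      refine le_trans (le_of_eq ?_) e14
      ring
    have e16 : 2 * (J : ℝ) ≤ (1 - δ / 2) * (2 * (C * R + 5) + c₀) + 2 * r₁ + 2 * (C * (δ / 8 * R) + 5) + 1 :=
      le_of_mul_le_mul_left e15 (by linarith)
    have e17 : (1 - δ / 2) * (2 * (C * R + 5) + c₀) = 2 * (C * R) + 10 + c₀ - δ * (C * R) - δ * 5 - δ / 2 * c₀ := by ring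
    have e18 : 0 ≤ δ / 2 * c₀ := by positivity
    rw [e17] at e16
    nlinarith
  have hdisj : Disjoint T₁ T₂ := by
    rw [Finset.disjoint_left]
    intro s hs ht
    have := hsep s hs s ht
    rw [SimpleGraph.dist_self] at this
    omega
  -- points near the road
  set P : N → Prop := fun z => ∃ i, i ≤ J ∧ G.dist z.1 (h i) < 2 * k * (r₁ + 1) with hP
  have hcount := dET_count T₁ T₂ hdisj P
  have hZ : ∀ T : Finset N, (∀ s ∈ T, ∀ t ∈ T, s ≠ t → r₁ ≤ (netGraph G k N).dist s t) →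
      (T.filter P).card * r₁ ≤ Qz * (J + r₁) := by
    intro T hT
    refine hz V G hG k J h N r₁ hk n2 hroad hN (T.filter P) ?_ ?_
    · intro s hs t ht hst'
      exact hT s (Finset.mem_filter.1 hs).1 t (Finset.mem_filter.1 ht).1 hst'
    · intro s hs
      exact (Finset.mem_filter.1 hs).2
  have hZ1 := hZ T₁ hT₁s
  have hZ2 := hZ T₂ hT₂s
  -- the final set
  set T : Finset N := (T₁ ∪ T₂).filter (fun z => ¬ P z) with hTdef
  have hTfar : ∀ z ∈ T, ∀ i, i ≤ J → 2 * k * (r₁ + 1) ≤ G.dist z.1 (h i) := by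
    intro z hz' i hi
    have := (Finset.mem_filter.1 hz').2
    rw [hP] at this
    push Not at this
    exact this i hi
  have hTN' : ∀ z ∈ T, z.1 ∈ N' := by
    intro z hz'
    refine hW.keep z.1 z.2 ?_
    intro i hi
    have := hTfar z hz' i hi
    have h5 : k ≤ 2 * k * (r₁ + 1) := by nlinarith
    omega
  have hTsep : ∀ s ∈ T, ∀ t ∈ T, s ≠ t → r₁ ≤ (netGraph G k N).dist s t := by
    intro s hs t ht hst'
    rcases Finset.mem_union.1 (Finset.mem_filter.1 hs).1 with a | a <;>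
      rcases Finset.mem_union.1 (Finset.mem_filter.1 ht).1 with b | b
    · exact hT₁s s a t b hst'
    · exact hsep s a t b
    · rw [SimpleGraph.dist_comm]; exact hsep t b s a
    · exact hT₂s s a t b hst'
  have hoN' : o ∈ N' := by
    have := hW.road 0 (Nat.zero_le _)
    rwa [h0] at this
  -- distance bound in the second net
  have hTb : ∀ (z : N) (hz' : z ∈ T), ((netGraph G k N').dist ⟨o, hoN'⟩ ⟨z.1, hTN' z hz'⟩ : ℝ) ≤ C * R + 5 + c := by
    intro z hz'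
    rcases Finset.mem_union.1 (Finset.mem_filter.1 hz').1 with a | a
    · have e1 := hc V G hG k J h N N' hk hroad hN hW 0 (Nat.zero_le _) (hW.road 0 (Nat.zero_le _)) ⟨o, ho⟩
        (by rw [h0]; simp; omega) z.1 z.2 (hTN' z hz')
      have e2 := hT₁b z a
      have e3 : (netGraph G k N').dist ⟨o, hoN'⟩ ⟨z.1, hTN' z hz'⟩ ≤ (netGraph G k N).dist ⟨o, ho⟩ z + c := by
        have : (⟨h 0, hW.road 0 (Nat.zero_le _)⟩ : N') = ⟨o, hoN'⟩ := Subtype.ext h0
        rw [this] at e1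
        exact e1
      have e4 : ((netGraph G k N').dist ⟨o, hoN'⟩ ⟨z.1, hTN' z hz'⟩ : ℝ) ≤ (netGraph G k N).dist ⟨o, ho⟩ z + c := by
        exact_mod_cast e3
      linarith
    · have e1 := hc V G hG k J h N N' hk hroad hN hW J le_rfl (hW.road J le_rfl) ⟨pJ, hpJ⟩
        (by rw [G.dist_comm]; exact hpJd) z.1 z.2 (hTN' z hz')
      have e2 := hT₂b z a
      obtain ⟨w, hw⟩ := dET_road hk hroad hW J le_rfl
      have e3 : (netGraph G k N').dist ⟨h 0, hW.road 0 (Nat.zero_le _)⟩ ⟨h J, hW.road J le_rfl⟩ ≤ J :=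
        (dist_le w).trans hw.le
      have e5 : (⟨h 0, hW.road 0 (Nat.zero_le _)⟩ : N') = ⟨o, hoN'⟩ := Subtype.ext h0
      rw [e5] at e3
      have e6 : (netGraph G k N').dist ⟨o, hoN'⟩ ⟨z.1, hTN' z hz'⟩ ≤
          (netGraph G k N').dist ⟨o, hoN'⟩ ⟨h J, hW.road J le_rfl⟩ +
          (netGraph G k N').dist ⟨h J, hW.road J le_rfl⟩ ⟨z.1, hTN' z hz'⟩ := hconN'.dist_triangle
      have e7 : (netGraph G k N').dist ⟨o, hoN'⟩ ⟨z.1, hTN' z hz'⟩ ≤
          J + ((netGraph G k N).dist ⟨pJ, hpJ⟩ z + c) := by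
        have e8 : (netGraph G k N').dist ⟨h J, hW.road J le_rfl⟩ ⟨z.1, hTN' z hz'⟩ ≤
          (netGraph G k N).dist ⟨pJ, hpJ⟩ z + c := e1
        omega
      have e9 : ((netGraph G k N').dist ⟨o, hoN'⟩ ⟨z.1, hTN' z hz'⟩ : ℝ) ≤
          J + ((netGraph G k N).dist ⟨pJ, hpJ⟩ z + c) := by exact_mod_cast e7
      nlinarith
  -- transport to the second net
  set T' : Finset N' := T.attach.map ⟨fun z => ⟨z.1.1, hTN' z.1 z.2⟩, by
    intro a b hab
    have : a.1.1 = b.1.1 := by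
      have h9 := congrArg (fun q : N' => q.1) hab
      exact h9
    exact Subtype.ext (Subtype.ext this)⟩ with hT'def
  have hT'card : T'.card = T.card := by rw [hT'def, Finset.card_map, Finset.card_attach]
  have hpull := t_pull hst hG.tr hk hW.net hC1 hC2 hf' ⟨o, hoN'⟩ x (C * R + 5 + c) r₁ (by
      have : 0 < (1 - τ) * r := mul_pos (by linarith) n11
      linarith) T' (by
      intro t ht
      rw [hT'def, Finset.mem_map] at ht
      obtain ⟨z, _, rfl⟩ := ht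
      exact hTb z.1 z.2) (by
      intro s hs t ht hst'
      rw [hT'def, Finset.mem_map] at hs ht
      obtain ⟨a, _, rfl⟩ := hs
      obtain ⟨b, _, rfl⟩ := ht
      have hab : a.1 ≠ b.1 := by
        rintro hab
        apply hst'
        have : a = b := Subtype.ext hab
        rw [this]
      exact h3 V G hst k J h N N' r₁ hk hN hW a.1.1 b.1.1 a.1.2 (hTN' a.1 a.2) b.1.2 (hTN' b.1 b.2)
        (hTfar a.1 a.2) (hTsep a.1 a.2 b.1 b.2 hab))
  rw [hT'card] at hpull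
  have hmono : pk G x (C * (C * R + 5 + c + 2) + C) (((r₁ : ℝ) - 2) / C - C) ≤ pk G x ((1 + τ) * R) ((1 - τ) * r) :=
    pk_mono hst x n7 n8
  have hfin : T.card ≤ pk G x ((1 + τ) * R) ((1 - τ) * r) := hpull.trans hmono
  have hfin' : (T.card : ℝ) ≤ pk G x ((1 + τ) * R) ((1 - τ) * r) := by exact_mod_cast hfin
  -- numbers
  have hr₁pos : (0 : ℝ) < r₁ := by linarith
  have hJR : (J : ℝ) ≤ 2 * R := by
    have : C * (1 - δ / 8) * R ≤ 2 * 1 * R := by
      apply mul_le_mul_of_nonneg_right _ hRpos.le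
      apply mul_le_mul hC2 (by linarith) (by linarith) (by norm_num)
    linarith
  have hbound : ∀ n : ℕ, n * r₁ ≤ Qz * (J + r₁) → (n : ℝ) ≤ 9 * Qz * (R / r) := by
    intro n hn
    have g1 : (n : ℝ) * r₁ ≤ Qz * (J + r₁) := by exact_mod_cast hn
    have g2 : (n : ℝ) ≤ Qz * (J / r₁ + 1) := by
      have : (Qz : ℝ) * (J / r₁ + 1) = Qz * (J + r₁) / r₁ := by
        field_simp
      rw [this, le_div_iff₀ hr₁pos]
      exact g1
    have g3 : (J : ℝ) / r₁ ≤ 8 * (R / r) := by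
      rw [div_le_iff₀ hr₁pos]
      have : 8 * (R / r) * (r / 4) ≤ 8 * (R / r) * r₁ := mul_le_mul_of_nonneg_left n4 (by positivity)
      have h5 : 8 * (R / r) * (r / 4) = 2 * R := by field_simp; ring
      linarith
    have g4 : 1 ≤ R / r := by rw [le_div_iff₀ n11]; linarith
    have g5 : (Qz : ℝ) * (J / r₁ + 1) ≤ Qz * (9 * (R / r)) := mul_le_mul_of_nonneg_left (by linarith) (by positivity)
    linarith
  have b1 := hbound _ hZ1
  have b2 := hbound _ hZ2
  have hcount' : (T₁.card : ℝ) + T₂.card ≤ T.card + (T₁.filter P).card + (T₂.filter P).card := by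
    exact_mod_cast hcount
  rw [hT₁c, hT₂c] at hcount'
  linarith

end Pool.Agent.NetGraphs.SL
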