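import Pool.Agent.NetGraphs.SL.Stmts

set_option autoImplicit false

namespace Pool.Agent.NetGraphs.SL

open SimpleGraph Pool.Agent.NetGraphs

/-! Proof. f: V -> N is a C-rough isometry with 1 <= C <= 2 (IsRoughIsometry, NetGraphs/Defs.lean). push: r1 natural with C r1 + C <= r, 1 <= r1. x1 with d_N(f x1, p) < C <= 2, so <= 1.
S attaining pk G x1 R r (pk_attained); f is injective on S: d(s,t) >= r and d(s,t) <= C d_N(f s,f t) + C give d_N(f s, f t) >= r1 >= 1. T = image of S. d_N(p, f s) <= 1 + d_N(f x1,f s) <=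
1 + C (d(x1,s) + C) <= C R + 5 (from C^{-1} d_N - C <= d). pk_eq moves x1 to x.
pull: for t in T choose X t with d_N(f (X t), t) < C, so <= 1. d(X t, X t') >= C^{-1} d_N(f X t,f X t') - C >= (r1-2)/C - C (> 0 by hypothesis, so X is injective on T),
d(X p, X t) <= C d_N(f X p, f X t) + C <= C (B+2) + C. le_pk and pk_eq. -/

theorem dEA_le_one {C : ℝ} (hC2 : C ≤ 2) {n : ℕ} (h : (n : ℝ) < C) : n ≤ 1 := by
  have h1 : (n : ℝ) < 2 := lt_of_lt_of_le h hC2
  have h2 : n < 2 := by exact_mod_cast h1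
  omega

theorem t_push {V : Type} {G : SimpleGraph V} (hG : Standing G) (ht : VertexTransitive G) {k : ℕ} (hk : 1 ≤ k) {N : Set V}
    (hN : IsNet G k N) {C : ℝ} (hC1 : 1 ≤ C) (hC2 : C ≤ 2) {f : V → N} (hf : IsRoughIsometry C G (netGraph G k N) f)
    (p : N) (x : V) (R r : ℝ) (r₁ : ℕ) (hr₁ : 1 ≤ r₁) (hr : C * r₁ + C ≤ r) (hR : 0 ≤ R) :
    ∃ T : Finset N, T.card = pk G x R r ∧ (∀ t ∈ T, ((netGraph G k N).dist p t : ℝ) ≤ C * R + 5) ∧
      ∀ s ∈ T, ∀ t ∈ T, s ≠ t → r₁ ≤ (netGraph G k N).dist s t := by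
  classical
  have hconn := net_conn hG hk hN
  have hCpos : (0 : ℝ) < C := lt_of_lt_of_le one_pos hC1
  obtain ⟨x₁, hx₁⟩ := hf.2 p
  have hx₁' := dEA_le_one hC2 hx₁
  obtain ⟨S, hScard, hS1, hS2⟩ := pk_attained hG x₁ R r
  have key : ∀ s ∈ S, ∀ t ∈ S, s ≠ t → r₁ ≤ (netGraph G k N).dist (f s) (f t) := by
    intro s hs t ht' hne
    have h1 := hS2 s hs t ht' hne
    have h2 := (hf.1 s t).2
    have h3 : C * (r₁ : ℝ) ≤ C * ((netGraph G k N).dist (f s) (f t) : ℝ) := by linarith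
    have h4 : (r₁ : ℝ) ≤ ((netGraph G k N).dist (f s) (f t) : ℝ) := le_of_mul_le_mul_left h3 hCpos
    exact_mod_cast h4
  refine ⟨S.image f, ?_, ?_, ?_⟩
  · rw [Finset.card_image_of_injOn, hScard, pk_eq hG ht x₁ x]
    intro s hs t ht' hst
    by_contra hne
    have h1 := key s hs t ht' hne
    rw [hst, SimpleGraph.dist_self] at h1
    omega
  · intro t ht'
    obtain ⟨s, hs, rfl⟩ := Finset.mem_image.mp ht'
    have h1 := hS1 s hs
    have h2 := (hf.1 x₁ s).1
    have h3 : (netGraph G k N).dist p (f s) ≤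
        (netGraph G k N).dist p (f x₁) + (netGraph G k N).dist (f x₁) (f s) := hconn.dist_triangle
    have h4 : ((netGraph G k N).dist p (f s) : ℝ) ≤
        ((netGraph G k N).dist p (f x₁) : ℝ) + ((netGraph G k N).dist (f x₁) (f s) : ℝ) := by exact_mod_cast h3
    have h5 : ((netGraph G k N).dist p (f x₁) : ℝ) ≤ 1 := by
      rw [SimpleGraph.dist_comm]
      exact_mod_cast hx₁'
    have h6 : C⁻¹ * ((netGraph G k N).dist (f x₁) (f s) : ℝ) ≤ R + C := by linarith
    have h7 : ((netGraph G k N).dist (f x₁) (f s) : ℝ) ≤ C * (R + C) := by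
      have h8 := mul_le_mul_of_nonneg_left h6 hCpos.le
      rwa [← mul_assoc, mul_inv_cancel₀ hCpos.ne', one_mul] at h8
    nlinarith
  · intro s hs t ht' hne
    obtain ⟨s', hs', rfl⟩ := Finset.mem_image.mp hs
    obtain ⟨t', ht'', rfl⟩ := Finset.mem_image.mp ht'
    exact key s' hs' t' ht'' (fun h => hne (by rw [h]))

theorem t_pull {V : Type} {G : SimpleGraph V} (hG : Standing G) (ht : VertexTransitive G) {k : ℕ} (hk : 1 ≤ k) {N : Set V}
    (hN : IsNet G k N) {C : ℝ} (hC1 : 1 ≤ C) (hC2 : C ≤ 2) {f : V → N} (hf : IsRoughIsometry C G (netGraph G k N) f)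
    (p : N) (x : V) (B : ℝ) (r₁ : ℕ) (hr : 0 < ((r₁ : ℝ) - 2) / C - C) (T : Finset N)
    (h1 : ∀ t ∈ T, ((netGraph G k N).dist p t : ℝ) ≤ B)
    (h2 : ∀ s ∈ T, ∀ t ∈ T, s ≠ t → r₁ ≤ (netGraph G k N).dist s t) :
    T.card ≤ pk G x (C * (B + 2) + C) (((r₁ : ℝ) - 2) / C - C) := by
  classical
  have hconn := net_conn hG hk hN
  have hCpos : (0 : ℝ) < C := lt_of_lt_of_le one_pos hC1
  choose X hX using hf.2
  have hX1 : ∀ y, (netGraph G k N).dist (f (X y)) y ≤ 1 := fun y => dEA_le_one hC2 (hX y)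
  have tri : ∀ a b : N, (netGraph G k N).dist a b ≤ (netGraph G k N).dist (f (X a)) (f (X b)) + 2 := by
    intro a b
    have h3 : (netGraph G k N).dist a b ≤
        (netGraph G k N).dist a (f (X a)) + (netGraph G k N).dist (f (X a)) b := hconn.dist_triangle
    have h4 : (netGraph G k N).dist (f (X a)) b ≤
        (netGraph G k N).dist (f (X a)) (f (X b)) + (netGraph G k N).dist (f (X b)) b := hconn.dist_triangle
    have h5 := hX1 a
    have h6 := hX1 b
    rw [SimpleGraph.dist_comm] at h5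
    omega
  have tri2 : ∀ a b : N, (netGraph G k N).dist (f (X a)) (f (X b)) ≤ (netGraph G k N).dist a b + 2 := by
    intro a b
    have h3 : (netGraph G k N).dist (f (X a)) (f (X b)) ≤
        (netGraph G k N).dist (f (X a)) a + (netGraph G k N).dist a (f (X b)) := hconn.dist_triangle
    have h4 : (netGraph G k N).dist a (f (X b)) ≤
        (netGraph G k N).dist a b + (netGraph G k N).dist b (f (X b)) := hconn.dist_triangle
    have h5 := hX1 a
    have h6 := hX1 b
    rw [SimpleGraph.dist_comm] at h6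
    omega
  have key : ∀ s ∈ T, ∀ t ∈ T, s ≠ t → ((r₁ : ℝ) - 2) / C - C ≤ (G.dist (X s) (X t) : ℝ) := by
    intro s hs t ht' hne
    have h3 := h2 s hs t ht' hne
    have h4 := tri s t
    have h5 : r₁ ≤ (netGraph G k N).dist (f (X s)) (f (X t)) + 2 := h3.trans h4
    have h6 : (r₁ : ℝ) ≤ ((netGraph G k N).dist (f (X s)) (f (X t)) : ℝ) + 2 := by exact_mod_cast h5
    have h7 := (hf.1 (X s) (X t)).1
    have h8 : C⁻¹ * ((r₁ : ℝ) - 2) ≤ C⁻¹ * ((netGraph G k N).dist (f (X s)) (f (X t)) : ℝ) :=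
      mul_le_mul_of_nonneg_left (by linarith) (inv_nonneg.mpr hCpos.le)
    rw [div_eq_inv_mul]
    linarith
  have hinj : Set.InjOn X T := by
    intro s hs t ht' hst
    by_contra hne
    have h1 := key s hs t ht' hne
    rw [hst, SimpleGraph.dist_self] at h1
    have h3 : ((r₁ : ℝ) - 2) / C - C ≤ 0 := by simpa using h1
    linarith
  rw [← Finset.card_image_of_injOn hinj, pk_eq hG ht x (X p)]
  refine le_pk hG _ _ _ _ ?_ ?_
  · intro s hs
    obtain ⟨t, ht', rfl⟩ := Finset.mem_image.mp hs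
    have h3 := h1 t ht'
    have h4 : ((netGraph G k N).dist (f (X p)) (f (X t)) : ℝ) ≤ ((netGraph G k N).dist p t : ℝ) + 2 := by
      exact_mod_cast tri2 p t
    have h5 := (hf.1 (X p) (X t)).2
    have h6 : C * ((netGraph G k N).dist (f (X p)) (f (X t)) : ℝ) ≤ C * (B + 2) :=
      mul_le_mul_of_nonneg_left (by linarith) hCpos.le
    linarith
  · intro s hs t ht' hne
    obtain ⟨s', hs', rfl⟩ := Finset.mem_image.mp hs
    obtain ⟨t', ht'', rfl⟩ := Finset.mem_image.mp ht'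
    exact key s' hs' t' ht'' (fun h => hne (by rw [h]))

end Pool.Agent.NetGraphs.SL
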