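import Pool.Agent.NetGraphs.Main

set_option autoImplicit false

/-!
# Sub scale invariance forces linear growth: definitions
-/

namespace Pool.Agent.NetGraphs.SL

open SimpleGraph Pool.Agent.NetGraphs

/-- vertices at distance at most `n` -/
def nb {V : Type} (G : SimpleGraph V) (v : V) (n : ℕ) : Set V := {u | G.dist v u ≤ n}

/-- the number of vertices at distance at most `n` -/
noncomputable def vol {V : Type} (G : SimpleGraph V) (v : V) (n : ℕ) : ℕ := (nb G v n).ncard

/-- standing hypotheses, vertex transitivity, doubling constant `D` -/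
structure Hyp {V : Type} (G : SimpleGraph V) (D : ℕ) : Prop where
  st : Standing G
  tr : VertexTransitive G
  one_le : 1 ≤ D
  dbl : ∀ v n, vol G v (2 * n + 1) ≤ D * vol G v n

/-- linear growth -/
def Lin {V : Type} (G : SimpleGraph V) : Prop := ∃ C : ℕ, ∀ v n, 1 ≤ n → vol G v n ≤ C * n

/-- restrictions to `F` of the automorphisms that send `y` to `z` -/
def RS {V : Type} (G : SimpleGraph V) (F : Finset V) (y z : V) : Set (F → V) :=
  {ρ | ∃ φ : G ≃g G, φ y = z ∧ ∀ x : F, φ x.1 = ρ x}

/-- the middle of the `j`-th wall about `o` -/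
def Mid {V : Type} (G : SimpleGraph V) (o : V) (k j : ℕ) : Set V :=
  {x | 6 * k * j + k ≤ G.dist o x ∧ G.dist o x < 6 * k * j + 3 * k}

/-- the loss of a hop from `x` to `y`: twice `k` times the least number of steps of length at most `2k`, minus the
radial progress -/
noncomputable def loss {V : Type} (G : SimpleGraph V) (o : V) (k : ℕ) (x y : V) : ℝ :=
  2 * (k : ℝ) * (⌈(G.dist x y : ℝ) / (2 * k)⌉₊ : ℝ) - ((G.dist o y : ℝ) - (G.dist o x : ℝ))

/-- points at distances exactly `2k` along a geodesic -/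
def Road {V : Type} (G : SimpleGraph V) (k I : ℕ) (h : ℕ → V) : Prop :=
  ∀ i j, i ≤ j → j ≤ I → G.dist (h i) (h j) = 2 * k * (j - i)

/-- `N'` is a `k`-net that contains the points of the road and agrees with `N` away from the road -/
structure HWNet {V : Type} (G : SimpleGraph V) (k I : ℕ) (h : ℕ → V) (N N' : Set V) : Prop where
  net : IsNet G k N'
  road : ∀ i, i ≤ I → h i ∈ N'
  keep : ∀ n ∈ N, (∀ i, i ≤ I → k ≤ G.dist n (h i)) → n ∈ N'
  near : ∀ n ∈ N', n ∉ N → ∃ i, i ≤ I ∧ G.dist n (h i) < 2 * k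

/-- there are `n` points at distance at most `R` from `x` and mutual distances at least `r` -/
def Pk {W : Type} (H : SimpleGraph W) (x : W) (R r : ℝ) (n : ℕ) : Prop :=
  ∃ S : Finset W, S.card = n ∧ (∀ s ∈ S, (H.dist x s : ℝ) ≤ R) ∧
    ∀ s ∈ S, ∀ t ∈ S, s ≠ t → r ≤ (H.dist s t : ℝ)

/-- packing number: the largest such `n` -/
noncomputable def pk {W : Type} (H : SimpleGraph W) (x : W) (R r : ℝ) : ℕ := sSup {n | Pk H x R r n}

end Pool.Agent.NetGraphs.SL
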