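import Pool.Agent.NetGraphs.SL.Stmts

set_option autoImplicit false

namespace Pool.Agent.NetGraphs.SL

open SimpleGraph Pool.Agent.NetGraphs

theorem hHW_road {V : Type} {G : SimpleGraph V} {k I : ℕ} {h : ℕ → V} (hr : Road G k I h) {i j : ℕ}
    (hi : i ≤ I) (hj : j ≤ I) (hne : h i ≠ h j) : k ≤ G.dist (h i) (h j) := by
  have hij : i ≠ j := fun e => hne (by rw [e])
  rcases lt_or_gt_of_ne hij with h1 | h1
  · rw [hr i j h1.le hj]
    have h2 : 1 ≤ j - i := by omega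
    have h3 : 2 * k * 1 ≤ 2 * k * (j - i) := Nat.mul_le_mul_left _ h2
    omega
  · rw [G.dist_comm, hr j i h1.le hi]
    have h2 : 1 ≤ i - j := by omega
    have h3 : 2 * k * 1 ≤ 2 * k * (i - j) := Nat.mul_le_mul_left _ h2
    omega

theorem t_HW : S_HW := by
  intro V G hG k I h N hk hr hN
  obtain ⟨A, hA⟩ : ∃ A : Set V, A = {x | ∃ i, i ≤ I ∧ x = h i} ∪
    {n | n ∈ N ∧ ∀ i, i ≤ I → k ≤ G.dist n (h i)} := ⟨_, rfl⟩
  have hsep : Separated G k A := by
    intro u hu v hv huv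
    rw [hA] at hu hv
    rcases hu with ⟨i, hi, rfl⟩ | ⟨hu1, hu2⟩ <;> rcases hv with ⟨j, hj, rfl⟩ | ⟨hv1, hv2⟩
    · exact hHW_road hr hi hj huv
    · rw [G.dist_comm]
      exact hv2 i hi
    · exact hu2 j hj
    · exact hN.prop u hu1 v hv1 huv
  obtain ⟨N', hAN, hN'⟩ := net_exists_ge G k hsep
  have hkeep : ∀ n ∈ N, (∀ i, i ≤ I → k ≤ G.dist n (h i)) → n ∈ N' := by
    intro n hn hn2
    apply hAN
    rw [hA]
    exact Or.inr ⟨hn, hn2⟩
  refine ⟨N', hN', ?_, hkeep, ?_⟩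
  · intro i hi
    apply hAN
    rw [hA]
    exact Or.inl ⟨i, hi, rfl⟩
  · intro n hn hnN
    obtain ⟨p, hp, hnp⟩ := net_cover hk hN n
    have hne : n ≠ p := fun e => hnN (by rw [e]; exact hp)
    have hpN' : p ∉ N' := by
      intro hpN'
      have := hN'.prop n hn p hpN' hne
      omega
    have h1 : ¬ ∀ i, i ≤ I → k ≤ G.dist p (h i) := fun h2 => hpN' (hkeep p hp h2)
    push Not at h1
    obtain ⟨i, hi, hi2⟩ := h1
    refine ⟨i, hi, ?_⟩
    have h3 := hG.connected.dist_triangle (u := n) (v := p) (w := h i)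
    omega

end Pool.Agent.NetGraphs.SL
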