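import Pool.Agent.NetGraphs.SL.Stmts

set_option autoImplicit false

namespace Pool.Agent.NetGraphs.SL

open SimpleGraph Pool.Agent.NetGraphs

theorem pKA_max {V : Type} (Bf : Finset V) (P : V → V → Prop) (hsymm : ∀ a b, P a b → P b a) :
    ∃ Y : Finset V, Y ⊆ Bf ∧ (∀ a ∈ Y, ∀ b ∈ Y, a ≠ b → P a b) ∧
      ∀ z ∈ Bf, z ∈ Y ∨ ∃ y ∈ Y, ¬ P z y := by
  classical
  obtain ⟨Q, hQ⟩ : ∃ Q : Finset V → Prop, ∀ Y, Q Y ↔ ∀ a ∈ Y, ∀ b ∈ Y, a ≠ b → P a b :=
    ⟨_, fun _ => Iff.rfl⟩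
  obtain ⟨Y, hY, hmax⟩ := Finset.exists_max_image (Bf.powerset.filter Q) Finset.card
    ⟨∅, by rw [Finset.mem_filter]; exact ⟨by simp, (hQ ∅).2 (by simp)⟩⟩
  rw [Finset.mem_filter, Finset.mem_powerset] at hY
  refine ⟨Y, hY.1, (hQ Y).1 hY.2, fun z hz => ?_⟩
  by_contra hc
  push Not at hc
  obtain ⟨h1, h2⟩ := hc
  have h3 := hmax (insert z Y) (by
    rw [Finset.mem_filter, Finset.mem_powerset]
    refine ⟨Finset.insert_subset hz hY.1, (hQ _).2 ?_⟩
    intro a ha b hb hab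
    rw [Finset.mem_insert] at ha hb
    rcases ha with rfl | ha
    · rcases hb with rfl | hb
      · exact absurd rfl hab
      · exact h2 b hb
    · rcases hb with rfl | hb
      · exact hsymm _ _ (h2 a ha)
      · exact (hQ Y).1 hY.2 a ha b hb hab)
  rw [Finset.card_insert_of_notMem h1] at h3
  omega

theorem pKA_dist_pos {V : Type} {G : SimpleGraph V} (hG : Standing G) {a b : V} (h : a ≠ b) :
    1 ≤ G.dist a b := (hG.connected.pos_dist_of_ne h)

theorem t_PK1 : S_PK1 := by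
  classical
  intro D e he he1
  obtain ⟨i, hi⟩ := pow_unbounded_of_one_lt (1 / e) (one_lt_two (α := ℝ))
  refine ⟨D ^ (i + 3), fun V G h x R r hR => ?_⟩
  have hG := h.st
  set u : ℝ := e * R with hu
  have hu0 : 0 < u := mul_pos he (by linarith)
  obtain ⟨Y, hYs, hYd, hYc⟩ := pKA_max (nb_finite hG x ⌊R⌋₊).toFinset
    (fun a b => u < (G.dist a b : ℝ)) (fun a b hab => by rw [G.dist_comm]; exact hab)
  have hYR : ∀ y ∈ Y, G.dist x y ≤ ⌊R⌋₊ := by
    intro y hy
    have := hYs hy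
    rw [Set.Finite.mem_toFinset] at this
    exact this
  -- the number of points
  have hYcard : Y.card ≤ D ^ (i + 3) := by
    apply sep_card_le h (s := max 1 ⌈u⌉₊) (i := i) (le_max_left _ _) x
    · intro a ha b hb hab
      refine max_le (pKA_dist_pos hG hab) ?_
      rw [Nat.ceil_le]
      exact (hYd a ha b hb hab).le
    · intro a ha
      have h1 : (G.dist x a : ℝ) ≤ R :=
        (Nat.cast_le.2 (hYR a ha)).trans (Nat.floor_le (by linarith))
      have h2 : u ≤ ((max 1 ⌈u⌉₊ : ℕ) : ℝ) :=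
        (Nat.le_ceil u).trans (by exact_mod_cast le_max_right _ _)
      have h3 : R ≤ 2 ^ i * u := by
        have h4 : 1 ≤ 2 ^ i * e := by
          rw [div_lt_iff₀ he] at hi
          exact hi.le
        calc R = 1 * R := (one_mul R).symm
          _ ≤ 2 ^ i * e * R := mul_le_mul_of_nonneg_right h4 (by linarith)
          _ = 2 ^ i * u := by rw [hu]; ring
      have h5 : (G.dist x a : ℝ) ≤ ((2 ^ i * max 1 ⌈u⌉₊ : ℕ) : ℝ) := by
        push_cast
        refine h1.trans (h3.trans ?_)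
        have := mul_le_mul_of_nonneg_left h2 (show (0 : ℝ) ≤ 2 ^ i by positivity)
        push_cast at this
        exact this
      exact_mod_cast h5
  obtain ⟨S, hSc, hSR, hSr⟩ := pk_attained hG x R r
  have hcov : S ⊆ Y.biUnion (fun y => S.filter fun s => (G.dist y s : ℝ) ≤ u) := by
    intro s hs
    rw [Finset.mem_biUnion]
    have h1 : s ∈ (nb_finite hG x ⌊R⌋₊).toFinset := by
      rw [Set.Finite.mem_toFinset]
      exact Nat.le_floor (hSR s hs)
    rcases hYc s h1 with h2 | ⟨y, hy, h2⟩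
    · refine ⟨s, h2, ?_⟩
      rw [Finset.mem_filter]
      refine ⟨hs, ?_⟩
      rw [SimpleGraph.dist_self]
      simpa using hu0.le
    · refine ⟨y, hy, ?_⟩
      rw [Finset.mem_filter]
      refine ⟨hs, ?_⟩
      rw [G.dist_comm]
      exact not_lt.1 h2
  rw [← hSc]
  calc S.card ≤ (Y.biUnion (fun y => S.filter fun s => (G.dist y s : ℝ) ≤ u)).card :=
        Finset.card_le_card hcov
    _ ≤ ∑ y ∈ Y, (S.filter fun s => (G.dist y s : ℝ) ≤ u).card := Finset.card_biUnion_le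
    _ ≤ ∑ _y ∈ Y, pk G x u r := by
        apply Finset.sum_le_sum
        intro y _
        rw [pk_eq hG h.tr x y u r]
        apply le_pk hG y u r
        · intro s hs
          exact (Finset.mem_filter.1 hs).2
        · intro s hs t ht hst
          exact hSr s (Finset.mem_filter.1 hs).1 t (Finset.mem_filter.1 ht).1 hst
    _ = Y.card * pk G x u r := by rw [Finset.sum_const, smul_eq_mul]
    _ ≤ D ^ (i + 3) * pk G x u r := Nat.mul_le_mul_right _ hYcard

theorem t_PK2 : S_PK2 := by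
  classical
  intro D
  refine ⟨D ^ 5, fun V G h x R r hr hrR => ?_⟩
  have hG := h.st
  obtain ⟨S, hSc, hSR, hSr⟩ := pk_attained hG x (2 * R) (r / 2)
  rw [← hSc]
  set s : ℕ := ⌈r / 2⌉₊ with hs
  have hs1 : 1 ≤ s := by
    rw [hs, Nat.one_le_ceil_iff]
    linarith
  have hcnt := sep_count hG h.tr (s := s) (R := ⌊2 * R⌋₊) hs1 (T := S) x
    (fun a ha b hb hab => Nat.ceil_le.2 (hSr a ha b hb hab))
    (fun a ha => Nat.le_floor (hSR a ha))
  obtain ⟨Y, hYs, hYd, hYc⟩ := pKA_max (nb_finite hG x ⌊R⌋₊).toFinset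
    (fun a b => r ≤ (G.dist a b : ℝ)) (fun a b hab => by rw [G.dist_comm]; exact hab)
  have hYpk : Y.card ≤ pk G x R r := by
    apply le_pk hG x R r
    · intro y hy
      have h1 := hYs hy
      rw [Set.Finite.mem_toFinset] at h1
      have h2 : G.dist x y ≤ ⌊R⌋₊ := h1
      exact (Nat.cast_le.2 h2).trans (Nat.floor_le (by linarith))
    · exact hYd
  have hvolR : vol G x ⌊R⌋₊ ≤ Y.card * vol G x ⌈r⌉₊ := by
    have hcov : (nb_finite hG x ⌊R⌋₊).toFinset ⊆
        Y.biUnion (fun y => (nb_finite hG y ⌈r⌉₊).toFinset) := by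
      intro z hz
      rw [Finset.mem_biUnion]
      rcases hYc z hz with h2 | ⟨y, hy, h2⟩
      · refine ⟨z, h2, ?_⟩
        rw [Set.Finite.mem_toFinset]
        show G.dist z z ≤ _
        rw [SimpleGraph.dist_self]
        exact Nat.zero_le _
      · refine ⟨y, hy, ?_⟩
        rw [Set.Finite.mem_toFinset]
        show G.dist y z ≤ _
        have h3 : (G.dist z y : ℝ) ≤ (⌈r⌉₊ : ℝ) := (not_le.1 h2).le.trans (Nat.le_ceil r)
        rw [G.dist_comm]
        exact_mod_cast h3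
    calc vol G x ⌊R⌋₊ = (nb_finite hG x ⌊R⌋₊).toFinset.card :=
          Set.ncard_eq_toFinset_card _ _
      _ ≤ (Y.biUnion (fun y => (nb_finite hG y ⌈r⌉₊).toFinset)).card := Finset.card_le_card hcov
      _ ≤ ∑ y ∈ Y, ((nb_finite hG y ⌈r⌉₊).toFinset).card := Finset.card_biUnion_le
      _ = ∑ _y ∈ Y, vol G x ⌈r⌉₊ := by
          apply Finset.sum_congr rfl
          intro y _
          rw [vol_eq hG h.tr x y]
          exact (Set.ncard_eq_toFinset_card _ _).symm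
      _ = Y.card * vol G x ⌈r⌉₊ := by rw [Finset.sum_const, smul_eq_mul]
  set v : ℕ := vol G x ((s - 1) / 2) with hv
  have hv1 : 1 ≤ v := vol_pos hG x _
  have hceil : ⌈r⌉₊ ≤ 2 * s := by
    rw [Nat.ceil_le]
    push_cast
    have := Nat.le_ceil (r / 2)
    rw [← hs] at this
    linarith
  have hvr : vol G x ⌈r⌉₊ ≤ D ^ 3 * v := by
    calc vol G x ⌈r⌉₊ ≤ vol G x (2 * s) := vol_mono hG x hceil
      _ ≤ D * vol G x s := vol_double h x s
      _ ≤ D * (D ^ 2 * v) := Nat.mul_le_mul_left _ (vol_half h x s)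
      _ = D ^ 3 * v := by ring
  have hR2 : 2 ≤ ⌊R⌋₊ := by
    apply Nat.le_floor
    push_cast
    linarith
  have hbig : ⌊2 * R⌋₊ + (s - 1) / 2 ≤ 2 ^ 2 * ⌊R⌋₊ := by
    have h1 : ⌊2 * R⌋₊ < 2 * ⌊R⌋₊ + 2 := by
      have h2 : (⌊2 * R⌋₊ : ℝ) ≤ 2 * R := Nat.floor_le (by linarith)
      have h3 := Nat.lt_floor_add_one R
      have h4 : (⌊2 * R⌋₊ : ℝ) < ((2 * ⌊R⌋₊ + 2 : ℕ) : ℝ) := by
        push_cast
        linarith
      exact_mod_cast h4
    have h5 : s ≤ ⌊R⌋₊ + 1 := by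
      rw [hs, Nat.ceil_le]
      have h3 := Nat.lt_floor_add_one R
      push_cast
      linarith
    omega
  have hvb : vol G x (⌊2 * R⌋₊ + (s - 1) / 2) ≤ D ^ 2 * vol G x ⌊R⌋₊ :=
    (vol_mono hG x hbig).trans (vol_pow h x _ 2)
  have hfin : S.card * v ≤ D ^ 5 * pk G x R r * v := by
    calc S.card * v ≤ vol G x (⌊2 * R⌋₊ + (s - 1) / 2) := hcnt
      _ ≤ D ^ 2 * vol G x ⌊R⌋₊ := hvb
      _ ≤ D ^ 2 * (Y.card * vol G x ⌈r⌉₊) := Nat.mul_le_mul_left _ hvolR
      _ ≤ D ^ 2 * (pk G x R r * (D ^ 3 * v)) :=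
          Nat.mul_le_mul_left _ (Nat.mul_le_mul hYpk hvr)
      _ = D ^ 5 * pk G x R r * v := by ring
  exact Nat.le_of_mul_le_mul_right hfin hv1

end Pool.Agent.NetGraphs.SL
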