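import Pool.Agent.NetGraphs.SL.Stmts

set_option autoImplicit false

namespace Pool.Agent.NetGraphs.SL

open SimpleGraph Pool.Agent.NetGraphs

/-! Proof. Let m = ceil r. For n natural: vol(n) <= pk(x,n,r) vol(m): take a maximal (cardinality) subset Y of B(x,n) with mutual distances >= r, every point of B(x,n) is within distance <= m of Y.
Not Lin: for every C there are v, n >= 1 with C n < vol v n = vol x n. Apply it to C >= max (A' ...) where A' is a natural number >= |A| vol(m) / r, and C >= vol x (ceil |ρ|): then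
n > ρ (if n <= ceil|ρ| then vol n <= vol(ceil |ρ|) <= C <= C n, contradiction). R = n: pk(x,n,r) >= vol(n)/vol(m) >= C n/vol(m) >= A n/r.
The point x is arbitrary: vol_eq, pk_eq. -/

theorem pKB_cover {V : Type} {G : SimpleGraph V} {D : ℕ} (h : Hyp G D) (x : V) (n : ℕ) (r : ℝ) :
    vol G x n ≤ pk G x n r * vol G x ⌈r⌉₊ := by
  classical
  obtain ⟨S, hS, h1, h2⟩ := pk_attained h.st x (n : ℝ) r
  have hcov : nb G x n ⊆ ⋃ s ∈ S, nb G s ⌈r⌉₊ := by
    intro u hu
    by_contra hcon
    have hcon' : ∀ s ∈ S, ⌈r⌉₊ < G.dist s u := by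
      intro s hs
      by_contra h3
      apply hcon
      simp only [Set.mem_iUnion]
      exact ⟨s, hs, not_lt.1 h3⟩
    have hfar : ∀ s ∈ S, r ≤ (G.dist s u : ℝ) := by
      intro s hs
      have h4 : (⌈r⌉₊ : ℝ) < (G.dist s u : ℝ) := by exact_mod_cast hcon' s hs
      exact (Nat.le_ceil r).trans h4.le
    have hu0 : u ∉ S := by
      intro h5
      have h6 := hcon' u h5
      rw [SimpleGraph.dist_self] at h6
      exact Nat.not_lt_zero _ h6
    have h7 : (insert u S).card ≤ pk G x n r := by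
      refine le_pk h.st x n r (insert u S) ?_ ?_
      · intro s hs
        rcases Finset.mem_insert.1 hs with rfl | hs
        · exact_mod_cast hu
        · exact h1 s hs
      · intro s hs t ht hst
        rcases Finset.mem_insert.1 hs with e1 | e1
        · rcases Finset.mem_insert.1 ht with e2 | e2
          · exact absurd (e1.trans e2.symm) hst
          · rw [e1, SimpleGraph.dist_comm]
            exact hfar t e2
        · rcases Finset.mem_insert.1 ht with e2 | e2
          · rw [e2]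
            exact hfar s e1
          · exact h2 s e1 t e2 hst
    rw [Finset.card_insert_of_notMem hu0, hS] at h7
    omega
  let B : V → Finset V := fun s => (nb_finite h.st s ⌈r⌉₊).toFinset
  have hB : ∀ s, (B s).card = vol G x ⌈r⌉₊ := by
    intro s
    rw [vol_eq h.st h.tr x s]
    exact (Set.ncard_eq_toFinset_card _ (nb_finite h.st s ⌈r⌉₊)).symm
  have hsub : (nb_finite h.st x n).toFinset ⊆ S.biUnion B := by
    intro u hu
    have hu' : u ∈ nb G x n := (Set.Finite.mem_toFinset _).1 hu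
    have h3 := hcov hu'
    simp only [Set.mem_iUnion] at h3
    obtain ⟨s, hs, h4⟩ := h3
    exact Finset.mem_biUnion.2 ⟨s, hs, (Set.Finite.mem_toFinset _).2 h4⟩
  calc vol G x n = (nb_finite h.st x n).toFinset.card :=
        Set.ncard_eq_toFinset_card _ (nb_finite h.st x n)
    _ ≤ (S.biUnion B).card := Finset.card_le_card hsub
    _ ≤ ∑ s ∈ S, (B s).card := Finset.card_biUnion_le
    _ = ∑ s ∈ S, vol G x ⌈r⌉₊ := Finset.sum_congr rfl (fun s _ => hB s)
    _ = pk G x n r * vol G x ⌈r⌉₊ := by rw [Finset.sum_const, smul_eq_mul, hS]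

theorem t_PK3 : S_PK3 := by
  intro D V G h hL A r ρ hr
  have hr0 : 0 < r := lt_of_lt_of_le one_pos hr
  have := h.st.infinite
  obtain ⟨x0⟩ : Nonempty V := inferInstance
  set m := ⌈r⌉₊ with hm
  set C : ℕ := ⌈|A| * vol G x0 m / r⌉₊ + vol G x0 ⌈|ρ|⌉₊ with hC
  have h1 : ∃ v n, 1 ≤ n ∧ C * n < vol G v n := by
    by_contra hcon
    push Not at hcon
    exact hL ⟨C, hcon⟩
  obtain ⟨v, n, hn, hlt⟩ := h1
  rw [vol_eq h.st h.tr v x0] at hlt
  have hnr : (1 : ℝ) ≤ n := by exact_mod_cast hn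
  refine ⟨n, ?_, fun x => ?_⟩
  · by_contra hcon
    rw [not_le] at hcon
    have h2 : n ≤ ⌈|ρ|⌉₊ := by
      have h3 : (n : ℝ) ≤ (⌈|ρ|⌉₊ : ℝ) := hcon.le.trans ((le_abs_self ρ).trans (Nat.le_ceil _))
      exact_mod_cast h3
    have h4 := vol_mono h.st x0 h2
    have h5 : vol G x0 ⌈|ρ|⌉₊ ≤ C * n := by
      calc vol G x0 ⌈|ρ|⌉₊ ≤ C := Nat.le_add_left _ _
        _ ≤ C * n := Nat.le_mul_of_pos_right _ hn
    omega
  · rw [pk_eq h.st h.tr x x0]
    have h2 := pKB_cover h x0 n r
    have h3 : (C : ℝ) * n < (pk G x0 n r : ℝ) * vol G x0 m := by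
      exact_mod_cast lt_of_lt_of_le hlt h2
    have hvm : (0 : ℝ) < vol G x0 m := by
      have := vol_pos h.st x0 m
      exact_mod_cast this
    have h4 : |A| * vol G x0 m / r ≤ (C : ℝ) := by
      have h5 := Nat.le_ceil (|A| * vol G x0 m / r)
      have h6 : ((⌈|A| * vol G x0 m / r⌉₊ : ℕ) : ℝ) ≤ (C : ℝ) := by
        exact_mod_cast Nat.le_add_right _ _
      exact h5.trans h6
    have h5 : (|A| * (n / r)) * vol G x0 m < (pk G x0 n r : ℝ) * vol G x0 m := by
      calc (|A| * (n / r)) * vol G x0 m = (|A| * vol G x0 m / r) * n := by ring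
        _ ≤ (C : ℝ) * n := mul_le_mul_of_nonneg_right h4 (by linarith)
        _ < _ := h3
    have h6 : |A| * (n / r) < (pk G x0 n r : ℝ) := lt_of_mul_lt_mul_right h5 hvm.le
    have h7 : A * (n / r) ≤ |A| * (n / r) :=
      mul_le_mul_of_nonneg_right (le_abs_self A) (by positivity)
    linarith

end Pool.Agent.NetGraphs.SL
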