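import Pool.Agent.NetGraphs.SL.Stmts

set_option autoImplicit false

namespace Pool.Agent.NetGraphs.SL

open SimpleGraph Pool.Agent.NetGraphs

/-! Proof. (5.4) of the paper. M1 from S_PK1 D e (may be replaced by max M1 1), M2 from S_PK2 D. sigma = 1/(4 M1). J >= 1 natural with (1+sigma)^J >= M2+1. tau = 1/(4J) (<= 1/4). Then
(1+tau)^J <= exp(1/4) <= 2 and (1-tau)^J >= 1-J tau = 3/4 >= 1/2 (Bernoulli: one_add_mul_le_pow). Given rho: r0 = 2 (|rho|+2), A = 4Q/sigma+4, R0 from S_PK3 (A, r0, bound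
(|rho|+1) r0 + ..) so R0 >= (|rho|+1) r0. F(j)=pk((1+tau)^j R0,(1-tau)^j r0) >= pk(R0,r0) (pk_mono) >= A R0/r0 > 0. If F(j+1) > (1+sigma)F(j) for all j<J, then F(J) >= (1+sigma)^J F(0)
>= (M2+1) F(0) > M2 F(0) >= pk(2R0,r0/2) >= F(J) (pk_mono, S_PK2): contradiction. So F(j+1) <= (1+sigma)F(j) for some j<J. R=(1+tau)^j R0 in [R0,2R0], r=(1-tau)^j r0 in [r0/2,r0].
rho <= r0/2 <= r; rho r <= |rho| r0 <= R0 <= R. Q R/r <= 4 Q R0/r0 <= sigma A R0/r0 <= sigma F(j). pk(eR,r) >= F(j)/M1 = 4 sigma F(j) (S_PK1). So left side <=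
(1+sigma)F(j)+sigma F(j) < F(j)+4 sigma F(j). All pk are independent of x (pk_eq). -/

/-- powers of numbers close to one -/
theorem sSC_pow {J : ℕ} (hJ : 1 ≤ J) {τ : ℝ} (hτ : τ = 1 / (4 * (J : ℝ))) {j : ℕ} (hj : j ≤ J) :
    3 / 4 ≤ (1 - τ) ^ j ∧ (1 - τ) ^ j ≤ 1 ∧ 1 ≤ (1 + τ) ^ j ∧ (1 + τ) ^ j ≤ 2 := by
  have hJr : (1 : ℝ) ≤ J := by exact_mod_cast hJ
  have hτ0 : 0 < τ := by rw [hτ]; positivity
  have hτJ : τ * J = 1 / 4 := by rw [hτ]; field_simp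
  have hτ4 : τ ≤ 1 / 4 := by nlinarith
  have hjr : (j : ℝ) ≤ J := by exact_mod_cast hj
  have h1 : 3 / 4 ≤ (1 - τ) ^ j := by
    have h := one_add_mul_le_pow (a := -τ) (by linarith) j
    have h' : (1 + -τ) ^ j = (1 - τ) ^ j := by rw [← sub_eq_add_neg]
    rw [h'] at h
    have : τ * j ≤ τ * J := mul_le_mul_of_nonneg_left hjr hτ0.le
    nlinarith
  have h2 : (1 - τ) ^ j ≤ 1 := pow_le_one₀ (by linarith) (by linarith)
  have h3 : 1 ≤ (1 + τ) ^ j := one_le_pow₀ (by linarith)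
  refine ⟨h1, h2, h3, ?_⟩
  have h4 : (1 + τ) ^ j * (1 - τ) ^ j ≤ 1 := by
    rw [← mul_pow]
    exact pow_le_one₀ (by nlinarith) (by nlinarith)
  nlinarith

theorem t_SCALE (h1 : S_PK1) (h2 : S_PK2) (h3 : S_PK3) : S_SCALE := by
  intro D e Q he he1 hQ
  obtain ⟨M1, hM1⟩ := h1 D e he he1
  obtain ⟨M2, hM2⟩ := h2 D
  obtain ⟨m1, hm1⟩ : ∃ m1 : ℝ, m1 = max (M1 : ℝ) 1 := ⟨_, rfl⟩
  have hm1one : 1 ≤ m1 := by rw [hm1]; exact le_max_right _ _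
  have hm1M : (M1 : ℝ) ≤ m1 := by rw [hm1]; exact le_max_left _ _
  obtain ⟨σ, hσ⟩ : ∃ σ : ℝ, σ = 1 / (4 * m1) := ⟨_, rfl⟩
  have hσ0 : 0 < σ := by rw [hσ]; positivity
  have hσm : 4 * σ * m1 = 1 := by rw [hσ]; field_simp
  obtain ⟨n, hn⟩ := pow_unbounded_of_one_lt ((M2 : ℝ) + 1) (show 1 < 1 + σ by linarith)
  obtain ⟨J, hJn⟩ : ∃ J : ℕ, J = n + 1 := ⟨_, rfl⟩
  have hJ1 : 1 ≤ J := by omega
  have hJpow : (M2 : ℝ) + 1 < (1 + σ) ^ J := by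
    refine hn.trans_le ?_
    exact pow_le_pow_right₀ (by linarith) (by omega)
  obtain ⟨τ, hτ⟩ : ∃ τ : ℝ, τ = 1 / (4 * (J : ℝ)) := ⟨_, rfl⟩
  have hJr : (1 : ℝ) ≤ J := by exact_mod_cast hJ1
  have hτ0 : 0 < τ := by rw [hτ]; positivity
  have hτJ : τ * J = 1 / 4 := by rw [hτ]; field_simp
  have hτ4 : τ ≤ 1 / 4 := by nlinarith
  refine ⟨τ, hτ0, hτ4, ?_⟩
  intro V G hH hlin ρ
  obtain ⟨x₀⟩ := hH.st.connected.nonempty
  obtain ⟨r0, hr0⟩ : ∃ r0 : ℝ, r0 = 2 * (|ρ| + 2) := ⟨_, rfl⟩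
  obtain ⟨A, hA⟩ : ∃ A : ℝ, A = 4 * Q / σ + 4 := ⟨_, rfl⟩
  have habs : 0 ≤ |ρ| := abs_nonneg ρ
  have hr04 : 4 ≤ r0 := by rw [hr0]; linarith
  have hr0pos : 0 < r0 := by linarith
  have hA4 : 4 ≤ A := by
    rw [hA]
    have : 0 ≤ 4 * Q / σ := by positivity
    linarith
  have hσA : 4 * Q ≤ σ * A := by
    rw [hA]
    have : σ * (4 * Q / σ + 4) = 4 * Q + 4 * σ := by field_simp
    rw [this]
    linarith
  obtain ⟨R0, hR0, hR0pk⟩ := h3 D V G hH hlin A r0 ((|ρ| + 1) * r0) (by linarith)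
  have hR0r : r0 ≤ R0 := by nlinarith
  have hR0pos : 0 < R0 := by linarith
  obtain ⟨F, hF⟩ : ∃ F : ℕ → ℝ, ∀ j, F j = pk G x₀ ((1 + τ) ^ j * R0) ((1 - τ) ^ j * r0) :=
    ⟨_, fun _ => rfl⟩
  have hquot : 0 < R0 / r0 := div_pos hR0pos hr0pos
  have hF0 : A * (R0 / r0) ≤ F 0 := by
    rw [hF, pow_zero, pow_zero, one_mul, one_mul]
    exact hR0pk x₀
  have hF0pos : 0 < F 0 := lt_of_lt_of_le (by positivity) hF0
  have hF0le : ∀ j, j ≤ J → F 0 ≤ F j := by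
    intro j hj
    obtain ⟨-, p2, p3, -⟩ := sSC_pow hJ1 hτ hj
    rw [hF, hF, pow_zero, pow_zero, one_mul, one_mul]
    exact_mod_cast pk_mono hH.st x₀ (by nlinarith) (by nlinarith)
  have hex : ∃ j, j < J ∧ F (j + 1) ≤ (1 + σ) * F j := by
    by_contra hcon
    push Not at hcon
    have hind : ∀ i, i ≤ J → (1 + σ) ^ i * F 0 ≤ F i := by
      intro i
      induction i with
      | zero => intro _; simp
      | succ i ih =>
        intro hi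
        have h5 := ih (by omega)
        have h6 := hcon i (by omega)
        have h7 : (1 + σ) ^ (i + 1) * F 0 = (1 + σ) * ((1 + σ) ^ i * F 0) := by ring
        rw [h7]
        have h8 : (1 + σ) * ((1 + σ) ^ i * F 0) ≤ (1 + σ) * F i :=
          mul_le_mul_of_nonneg_left h5 (by linarith)
        linarith
    have h5 := hind J le_rfl
    have h6 : F J ≤ M2 * F 0 := by
      obtain ⟨p1, -, -, p4⟩ := sSC_pow hJ1 hτ (le_refl J)
      have h7 : pk G x₀ ((1 + τ) ^ J * R0) ((1 - τ) ^ J * r0) ≤ pk G x₀ (2 * R0) (r0 / 2) :=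
        pk_mono hH.st x₀ (by nlinarith) (by nlinarith)
      have h8 := hM2 V G hH x₀ R0 r0 (by linarith) hR0r
      have h9 := h7.trans h8
      rw [hF, hF, pow_zero, pow_zero, one_mul, one_mul]
      exact_mod_cast h9
    nlinarith
  obtain ⟨j, hj, hjF⟩ := hex
  obtain ⟨p1, p2, p3, p4⟩ := sSC_pow hJ1 hτ hj.le
  have hFj := hF0le j hj.le
  obtain ⟨R, hR⟩ : ∃ R : ℝ, R = (1 + τ) ^ j * R0 := ⟨_, rfl⟩
  obtain ⟨r, hr⟩ : ∃ r : ℝ, r = (1 - τ) ^ j * r0 := ⟨_, rfl⟩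
  have hRlow : R0 ≤ R := by rw [hR]; nlinarith
  have hRup : R ≤ 2 * R0 := by rw [hR]; nlinarith
  have hrlow : 3 / 4 * r0 ≤ r := by rw [hr]; nlinarith
  have hrup : r ≤ r0 := by rw [hr]; nlinarith
  have hrpos : 0 < r := by linarith
  refine ⟨R, r, ?_, ?_, ?_⟩
  · have := le_abs_self ρ
    rw [hr0] at hrlow
    linarith
  · have h5 : ρ * r ≤ |ρ| * r := mul_le_mul_of_nonneg_right (le_abs_self ρ) hrpos.le
    have h6 : |ρ| * r ≤ |ρ| * r0 := mul_le_mul_of_nonneg_left hrup habs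
    nlinarith
  · intro x
    rw [pk_eq hH.st hH.tr x x₀, pk_eq hH.st hH.tr x x₀ R, pk_eq hH.st hH.tr x x₀ (e * R)]
    have e1 : (pk G x₀ ((1 + τ) * R) ((1 - τ) * r) : ℝ) = F (j + 1) := by
      rw [hF, hR, hr, ← mul_assoc, ← mul_assoc, ← pow_succ', ← pow_succ']
    have e2 : (pk G x₀ R r : ℝ) = F j := by rw [hF, hR, hr]
    have e3 : F j ≤ m1 * (pk G x₀ (e * R) r : ℝ) := by
      have h5 := hM1 V G hH x₀ R r (by linarith)
      have h6 : (pk G x₀ R r : ℝ) ≤ M1 * (pk G x₀ (e * R) r : ℝ) := by exact_mod_cast h5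
      rw [← e2]
      refine h6.trans ?_
      exact mul_le_mul_of_nonneg_right hm1M (Nat.cast_nonneg _)
    have e4 : 4 * σ * F j ≤ (pk G x₀ (e * R) r : ℝ) := by
      have h5 : 4 * σ * F j ≤ 4 * σ * (m1 * (pk G x₀ (e * R) r : ℝ)) :=
        mul_le_mul_of_nonneg_left e3 (by linarith)
      have h6 : 4 * σ * (m1 * (pk G x₀ (e * R) r : ℝ)) = (4 * σ * m1) * (pk G x₀ (e * R) r : ℝ) := by
        ring
      rw [h6, hσm, one_mul] at h5
      exact h5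
    have e5 : R / r ≤ 4 * (R0 / r0) := by
      rw [div_le_iff₀ hrpos]
      have h5 : R0 = (R0 / r0) * r0 := by field_simp
      have h6 : 4 * (R0 / r0) * (3 / 4 * r0) ≤ 4 * (R0 / r0) * r :=
        mul_le_mul_of_nonneg_left hrlow (by positivity)
      nlinarith
    have e6 : Q * (R / r) ≤ σ * F j := by
      have h5 : Q * (R / r) ≤ Q * (4 * (R0 / r0)) := mul_le_mul_of_nonneg_left e5 hQ
      have h6 : 4 * Q * (R0 / r0) ≤ σ * A * (R0 / r0) := mul_le_mul_of_nonneg_right hσA hquot.le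
      have h7 : σ * (A * (R0 / r0)) ≤ σ * F j :=
        mul_le_mul_of_nonneg_left (hF0.trans hFj) hσ0.le
      nlinarith
    have hFpos : 0 < F j := lt_of_lt_of_le hF0pos hFj
    have e7 : 0 < σ * F j := mul_pos hσ0 hFpos
    rw [e1, e2]
    nlinarith

end Pool.Agent.NetGraphs.SL

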