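import Pool.Agent.NetGraphs.SL.Stmts

set_option autoImplicit false

namespace Pool.Agent.NetGraphs.SL

open SimpleGraph Pool.Agent.NetGraphs

theorem sEQ_mid_finite {V : Type} {G : SimpleGraph V} (hG : Standing G) (o : V) (k j : ℕ) :
    (Mid G o k j).Finite := by
  refine (nb_finite hG o (6 * k * j + 3 * k)).subset ?_
  intro x hx
  exact hx.2.le

/-- the part of a net in the middle of a wall -/
theorem sEQ_first {V : Type} {G : SimpleGraph V} {D : ℕ} (h : Hyp G D) (o : V) {k : ℕ} (hk : 1 ≤ k)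
    {N : Set V} (hN : Separated G k N) (T : Finset V) (hT : ∀ x ∈ T, x ∈ N ∧ x ∈ Mid G o k 1) :
    T.card ≤ D ^ 7 := by
  refine sep_card_le (i := 4) h hk o ?_ ?_
  · intro a ha b hb hab
    exact hN a (hT a ha).1 b (hT b hb).1 hab
  · intro a ha
    have := (hT a ha).2.2
    omega

theorem t_SEQ (h1 : S_AVG) (h2 : S_TB) : S_SEQ := by
  classical
  intro D
  obtain ⟨κ, hκ, havg⟩ := h1 D
  obtain ⟨lam, k₁, hlam, hk₁, htb⟩ := h2 D κ hκ
  refine ⟨lam, (D : ℝ) ^ 7 + 1, k₁, hlam, ?_, hk₁, ?_⟩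
  · have : (0 : ℝ) ≤ (D : ℝ) ^ 7 := by positivity
    linarith
  intro V G hD o k hk N₀ hN₀
  have hk1 : 1 ≤ k := hk₁.trans hk
  have hsep : Separated G k N₀ := hN₀.prop
  set M : ℕ → Finset V := fun j => (sEQ_mid_finite hD.st o k j).toFinset with hM
  have hMmem : ∀ j x, x ∈ M j ↔ x ∈ Mid G o k j := by
    intro j x
    simp [hM]
  set E : V → V → ℝ := fun x y => Real.exp (-(lam * loss G o k x y / k)) with hE
  have hE0 : ∀ x y, 0 < E x y := fun x y => Real.exp_pos _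
  set F : ℕ → (G ≃g G) → Finset V := fun j φ => (M j).filter (fun x => x ∈ φ '' N₀) with hF
  have step : ∀ (j : ℕ) (s : {p : (G ≃g G) × (V → ℝ) // ∀ z, 0 ≤ p.2 z}),
      ∃ s' : {p : (G ≃g G) × (V → ℝ) // ∀ z, 0 ≤ p.2 z},
        (∀ y, s'.1.2 y = ∑ x ∈ F j s.1.1, s.1.2 x * E x y) ∧
        ∀ v, (vol G v k : ℝ) * ∑ z ∈ M (j + 1), (s'.1.1 '' N₀).indicator s'.1.2 z ≤
          κ * ∑ z ∈ M (j + 1), s'.1.2 z := by
    intro j s
    have hg : ∀ y, 0 ≤ ∑ x ∈ F j s.1.1, s.1.2 x * E x y := fun y =>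
      Finset.sum_nonneg fun x _ => mul_nonneg (s.2 x) (hE0 x y).le
    obtain ⟨φ, hφ⟩ := havg V G hD k hk1 N₀ hsep (M (j + 1))
      (fun y => ∑ x ∈ F j s.1.1, s.1.2 x * E x y) hg
    exact ⟨⟨(φ, fun y => ∑ x ∈ F j s.1.1, s.1.2 x * E x y), hg⟩, fun y => rfl, hφ⟩
  choose nx hnx1 hnx2 using step
  set st : ℕ → {p : (G ≃g G) × (V → ℝ) // ∀ z, 0 ≤ p.2 z} := fun n =>
    Nat.rec ⟨(RelIso.refl _, fun _ => 1), fun _ => zero_le_one⟩ (fun n s => nx (n + 1) s) n with hst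
  have hst0 : (st 0).1 = (RelIso.refl _, fun _ => 1) := rfl
  have hsts : ∀ n, st (n + 1) = nx (n + 1) (st n) := fun n => rfl
  set Ψ : ℕ → ℝ := fun n => ∑ x ∈ F (n + 1) (st n).1.1, (st n).1.2 x with hΨ
  have hvol : (0 : ℝ) < vol G o k := by
    have := vol_pos hD.st o k
    exact_mod_cast this
  have hΨs : ∀ n, Ψ (n + 1) ≤ Real.exp (-1) * Ψ n := by
    intro n
    have e1 : Ψ (n + 1) = ∑ z ∈ M (n + 2), ((st (n + 1)).1.1 '' N₀).indicator (st (n + 1)).1.2 z := by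
      rw [hΨ]
      simp only [hF, Finset.sum_filter]
      refine Finset.sum_congr rfl fun z _ => ?_
      rw [Set.indicator_apply]
    have e2 := hnx2 (n + 1) (st n) o
    rw [← hsts n] at e2
    rw [← e1] at e2
    have e3 : κ * ∑ z ∈ M (n + 2), (st (n + 1)).1.2 z =
        ∑ x ∈ F (n + 1) (st n).1.1, (st n).1.2 x * (κ * ∑ y ∈ M (n + 2), E x y) := by
      have : ∀ z, (st (n + 1)).1.2 z = ∑ x ∈ F (n + 1) (st n).1.1, (st n).1.2 x * E x z := by
        intro z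
        rw [hsts n]
        exact hnx1 (n + 1) (st n) z
      simp only [this]
      rw [Finset.sum_comm, Finset.mul_sum]
      refine Finset.sum_congr rfl fun x _ => ?_
      rw [← Finset.mul_sum]
      ring
    have e4 : ∑ x ∈ F (n + 1) (st n).1.1, (st n).1.2 x * (κ * ∑ y ∈ M (n + 2), E x y) ≤
        ∑ x ∈ F (n + 1) (st n).1.1, (st n).1.2 x * (Real.exp (-1) * vol G o k) := by
      refine Finset.sum_le_sum fun x hx => ?_
      refine mul_le_mul_of_nonneg_left ?_ ((st n).2 x)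
      have hx' : x ∈ Mid G o k (n + 1) := (hMmem _ _).1 (Finset.mem_filter.1 hx).1
      exact htb V G hD o k (n + 1) hk (by omega) x hx' (M (n + 2)) fun y hy => (hMmem _ _).1 hy
    rw [← Finset.sum_mul] at e4
    have e5 : (vol G o k : ℝ) * Ψ (n + 1) ≤ (vol G o k : ℝ) * (Real.exp (-1) * Ψ n) := by
      calc (vol G o k : ℝ) * Ψ (n + 1) ≤ κ * ∑ z ∈ M (n + 2), (st (n + 1)).1.2 z := e2
        _ = _ := e3
        _ ≤ _ := e4
        _ = (vol G o k : ℝ) * (Real.exp (-1) * Ψ n) := by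
          simp only [hΨ]
          ring
    exact le_of_mul_le_mul_left e5 hvol
  have hΨ0 : Ψ 0 ≤ (D : ℝ) ^ 7 + 1 := by
    have e1 : Ψ 0 = (F 1 (st 0).1.1).card := by
      simp only [hΨ, hst0, zero_add, Finset.sum_const, nsmul_eq_mul, mul_one]
    have e2 : (F 1 (st 0).1.1).card ≤ D ^ 7 := by
      refine sEQ_first hD o hk1 (sep_image hD.st hsep (st 0).1.1) _ ?_
      intro x hx
      exact ⟨(Finset.mem_filter.1 hx).2, (hMmem _ _).1 (Finset.mem_filter.1 hx).1⟩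
    rw [e1]
    have e3 : ((F 1 (st 0).1.1).card : ℝ) ≤ (D : ℝ) ^ 7 := by exact_mod_cast e2
    linarith
  have hΨn : ∀ n : ℕ, Ψ n ≤ ((D : ℝ) ^ 7 + 1) * Real.exp (-(n : ℝ)) := by
    intro n
    induction n with
    | zero => simpa using hΨ0
    | succ n ih =>
      refine (hΨs n).trans ?_
      have e1 : Real.exp (-((n + 1 : ℕ) : ℝ)) = Real.exp (-1) * Real.exp (-(n : ℝ)) := by
        rw [← Real.exp_add]
        congr 1
        push_cast
        ring
      rw [e1]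
      have := mul_le_mul_of_nonneg_left ih (Real.exp_pos (-1)).le
      linarith
  have hmem : ∀ j (φ : G ≃g G) x, x ∈ φ '' N₀ ∩ Mid G o k j → x ∈ F j φ := by
    intro j φ x hx
    exact Finset.mem_filter.2 ⟨(hMmem _ _).2 hx.2, hx.1⟩
  refine ⟨fun j => (st (j - 1)).1.1, fun j => (st (j - 1)).1.2, ?_, ?_, ?_⟩
  · intro x _
    exact le_rfl
  · intro j hj x hx y hy
    obtain ⟨n, rfl⟩ : ∃ n, j = n + 1 := ⟨j - 1, by omega⟩
    simp only [Nat.add_sub_cancel] at hx hy ⊢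
    have e1 : (st (n + 1)).1.2 y = ∑ x ∈ F (n + 1) (st n).1.1, (st n).1.2 x * E x y := by
      rw [hsts n]
      exact hnx1 (n + 1) (st n) y
    rw [e1]
    exact Finset.single_le_sum (f := fun x => (st n).1.2 x * E x y)
      (fun z _ => mul_nonneg ((st n).2 z) (hE0 z y).le) (hmem _ _ _ hx)
  · intro j hj x hx
    obtain ⟨n, rfl⟩ : ∃ n, j = n + 1 := ⟨j - 1, by omega⟩
    simp only [Nat.add_sub_cancel] at hx ⊢
    have e1 : (st n).1.2 x ≤ Ψ n :=
      Finset.single_le_sum (f := fun x => (st n).1.2 x) (fun z _ => (st n).2 z) (hmem _ _ _ hx)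
    refine e1.trans ((hΨn n).trans (le_of_eq ?_))
    congr 2
    push_cast
    ring

end Pool.Agent.NetGraphs.SL
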