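import Pool.Agent.NetGraphs.SL.Stmts

set_option autoImplicit false

namespace Pool.Agent.NetGraphs.SL

open SimpleGraph Pool.Agent.NetGraphs

/-! Proof. (3.3) of the paper. N₀ any k-net (net_exists_ge from the empty set). A = {o} ∪ all phi_j '' N₀ ∩ {x | 6kj <= d(o,x) <= 6kj+4k}, j>=1: Separated (points of different
walls: | |x|-|y| | >= 2k; o: distance >= 6k). N ⊇ A by net_exists_ge. (a) N ∩ Mid j ⊆ phi_j '' N₀: otherwise net_cover for the net phi_j '' N₀ (net_image) gives y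
with d(x,y)<k, y in the wall j, so y in A ⊆ N, y ≠ x, contradiction to Separated. (b) L(x) = 2k d_N(o,x) - d(o,x) >= 0 (dist_le_net). Crossing lemma: if q in N and
6kj+k <= d(o,q), j >= 1, then there is x in N ∩ Mid j with d_N(o,x)+d_N(x,q) = d_N(o,q): first vertex of a shortest walk of netGraph (net_conn) with
6kj+k <= d(o,.), steps are <= 2k. (c) d_N(x,y) >= ceil(d(x,y)/(2k)) (dist_le_net), so L(y) >= L(x)+loss(x,y) if d_N(o,y)=d_N(o,x)+d_N(x,y). (d) induction on
j >= 1: exp(-(lam L(x)/k)) <= w j x for x in N ∩ Mid j. Hence exp(-lam L/k) <= K exp(-(j-1)), L(x) >= (k/lam)(j-1-log K). (e) q in N with d(o,q) >= 9k: j := (d(o,q)-3k)/(6k)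
natural division >= 1, 6kj+3k <= d(o,q) < 6kj+9k; crossing gives L(q) >= L(x) (loss >= 0), L(q) >= (k/lam)(d(o,q)/(6k) - 5/2 - log K). delta = min 1 (1/(6 lam)),
c0 = 9 + (3+log K)/lam (K >= 1 so log K >= 0). For d(o,q) < 9k: delta d(o,q) <= 9k. -/

section sLO

variable {V : Type} {G : SimpleGraph V} {D : ℕ}

/-- the defect of slowness -/
noncomputable def sLO_L (G : SimpleGraph V) (k : ℕ) (N : Set V) (o q : N) : ℝ :=
  2 * (k : ℝ) * ((netGraph G k N).dist o q : ℝ) - (G.dist o.1 q.1 : ℝ)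

theorem sLO_L_nonneg (hG : Standing G) {k : ℕ} (hk : 1 ≤ k) {N : Set V} (hN : IsNet G k N)
    (o q : N) : 0 ≤ sLO_L G k N o q := by
  have h := dist_le_net hG hk hN o q
  have h' : (G.dist o.1 q.1 : ℝ) ≤ 2 * (k : ℝ) * ((netGraph G k N).dist o q : ℝ) := by
    exact_mod_cast h
  unfold sLO_L
  linarith

theorem sLO_cross (hG : Standing G) {k : ℕ} (hk : 1 ≤ k) {N : Set V} (hN : IsNet G k N) (o : N)
    {T : ℕ} (hT : 0 < T) : ∀ (n : ℕ) (q : N), (netGraph G k N).dist o q = n → T ≤ G.dist o.1 q.1 →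
      ∃ x : N, T ≤ G.dist o.1 x.1 ∧ G.dist o.1 x.1 < T + 2 * k ∧
        (netGraph G k N).dist o x + (netGraph G k N).dist x q = (netGraph G k N).dist o q := by
  have hc := net_conn hG hk hN
  intro n
  induction n with
  | zero =>
    intro q hq hTq
    have h1 : o = q := (hc.dist_eq_zero_iff).1 hq
    rw [← h1, SimpleGraph.dist_self] at hTq
    omega
  | succ n ih =>
    intro q hq hTq
    by_cases hlt : G.dist o.1 q.1 < T + 2 * k
    · exact ⟨q, hTq, hlt, by rw [SimpleGraph.dist_self, add_zero]⟩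
    · push Not at hlt
      obtain ⟨c, hc1, hc2⟩ := geod_point hc o q (m := n) (by omega)
      have h2 := dist_le_net hG hk hN c q
      have h3 : (netGraph G k N).dist c q = 1 := by omega
      rw [h3, mul_one] at h2
      have h4 : G.dist o.1 q.1 ≤ G.dist o.1 c.1 + G.dist c.1 q.1 := hG.connected.dist_triangle
      obtain ⟨x, hx1, hx2, hx3⟩ := ih c hc1 (by omega)
      refine ⟨x, hx1, hx2, ?_⟩
      have h5 : (netGraph G k N).dist x q ≤
          (netGraph G k N).dist x c + (netGraph G k N).dist c q := hc.dist_triangle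
      have h6 : (netGraph G k N).dist o q ≤
          (netGraph G k N).dist o x + (netGraph G k N).dist x q := hc.dist_triangle
      omega

theorem sLO_ceil {k : ℕ} (hk : 1 ≤ k) {d m : ℕ} (h : d ≤ 2 * k * m) :
    ⌈(d : ℝ) / (2 * k)⌉₊ ≤ m := by
  rw [Nat.ceil_le]
  have hk' : (0 : ℝ) < 2 * k := by
    have : (1 : ℝ) ≤ k := by exact_mod_cast hk
    linarith
  rw [div_le_iff₀ hk']
  have h' : (d : ℝ) ≤ 2 * (k : ℝ) * (m : ℝ) := by exact_mod_cast h
  linarith

theorem sLO_loss_nonneg (hG : Standing G) (o : V) {k : ℕ} (hk : 1 ≤ k) (x y : V) :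
    0 ≤ loss G o k x y := by
  have hk' : (0 : ℝ) < 2 * k := by
    have : (1 : ℝ) ≤ k := by exact_mod_cast hk
    linarith
  have h1 : (G.dist x y : ℝ) / (2 * k) ≤ (⌈(G.dist x y : ℝ) / (2 * k)⌉₊ : ℝ) := Nat.le_ceil _
  rw [div_le_iff₀ hk'] at h1
  have h2 : G.dist o y ≤ G.dist o x + G.dist x y := hG.connected.dist_triangle
  have h3 : (G.dist o y : ℝ) ≤ (G.dist o x : ℝ) + (G.dist x y : ℝ) := by exact_mod_cast h2
  unfold loss
  linarith

theorem sLO_L_add (hG : Standing G) {k : ℕ} (hk : 1 ≤ k) {N : Set V} (hN : IsNet G k N)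
    (o x y : N)
    (h : (netGraph G k N).dist o x + (netGraph G k N).dist x y = (netGraph G k N).dist o y) :
    sLO_L G k N o x + loss G o.1 k x.1 y.1 ≤ sLO_L G k N o y := by
  have h1 := sLO_ceil hk (dist_le_net hG hk hN x y)
  have h2 : (⌈(G.dist x.1 y.1 : ℝ) / (2 * k)⌉₊ : ℝ) ≤ ((netGraph G k N).dist x y : ℝ) := by
    exact_mod_cast h1
  have hk' : (0 : ℝ) ≤ 2 * k := by positivity
  have h3 := mul_le_mul_of_nonneg_left h2 hk'
  have h4 : ((netGraph G k N).dist o x : ℝ) + ((netGraph G k N).dist x y : ℝ) =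
      ((netGraph G k N).dist o y : ℝ) := by exact_mod_cast h
  unfold sLO_L loss
  rw [← h4]
  linarith

theorem sLO_sep (hG : Standing G) {k : ℕ} {N₀ : Set V} (hN₀ : IsNet G k N₀)
    (φ : ℕ → (G ≃g G)) (o : V) :
    Separated G k ({o} ∪ {x | ∃ j, 1 ≤ j ∧ x ∈ φ j '' N₀ ∧ 6 * k * j ≤ G.dist o x ∧
      G.dist o x ≤ 6 * k * j + 4 * k}) := by
  have far : ∀ y : V, (∃ j, 1 ≤ j ∧ y ∈ φ j '' N₀ ∧ 6 * k * j ≤ G.dist o y ∧
      G.dist o y ≤ 6 * k * j + 4 * k) → k ≤ G.dist o y := by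
    rintro y ⟨j, hj, -, h1, -⟩
    have h2 : 6 * k * 1 ≤ 6 * k * j := Nat.mul_le_mul_left _ hj
    omega
  have two : ∀ (x y : V) (i j : ℕ), i < j → G.dist o x ≤ 6 * k * i + 4 * k →
      6 * k * j ≤ G.dist o y → k ≤ G.dist x y := by
    intro x y i j hij hx hy
    have h1 : 6 * k * (i + 1) ≤ 6 * k * j := Nat.mul_le_mul_left _ hij
    have h2 : G.dist o y ≤ G.dist o x + G.dist x y := hG.connected.dist_triangle
    have h3 : 6 * k * (i + 1) = 6 * k * i + 6 * k := by ring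
    omega
  intro x hx y hy hne
  rcases hx with hx | hx
  · rcases hy with hy | hy
    · exact absurd (hx.trans hy.symm) hne
    · rw [Set.mem_singleton_iff.1 hx]
      exact far y hy
  · rcases hy with hy | hy
    · rw [Set.mem_singleton_iff.1 hy, SimpleGraph.dist_comm]
      exact far x hx
    · obtain ⟨i, hi, hxi, hx1, hx2⟩ := hx
      obtain ⟨j, hj, hyj, hy1, hy2⟩ := hy
      rcases lt_trichotomy i j with h | h | h
      · exact two x y i j h hx2 hy1
      · subst h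
        exact sep_image hG hN₀.1 (φ i) x hxi y hyj hne
      · rw [SimpleGraph.dist_comm]
        exact two y x j i h hy2 hx1

end sLO

theorem t_SLOW (h1 : S_SEQ) : S_SLOW := by
  intro D
  obtain ⟨lam, K, k₁, hlam, hK, hk₁, H⟩ := h1 D
  have hlogK : 0 ≤ Real.log K := Real.log_nonneg hK
  refine ⟨min 1 (1 / (6 * lam)), 9 + (3 + Real.log K) / lam, k₁, by positivity, min_le_left _ _,
    by positivity, hk₁, ?_⟩
  intro V G hyp o k hkk
  have hk : 1 ≤ k := hk₁.trans hkk
  have hG := hyp.st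
  have hkR : (1 : ℝ) ≤ k := by exact_mod_cast hk
  obtain ⟨N₀, -, hN₀⟩ := net_exists_ge G k (A := ∅) (by intro u hu; exact absurd hu (Set.notMem_empty u))
  obtain ⟨φ, w, hw1, hw2, hw3⟩ := H V G hyp o k hkk N₀ hN₀
  obtain ⟨N, hAN, hN⟩ := net_exists_ge G k (sLO_sep hG hN₀ φ o)
  have ho : o ∈ N := hAN (Or.inl rfl)
  have hmid : ∀ j, 1 ≤ j → ∀ x ∈ N, x ∈ Mid G o k j → x ∈ φ j '' N₀ ∩ Mid G o k j := by
    intro j hj x hxN hx
    refine ⟨?_, hx⟩
    by_contra hnot
    obtain ⟨p, hp, hd⟩ := net_cover hk (net_image hG hN₀ (φ j)) x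
    obtain ⟨hx1, hx2⟩ := hx
    have h2 : G.dist o p ≤ G.dist o x + G.dist x p := hG.connected.dist_triangle
    have h3 : G.dist o x ≤ G.dist o p + G.dist p x := hG.connected.dist_triangle
    rw [SimpleGraph.dist_comm (u := p) (v := x)] at h3
    have hpN : p ∈ N := hAN (Or.inr ⟨j, hj, hp, by omega, by omega⟩)
    have hne : x ≠ p := by
      rintro rfl
      exact hnot hp
    have h4 := hN.1 x hxN p hpN hne
    omega
  have hcross : ∀ (j : ℕ) (q : N), 6 * k * j + k ≤ G.dist o q.1 → ∃ x : N, x.1 ∈ Mid G o k j ∧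
      (netGraph G k N).dist ⟨o, ho⟩ x + (netGraph G k N).dist x q =
        (netGraph G k N).dist ⟨o, ho⟩ q := by
    intro j q hq
    obtain ⟨x, hx1, hx2, hx3⟩ := sLO_cross hG hk hN ⟨o, ho⟩ (T := 6 * k * j + k) (by omega) _ q rfl hq
    have hx2' : G.dist o x.1 < 6 * k * j + k + 2 * k := hx2
    exact ⟨x, ⟨hx1, by omega⟩, hx3⟩
  have hind : ∀ j, 1 ≤ j → ∀ x : N, x.1 ∈ Mid G o k j →
      Real.exp (-(lam * sLO_L G k N ⟨o, ho⟩ x / k)) ≤ w j x.1 := by
    intro j hj
    induction j, hj using Nat.le_induction with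
    | base =>
      intro x hx
      refine le_trans ?_ (hw1 x.1 (hmid 1 le_rfl x.1 x.2 hx))
      rw [Real.exp_le_one_iff]
      have h5 := sLO_L_nonneg hG hk hN ⟨o, ho⟩ x
      have h6 : 0 ≤ lam * sLO_L G k N ⟨o, ho⟩ x / k := by positivity
      linarith
    | succ j hj ih =>
      intro y hy
      have hy1 : 6 * k * (j + 1) + k ≤ G.dist o y.1 := hy.1
      have h7 : 6 * k * (j + 1) = 6 * k * j + 6 * k := by ring
      obtain ⟨x, hx, hxy⟩ := hcross j y (by omega)
      have h8 := sLO_L_add hG hk hN ⟨o, ho⟩ x y hxy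
      have h9 := hw2 j hj x.1 (hmid j hj x.1 x.2 hx) y.1 (hmid (j + 1) (by omega) y.1 y.2 hy)
      refine le_trans ?_ h9
      have h10 := mul_le_mul_of_nonneg_right (ih x hx)
        (Real.exp_pos (-(lam * loss G o k x.1 y.1 / k))).le
      refine le_trans ?_ h10
      rw [← Real.exp_add, Real.exp_le_exp]
      have h11 : lam * (sLO_L G k N ⟨o, ho⟩ x + loss G o k x.1 y.1) / k ≤
          lam * sLO_L G k N ⟨o, ho⟩ y / k := by
        gcongr
      have h12 : lam * (sLO_L G k N ⟨o, ho⟩ x + loss G o k x.1 y.1) / k =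
          lam * sLO_L G k N ⟨o, ho⟩ x / k + lam * loss G o k x.1 y.1 / k := by ring
      linarith
  have hlow : ∀ j, 1 ≤ j → ∀ x : N, x.1 ∈ Mid G o k j →
      (k : ℝ) / lam * ((j : ℝ) - 1 - Real.log K) ≤ sLO_L G k N ⟨o, ho⟩ x := by
    intro j hj x hx
    have h5 := (hind j hj x hx).trans (hw3 j hj x.1 (hmid j hj x.1 x.2 hx))
    have hKpos : 0 < K := by linarith
    have h6 := Real.log_le_log (Real.exp_pos _) h5
    rw [Real.log_exp, Real.log_mul hKpos.ne' (Real.exp_pos _).ne', Real.log_exp] at h6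
    have h7 : (j : ℝ) - 1 - Real.log K ≤ lam * sLO_L G k N ⟨o, ho⟩ x / k := by linarith
    rw [le_div_iff₀ (by linarith)] at h7
    rw [div_mul_eq_mul_div, div_le_iff₀ hlam]
    linarith
  refine ⟨N, ho, hN, ?_⟩
  intro q
  have hL0 := sLO_L_nonneg hG hk hN ⟨o, ho⟩ q
  have hgoal : min 1 (1 / (6 * lam)) * (G.dist o q.1 : ℝ) ≤
      sLO_L G k N ⟨o, ho⟩ q + (9 + (3 + Real.log K) / lam) * k := by
    have hd0 : (0 : ℝ) ≤ (G.dist o q.1 : ℝ) := by positivity
    by_cases hq : G.dist o q.1 < 9 * k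
    · have h5 : min 1 (1 / (6 * lam)) * (G.dist o q.1 : ℝ) ≤ 1 * (G.dist o q.1 : ℝ) :=
        mul_le_mul_of_nonneg_right (min_le_left _ _) hd0
      have h6 : (G.dist o q.1 : ℝ) ≤ 9 * k := by exact_mod_cast hq.le
      have h7 : 0 ≤ (3 + Real.log K) / lam * k := by positivity
      linarith
    · push Not at hq
      have h6k : 0 < 6 * k := by omega
      set j := (G.dist o q.1 - 3 * k) / (6 * k) with hj
      have hj1 : 1 ≤ j := (Nat.one_le_div_iff h6k).2 (by omega)
      have hj2 : 6 * k * j ≤ G.dist o q.1 - 3 * k := Nat.mul_div_le _ _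
      have hj3 : G.dist o q.1 - 3 * k < 6 * k * j + 6 * k := by
        have := Nat.lt_mul_div_succ (G.dist o q.1 - 3 * k) h6k
        rw [mul_add, mul_one] at this
        exact this
      obtain ⟨x, hx, hxq⟩ := hcross j q (by omega)
      have h8 := sLO_L_add hG hk hN ⟨o, ho⟩ x q hxq
      have h9 := sLO_loss_nonneg hG o hk x.1 q.1
      have h10 := hlow j hj1 x hx
      have h11 : G.dist o q.1 < 6 * k * j + 9 * k := by omega
      have h12 : (G.dist o q.1 : ℝ) ≤ 6 * (k : ℝ) * (j : ℝ) + 9 * (k : ℝ) := by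
        exact_mod_cast h11.le
      have h13 : min 1 (1 / (6 * lam)) * (G.dist o q.1 : ℝ) ≤
          1 / (6 * lam) * (G.dist o q.1 : ℝ) :=
        mul_le_mul_of_nonneg_right (min_le_right _ _) hd0
      have h14 : 1 / (6 * lam) * (G.dist o q.1 : ℝ) ≤
          1 / (6 * lam) * (6 * (k : ℝ) * (j : ℝ) + 9 * (k : ℝ)) :=
        mul_le_mul_of_nonneg_left h12 (by positivity)
      have h15 : 1 / (6 * lam) * (6 * (k : ℝ) * (j : ℝ) + 9 * (k : ℝ)) =
          (k : ℝ) / lam * ((j : ℝ) - 1 - Real.log K) + (5 / 2 + Real.log K) / lam * k := by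
        field_simp
        ring
      have h16 : (5 / 2 + Real.log K) / lam * k ≤ (3 + Real.log K) / lam * k := by
        gcongr
        norm_num
      have h17 : (0 : ℝ) ≤ 9 * k := by positivity
      linarith
  unfold sLO_L at hgoal
  linarith

end Pool.Agent.NetGraphs.SL
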