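import Pool.Agent.NetGraphs.SL.Basics

set_option autoImplicit false

/-!
# Sub scale invariance forces linear growth: the statements of the pieces
-/

namespace Pool.Agent.NetGraphs.SL

open SimpleGraph Pool.Agent.NetGraphs

/-- uniformity over the nets -/
def S_UNI : Prop := ∀ (V : Type) (G : SimpleGraph V), Standing G → SubScaleInvariant G → ∀ C : ℝ, 1 < C →
  ∃ k₀ : ℕ, ∀ k, k₀ ≤ k → ∀ N, IsNet G k N → ∃ f : V → N, IsRoughIsometry C G (netGraph G k N) f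

/-- doubling with a natural constant -/
def S_DBL : Prop := ∀ (V : Type) (G : SimpleGraph V), Standing G → VertexTransitive G → SubScaleInvariant G →
  ∃ D, Hyp G D

/-- net distances are at most a constant times distances -/
def S_COARSE : Prop := ∀ D : ℕ, ∃ c : ℕ, ∀ (V : Type) (G : SimpleGraph V), Hyp G D → ∀ k, 1 ≤ k →
  ∀ N, IsNet G k N → ∀ p q : N, k * (netGraph G k N).dist p q ≤ c * (G.dist p.1 q.1 + k)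

/-- thin annuli about `o` take a small part of a ball -/
def S_ANN : Prop := ∀ (D : ℕ) (a : ℝ), 0 < a → ∃ m : ℕ, 1 ≤ m ∧ ∀ (V : Type) (G : SimpleGraph V), Hyp G D →
  ∀ (o x : V) (s t w : ℕ), m * w ≤ s → s ≤ 4 * t →
    (({z | G.dist x z ≤ s ∧ t < G.dist o z ∧ G.dist o z ≤ t + w} : Set V).ncard : ℝ) ≤ a * vol G x s

/-- unimodularity -/
def S_UNIMOD : Prop := ∀ (D : ℕ) (V : Type) (G : SimpleGraph V), Hyp G D → ∀ (F : Finset V) (y y' z z' : V),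
  y ∈ F → y' ∈ F → (RS G F y z).Finite ∧ 0 < (RS G F y z).ncard ∧ (RS G F y z).ncard = (RS G F y' z').ncard

/-- averaging over automorphisms -/
def S_AVG : Prop := ∀ D : ℕ, ∃ κ : ℝ, 0 < κ ∧ ∀ (V : Type) (G : SimpleGraph V), Hyp G D → ∀ k, 1 ≤ k →
  ∀ N : Set V, Separated G k N → ∀ (S : Finset V) (g : V → ℝ), (∀ z, 0 ≤ g z) →
    ∃ φ : G ≃g G, ∀ v, (vol G v k : ℝ) * ∑ z ∈ S, (φ '' N).indicator g z ≤ κ * ∑ z ∈ S, g z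

/-- one wall: the weighted number of cheap hops is small -/
def S_TB : Prop := ∀ (D : ℕ) (κ : ℝ), 0 < κ → ∃ (lam : ℝ) (k₁ : ℕ), 0 < lam ∧ 1 ≤ k₁ ∧
  ∀ (V : Type) (G : SimpleGraph V), Hyp G D → ∀ (o : V) (k j : ℕ), k₁ ≤ k → 1 ≤ j → ∀ x ∈ Mid G o k j,
    ∀ S : Finset V, (∀ y ∈ S, y ∈ Mid G o k (j + 1)) →
      κ * ∑ y ∈ S, Real.exp (-(lam * loss G o k x y / k)) ≤ Real.exp (-1) * vol G o k

/-- the automorphisms used on the walls, with the weights -/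
def S_SEQ : Prop := ∀ D : ℕ, ∃ (lam K : ℝ) (k₁ : ℕ), 0 < lam ∧ 1 ≤ K ∧ 1 ≤ k₁ ∧
  ∀ (V : Type) (G : SimpleGraph V), Hyp G D → ∀ (o : V) (k : ℕ), k₁ ≤ k → ∀ N₀, IsNet G k N₀ →
    ∃ (φ : ℕ → (G ≃g G)) (w : ℕ → V → ℝ),
      (∀ x ∈ φ 1 '' N₀ ∩ Mid G o k 1, 1 ≤ w 1 x) ∧
      (∀ j, 1 ≤ j → ∀ x ∈ φ j '' N₀ ∩ Mid G o k j, ∀ y ∈ φ (j + 1) '' N₀ ∩ Mid G o k (j + 1),
        w j x * Real.exp (-(lam * loss G o k x y / k)) ≤ w (j + 1) y) ∧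
      (∀ j, 1 ≤ j → ∀ x ∈ φ j '' N₀ ∩ Mid G o k j, w j x ≤ K * Real.exp (-((j : ℝ) - 1)))

/-- slow nets -/
def S_SLOW : Prop := ∀ D : ℕ, ∃ (δ c₀ : ℝ) (k₁ : ℕ), 0 < δ ∧ δ ≤ 1 ∧ 0 ≤ c₀ ∧ 1 ≤ k₁ ∧
  ∀ (V : Type) (G : SimpleGraph V), Hyp G D → ∀ (o : V) (k : ℕ), k₁ ≤ k →
    ∃ (N : Set V) (ho : o ∈ N), IsNet G k N ∧
      ∀ q : N, (1 + δ) * (G.dist o q.1 : ℝ) ≤ 2 * k * ((netGraph G k N).dist ⟨o, ho⟩ q : ℝ) + c₀ * k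

/-- putting a road into a net -/
def S_HW : Prop := ∀ (V : Type) (G : SimpleGraph V), Standing G → ∀ (k I : ℕ) (h : ℕ → V) (N : Set V), 1 ≤ k →
  Road G k I h → IsNet G k N → ∃ N', HWNet G k I h N N'

/-- the road only shortens distances, up to a constant -/
def S_CMP1 : Prop := ∀ D : ℕ, ∃ c : ℕ, ∀ (V : Type) (G : SimpleGraph V), Hyp G D →
  ∀ (k I : ℕ) (h : ℕ → V) (N N' : Set V), 1 ≤ k → Road G k I h → IsNet G k N → HWNet G k I h N N' →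
    ∀ J, J ≤ I → ∀ (hJ : h J ∈ N') (p : N), G.dist p.1 (h J) < k → ∀ (x : V) (hx : x ∈ N) (hx' : x ∈ N'),
      (netGraph G k N').dist ⟨h J, hJ⟩ ⟨x, hx'⟩ ≤ (netGraph G k N).dist p ⟨x, hx⟩ + c

/-- far from the road, short distances do not get shorter -/
def S_CMP2 : Prop := ∀ (V : Type) (G : SimpleGraph V), Standing G →
  ∀ (k I : ℕ) (h : ℕ → V) (N N' : Set V) (r : ℕ), 1 ≤ k → IsNet G k N → HWNet G k I h N N' →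
    ∀ (x y : V) (hx : x ∈ N) (hx' : x ∈ N') (hy : y ∈ N) (hy' : y ∈ N'),
      (∀ i, i ≤ I → 2 * k * (r + 1) ≤ G.dist x (h i)) →
      r ≤ (netGraph G k N).dist ⟨x, hx⟩ ⟨y, hy⟩ → r ≤ (netGraph G k N').dist ⟨x, hx'⟩ ⟨y, hy'⟩

/-- few separated points near the road -/
def S_ZC : Prop := ∀ D : ℕ, ∃ Q r₀ : ℕ, ∀ (V : Type) (G : SimpleGraph V), Hyp G D →
  ∀ (k I : ℕ) (h : ℕ → V) (N : Set V) (r : ℕ), 1 ≤ k → r₀ ≤ r → Road G k I h → IsNet G k N →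
    ∀ T : Finset N, (∀ x ∈ T, ∀ y ∈ T, x ≠ y → r ≤ (netGraph G k N).dist x y) →
      (∀ x ∈ T, ∃ i, i ≤ I ∧ G.dist x.1 (h i) < 2 * k * (r + 1)) → T.card * r ≤ Q * (I + r)

/-- smaller balls -/
def S_PK1 : Prop := ∀ (D : ℕ) (e : ℝ), 0 < e → e ≤ 1 → ∃ M : ℕ, ∀ (V : Type) (G : SimpleGraph V), Hyp G D →
  ∀ (x : V) (R r : ℝ), 1 ≤ R → pk G x R r ≤ M * pk G x (e * R) r

/-- doubling for packing numbers -/
def S_PK2 : Prop := ∀ D : ℕ, ∃ M : ℕ, ∀ (V : Type) (G : SimpleGraph V), Hyp G D →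
  ∀ (x : V) (R r : ℝ), 2 ≤ r → r ≤ R → pk G x (2 * R) (r / 2) ≤ M * pk G x R r

/-- growth of packing numbers -/
def S_PK3 : Prop := ∀ (D : ℕ) (V : Type) (G : SimpleGraph V), Hyp G D → ¬ Lin G →
  ∀ A r ρ : ℝ, 1 ≤ r → ∃ R : ℝ, ρ ≤ R ∧ ∀ x, A * (R / r) ≤ pk G x R r

/-- a scale at which the packing numbers are regular -/
def S_SCALE : Prop := ∀ (D : ℕ) (e Q : ℝ), 0 < e → e ≤ 1 → 0 ≤ Q → ∃ τ : ℝ, 0 < τ ∧ τ ≤ 1 / 4 ∧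
  ∀ (V : Type) (G : SimpleGraph V), Hyp G D → ¬ Lin G → ∀ ρ : ℝ, ∃ R r : ℝ, ρ ≤ r ∧ ρ * r ≤ R ∧
    ∀ x, (pk G x ((1 + τ) * R) ((1 - τ) * r) : ℝ) + Q * (R / r) < pk G x R r + pk G x (e * R) r

/-- the comparison of the slow net with and without a road -/
def S_DET : Prop := ∀ (D : ℕ) (δ c₀ : ℝ), 0 < δ → δ ≤ 1 → 0 ≤ c₀ → ∃ Q : ℝ, 0 ≤ Q ∧
  ∀ τ : ℝ, 0 < τ → τ ≤ 1 / 4 → ∃ C ρ : ℝ, 1 < C ∧
    ∀ (V : Type) (G : SimpleGraph V), Hyp G D → ∀ k : ℕ, 1 ≤ k → ∀ (o : V) (N : Set V) (ho : o ∈ N), IsNet G k N →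
      (∀ q : N, (1 + δ) * (G.dist o q.1 : ℝ) ≤ 2 * k * ((netGraph G k N).dist ⟨o, ho⟩ q : ℝ) + c₀ * k) →
      (∀ N', IsNet G k N' → ∃ f : V → N', IsRoughIsometry C G (netGraph G k N') f) →
      ∀ R r : ℝ, ρ ≤ r → ρ * r ≤ R → ∀ x,
        (pk G x R r : ℝ) + pk G x (δ / 8 * R) r ≤ pk G x ((1 + τ) * R) ((1 - τ) * r) + Q * (R / r)

/-- the theorem -/
def S_MAIN : Prop := ∀ (V : Type) (G : SimpleGraph V), Standing G → VertexTransitive G → SubScaleInvariant G → Lin G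

theorem main_of (h1 : S_UNI) (h2 : S_DBL) (h3 : S_SLOW) (h4 : S_SCALE) (h5 : S_DET) : S_MAIN := by
  intro V G hG ht hs
  by_contra hlin
  obtain ⟨D, hD⟩ := h2 V G hG ht hs
  obtain ⟨δ, c₀, k₁, hδ, hδ1, hc₀, hk₁, hslow⟩ := h3 D
  obtain ⟨Q, hQ, hdet⟩ := h5 D δ c₀ hδ hδ1 hc₀
  obtain ⟨τ, hτ, hτ4, hsc⟩ := h4 D (δ / 8) Q (by positivity) (by linarith) hQ
  obtain ⟨C, ρ, hC, hdet2⟩ := hdet τ hτ hτ4
  obtain ⟨k₀, hk₀⟩ := h1 V G hG hs C hC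
  obtain ⟨o⟩ := hG.connected.nonempty
  obtain ⟨N, ho, hN, hq⟩ := hslow V G hD o (max k₀ k₁) (le_max_right _ _)
  obtain ⟨R, r, hr, hR, hlt⟩ := hsc V G hD hlin ρ
  have h6 := hdet2 V G hD (max k₀ k₁) (hk₁.trans (le_max_right _ _)) o N ho hN hq
    (fun N' hN' => hk₀ _ (le_max_left _ _) N' hN') R r hr hR o
  have h7 := hlt o
  linarith

end Pool.Agent.NetGraphs.SL
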