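import Pool.Agent.NetGraphs.SL.Stmts

set_option autoImplicit false

namespace Pool.Agent.NetGraphs.SL

open SimpleGraph Pool.Agent.NetGraphs

/-! Proof. (3.1) of the paper. For x in Mid j, y in Mid (j+1): d(o,y)-d(o,x) < 8k. n := ceil(d(x,y)/(2k)) (natural), so d(x,y) <= 2kn and loss = 2kn-(d(o,y)-d(o,x)) >= 0
(triangle inequality). Split S: (i) n >= 8: loss >= kn, y in nb G x (2kn), vol(2kn) <= vol(2^n k) <= D^n vol k; sum over n>=8 of D^n e^{-lam n}
(group S by the value of n; finite sum <= geometric series, lam with D e^{-lam} <= 1/2 and so on). (ii) n<=7: y in nb G x (16k). w := k/m (natural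
division), m from h1 (S_ANN) with a := 1/(100 kappa D^4) or so: m*w <= 16k; t := d(o,x)+2kn-w, 16k <= 4t as d(o,x)>=7k; if loss < w then
t < d(o,y) <= t+w; so for each n<=7 at most a vol(16k) <= a D^4 vol(k) such y. (iii) n<=7, loss >= w: exp(-lam w/k) <= exp(-lam/(2m)) as w >= k/(2m) for
k >= m; at most vol(16k) <= D^4 vol k such y. Choose a, m, then lam large, k₁ = m. vol G x = vol G o by vol_eq. Total <= e^{-1} vol(k)/kappa. -/

theorem tTB_far {V : Type} (S : Finset V) (n : V → ℕ) (f : V → ℝ) (D v e : ℝ) (hD : 0 ≤ D)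
    (hv : 0 ≤ v) (he : 0 ≤ e) (hq : D * e ≤ 1 / 2) (h1 : ∀ y ∈ S, 1 ≤ n y)
    (hf : ∀ y ∈ S, f y ≤ e ^ (n y))
    (hc : ∀ i, (((S.filter fun y => n y = i).card : ℕ) : ℝ) ≤ D ^ i * v) :
    ∑ y ∈ S, f y ≤ 4 * (D * e) * v := by
  classical
  have hDe : 0 ≤ D * e := mul_nonneg hD he
  calc ∑ y ∈ S, f y ≤ ∑ y ∈ S, e ^ (n y) := Finset.sum_le_sum hf
    _ = ∑ i ∈ S.image n, ∑ y ∈ S with n y = i, e ^ (n y) :=
        (Finset.sum_fiberwise_of_maps_to (fun y hy => Finset.mem_image_of_mem n hy) _).symm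
    _ ≤ ∑ i ∈ S.image n, (2 * (D * e) * v) * (1 / 2 : ℝ) ^ i := by
        refine Finset.sum_le_sum fun i hi => ?_
        obtain ⟨y, hy, hyi⟩ := Finset.mem_image.mp hi
        have hi1 : 1 ≤ i := hyi ▸ h1 y hy
        have h2 : ∑ y ∈ S with n y = i, e ^ (n y) = ((S.filter fun y => n y = i).card : ℝ) * e ^ i := by
          rw [← nsmul_eq_mul]
          apply Finset.sum_eq_card_nsmul
          intro y hy
          rw [(Finset.mem_filter.mp hy).2]
        rw [h2]
        obtain ⟨i', rfl⟩ : ∃ i', i = i' + 1 := ⟨i - 1, by omega⟩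
        have h3 : (D * e) ^ i' ≤ (1 / 2 : ℝ) ^ i' := pow_le_pow_left₀ hDe hq i'
        calc ((S.filter fun y => n y = i' + 1).card : ℝ) * e ^ (i' + 1)
            ≤ (D ^ (i' + 1) * v) * e ^ (i' + 1) :=
              mul_le_mul_of_nonneg_right (hc (i' + 1)) (pow_nonneg he _)
          _ = ((D * e) * v) * (D * e) ^ i' := by rw [mul_pow]; ring
          _ ≤ ((D * e) * v) * (1 / 2 : ℝ) ^ i' :=
              mul_le_mul_of_nonneg_left h3 (mul_nonneg hDe hv)
          _ = (2 * (D * e) * v) * (1 / 2 : ℝ) ^ (i' + 1) := by ring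
    _ = (2 * (D * e) * v) * ∑ i ∈ S.image n, (1 / 2 : ℝ) ^ i := by rw [Finset.mul_sum]
    _ ≤ (2 * (D * e) * v) * 2 := by
        refine mul_le_mul_of_nonneg_left ?_ (by positivity)
        calc ∑ i ∈ S.image n, (1 / 2 : ℝ) ^ i ≤ ∑' i : ℕ, (1 / 2 : ℝ) ^ i :=
              summable_geometric_two.sum_le_tsum _ (fun i _ => by positivity)
          _ = 2 := tsum_geometric_two
    _ = 4 * (D * e) * v := by ring

theorem tTB_facts {V : Type} {G : SimpleGraph V} {D : ℕ} (h : Hyp G D) (o : V) (k j : ℕ)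
    (hk : 1 ≤ k) {x y : V} (hx : x ∈ Mid G o k j) (hy : y ∈ Mid G o k (j + 1)) :
    G.dist x y ≤ 2 * k * ⌈(G.dist x y : ℝ) / (2 * k)⌉₊ ∧
    G.dist o y ≤ G.dist o x + 2 * k * ⌈(G.dist x y : ℝ) / (2 * k)⌉₊ ∧
    G.dist o y < G.dist o x + 8 * k := by
  have h1 : G.dist x y ≤ 2 * k * ⌈(G.dist x y : ℝ) / (2 * k)⌉₊ := by
    have h2 := Nat.le_ceil ((G.dist x y : ℝ) / (2 * k))
    have hk' : (0 : ℝ) < 2 * k := by
      have : (1 : ℝ) ≤ k := by exact_mod_cast hk
      linarith
    rw [div_le_iff₀ hk'] at h2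
    have h3 : (G.dist x y : ℝ) ≤ ((2 * k * ⌈(G.dist x y : ℝ) / (2 * k)⌉₊ : ℕ) : ℝ) := by
      push_cast
      linarith
    exact_mod_cast h3
  have h4 : G.dist o y ≤ G.dist o x + G.dist x y := h.st.connected.dist_triangle
  refine ⟨h1, h4.trans (Nat.add_le_add_left h1 _), ?_⟩
  have h5 := hx.1
  have h6 := hy.2
  have h7 : 6 * k * (j + 1) = 6 * k * j + 6 * k := by ring
  rw [h7] at h6
  omega

theorem tTB_card {V : Type} {G : SimpleGraph V} {D : ℕ} (h : Hyp G D) (x : V) (r i k : ℕ)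
    (hr : r ≤ 2 ^ i * k) (S : Finset V) (hS : ∀ y ∈ S, G.dist x y ≤ r) :
    (S.card : ℝ) ≤ (D : ℝ) ^ i * (vol G x k : ℝ) := by
  have h1 : S.card ≤ vol G x (2 ^ i * k) := by
    rw [← Set.ncard_coe_finset]
    exact Set.ncard_le_ncard (fun y hy => (hS y hy).trans hr) (nb_finite h.st x _)
  have h2 := h1.trans (vol_pow h x k i)
  exact_mod_cast h2

theorem t_TB (h1 : S_ANN) : S_TB := by
  classical
  intro D κ hκ
  obtain ⟨m, hm, hann⟩ := h1 D (1 / (72 * κ * ((D : ℝ) + 1) ^ 4)) (by positivity)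
  have hε : (0 : ℝ) < 1 / ((36 * κ + 4) * ((D : ℝ) + 1) ^ 4) := by positivity
  obtain ⟨ε, hεdef⟩ : ∃ ε : ℝ, ε = 1 / ((36 * κ + 4) * ((D : ℝ) + 1) ^ 4) := ⟨_, rfl⟩
  rw [← hεdef] at hε
  have hm' : (1 : ℝ) ≤ m := by exact_mod_cast hm
  have hexp1 : Real.exp (-(1 / ε)) ≤ ε := by
    rw [Real.exp_neg]
    have h2 : 1 / ε ≤ Real.exp (1 / ε) := by linarith [Real.add_one_le_exp (1 / ε)]
    have h3 : 0 < 1 / ε := by positivity
    calc (Real.exp (1 / ε))⁻¹ ≤ (1 / ε)⁻¹ := inv_anti₀ h3 h2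
      _ = ε := by rw [one_div, inv_inv]
  refine ⟨2 * m * (1 / ε), m, by positivity, hm, ?_⟩
  obtain ⟨lam, hlam⟩ : ∃ lam : ℝ, lam = 2 * m * (1 / ε) := ⟨_, rfl⟩
  rw [← hlam]
  have hlam0 : 0 < lam := by rw [hlam]; positivity
  have hexp2 : Real.exp (-lam) ≤ ε := by
    refine le_trans (Real.exp_le_exp.mpr ?_) hexp1
    rw [hlam]
    have h3 : 0 < 1 / ε := by positivity
    nlinarith
  intro V G hG o k j hk hj x hx S hS
  have hk1 : 1 ≤ k := hm.trans hk
  have hk' : (1 : ℝ) ≤ k := by exact_mod_cast hk1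
  have hkpos : (0 : ℝ) < k := by linarith
  obtain ⟨w, hw⟩ : ∃ w : ℕ, w = k / m := ⟨_, rfl⟩
  have hmw : m * w ≤ k := by rw [hw]; exact Nat.mul_div_le k m
  have hwk : w ≤ k := by rw [hw]; exact Nat.div_le_self k m
  have hw2 : k ≤ 2 * m * w := by
    have h2 : 1 ≤ w := by rw [hw]; exact (Nat.one_le_div_iff hm).mpr hk
    have h3 : k < m * (w + 1) := by rw [hw]; exact Nat.lt_mul_div_succ k hm
    nlinarith
  obtain ⟨n, hn⟩ : ∃ n : V → ℕ, ∀ y, n y = ⌈(G.dist x y : ℝ) / (2 * k)⌉₊ := ⟨_, fun _ => rfl⟩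
  have hloss : ∀ y, loss G o k x y = 2 * k * (n y : ℝ) - ((G.dist o y : ℝ) - (G.dist o x : ℝ)) := by
    intro y; rw [hn]; rfl
  have hfacts : ∀ y ∈ S, G.dist x y ≤ 2 * k * n y ∧ G.dist o y ≤ G.dist o x + 2 * k * n y ∧
      G.dist o y < G.dist o x + 8 * k := by
    intro y hy
    rw [hn]
    exact tTB_facts hG o k j hk1 hx (hS y hy)
  have hloss0 : ∀ y ∈ S, 0 ≤ loss G o k x y := by
    intro y hy
    rw [hloss]
    have h2 : ((G.dist o y : ℕ) : ℝ) ≤ ((G.dist o x + 2 * k * n y : ℕ) : ℝ) := by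
      exact_mod_cast (hfacts y hy).2.1
    push_cast at h2
    linarith
  have hox : 7 * k ≤ G.dist o x := by
    have h2 := hx.1
    have h3 : 6 * k * 1 ≤ 6 * k * j := Nat.mul_le_mul_left _ hj
    omega
  obtain ⟨v, hv⟩ : ∃ v : ℝ, v = (vol G o k : ℝ) := ⟨_, rfl⟩
  have hv0 : 0 ≤ v := by rw [hv]; positivity
  have hvx : (vol G x k : ℝ) = v := by rw [hv, vol_eq hG.st hG.tr x o]
  rw [← hv]
  have hD1 : (1 : ℝ) ≤ D := by exact_mod_cast hG.one_le
  obtain ⟨f, hf⟩ : ∃ f : V → ℝ, f = fun y => Real.exp (-(lam * loss G o k x y / k)) := ⟨_, rfl⟩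
  have hfy : ∀ y, Real.exp (-(lam * loss G o k x y / k)) = f y := fun y => by rw [hf]
  simp only [hfy]
  -- splitting
  have hsplit : ∑ y ∈ S, f y = ∑ y ∈ S with 8 ≤ n y, f y +
      (∑ y ∈ S with (¬ 8 ≤ n y ∧ loss G o k x y < w), f y +
        ∑ y ∈ S with (¬ 8 ≤ n y ∧ ¬ loss G o k x y < w), f y) := by
    rw [← Finset.sum_filter_add_sum_filter_not S (fun y => 8 ≤ n y),
      ← Finset.sum_filter_add_sum_filter_not (S.filter fun y => ¬ 8 ≤ n y)
        (fun y => loss G o k x y < w), Finset.filter_filter, Finset.filter_filter]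
  -- far part
  have hfar : ∑ y ∈ S with 8 ≤ n y, f y ≤ 4 * (D * Real.exp (-lam)) * v := by
    have hq : (D : ℝ) * Real.exp (-lam) ≤ 1 / 2 := by
      have h2 : (D : ℝ) * Real.exp (-lam) ≤ D * ε := mul_le_mul_of_nonneg_left hexp2 (by linarith)
      have h3 : (D : ℝ) * ε ≤ 1 / 2 := by
        rw [hεdef, mul_one_div, div_le_iff₀ (by positivity)]
        have h4 : (D : ℝ) ≤ (D + 1) ^ 4 := by
          have : (D : ℝ) + 1 ≤ (D + 1) ^ 4 := le_self_pow₀ (by linarith) (by norm_num)
          linarith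
        nlinarith [mul_pos hκ (show (0 : ℝ) < (D + 1) ^ 4 by positivity)]
      linarith
    refine tTB_far _ n f D v (Real.exp (-lam)) (by linarith) hv0 (Real.exp_pos _).le hq ?_ ?_ ?_
    · intro y hy
      have := (Finset.mem_filter.mp hy).2
      omega
    · intro y hy
      have h8 := (Finset.mem_filter.mp hy).2
      have hyS := (Finset.mem_filter.mp hy).1
      rw [hf, ← Real.exp_nat_mul]
      apply Real.exp_le_exp.mpr
      have h2 : (k : ℝ) * n y ≤ loss G o k x y := by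
        rw [hloss]
        have h3 : ((G.dist o y : ℕ) : ℝ) < ((G.dist o x + 8 * k : ℕ) : ℝ) := by
          exact_mod_cast (hfacts y hyS).2.2
        push_cast at h3
        have h4 : (8 : ℝ) ≤ n y := by exact_mod_cast h8
        nlinarith
      have h5 : (n y : ℝ) ≤ loss G o k x y / k := by
        rw [le_div_iff₀ hkpos]; linarith
      have h6 : lam * n y ≤ lam * (loss G o k x y / k) := mul_le_mul_of_nonneg_left h5 hlam0.le
      rw [mul_div_assoc]
      linarith
    · intro i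
      by_cases hi : 8 ≤ i
      · rw [← hvx]
        refine tTB_card hG x (2 * k * i) i k ?_ _ ?_
        · have h2 : 2 * i ≤ 2 ^ i := by
            have h3 : ∀ a, 2 * (a + 2) ≤ 2 ^ (a + 2) := by
              intro a
              induction a with
              | zero => norm_num
              | succ a ih => rw [show a + 1 + 2 = (a + 2) + 1 by ring, pow_succ]; omega
            have h4 := h3 (i - 2)
            rw [show i - 2 + 2 = i by omega] at h4
            exact h4
          calc 2 * k * i = 2 * i * k := by ring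
            _ ≤ 2 ^ i * k := Nat.mul_le_mul_right k h2
        · intro y hy
          rw [Finset.mem_filter, Finset.mem_filter] at hy
          have := (hfacts y hy.1.1).1
          rw [hy.2] at this
          exact this
      · have h2 : ((S.filter fun y => 8 ≤ n y).filter fun y => n y = i) = ∅ := by
          apply Finset.filter_eq_empty_iff.mpr
          intro y hy
          have := (Finset.mem_filter.mp hy).2
          omega
        rw [h2, Finset.card_empty]
        push_cast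
        positivity
  -- near part with small loss
  have hnear : ∑ y ∈ S with (¬ 8 ≤ n y ∧ loss G o k x y < w), f y ≤
      8 * (1 / (72 * κ * ((D : ℝ) + 1) ^ 4) * ((D : ℝ) ^ 4 * v)) := by
    calc ∑ y ∈ S with (¬ 8 ≤ n y ∧ loss G o k x y < w), f y
        ≤ ∑ y ∈ S with (¬ 8 ≤ n y ∧ loss G o k x y < w), (1 : ℝ) := by
          refine Finset.sum_le_sum fun y hy => ?_
          rw [hf]
          apply Real.exp_le_one_iff.mpr
          have h2 := hloss0 y (Finset.mem_filter.mp hy).1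
          have : 0 ≤ lam * loss G o k x y / k := by positivity
          linarith
      _ = ∑ i ∈ Finset.range 8, ∑ y ∈ (S.filter fun y => ¬ 8 ≤ n y ∧ loss G o k x y < w) with
            n y = i, (1 : ℝ) := by
          refine (Finset.sum_fiberwise_of_maps_to (fun y hy => ?_) _).symm
          have := (Finset.mem_filter.mp hy).2.1
          exact Finset.mem_range.mpr (by omega)
      _ ≤ ∑ i ∈ Finset.range 8, 1 / (72 * κ * ((D : ℝ) + 1) ^ 4) * ((D : ℝ) ^ 4 * v) := by
          refine Finset.sum_le_sum fun i hi => ?_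
          have hi8 := Finset.mem_range.mp hi
          rw [Finset.sum_const, nsmul_eq_mul, mul_one]
          have h2 := hann V G hG o x (16 * k) (G.dist o x + 2 * k * i - w) w (by omega) (by omega)
          have h3 : ((((S.filter fun y => ¬ 8 ≤ n y ∧ loss G o k x y < w).filter
              fun y => n y = i).card : ℕ) : ℝ) ≤
              (({z | G.dist x z ≤ 16 * k ∧ G.dist o x + 2 * k * i - w < G.dist o z ∧
                G.dist o z ≤ G.dist o x + 2 * k * i - w + w} : Set V).ncard : ℝ) := by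
            have h4 : ((S.filter fun y => ¬ 8 ≤ n y ∧ loss G o k x y < w).filter
              fun y => n y = i).card ≤
              ({z | G.dist x z ≤ 16 * k ∧ G.dist o x + 2 * k * i - w < G.dist o z ∧
                G.dist o z ≤ G.dist o x + 2 * k * i - w + w} : Set V).ncard := by
              rw [← Set.ncard_coe_finset]
              refine Set.ncard_le_ncard (fun y hy => ?_)
                ((nb_finite hG.st x (16 * k)).subset fun z hz => hz.1)
              have hy' := Finset.mem_coe.mp hy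
              rw [Finset.mem_filter, Finset.mem_filter] at hy'
              obtain ⟨⟨hyS, hy8, hyl⟩, hyi⟩ := hy'
              obtain ⟨f1, f2, f3⟩ := hfacts y hyS
              rw [hyi] at f1 f2
              rw [hloss, hyi] at hyl
              have hyl' : G.dist o x + 2 * k * i < G.dist o y + w := by
                have h5 : ((G.dist o x + 2 * k * i : ℕ) : ℝ) < ((G.dist o y + w : ℕ) : ℝ) := by
                  push_cast
                  linarith
                exact_mod_cast h5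
              refine ⟨?_, by omega, by omega⟩
              calc G.dist x y ≤ 2 * k * i := f1
                _ ≤ 2 * k * 8 := Nat.mul_le_mul_left _ hi8.le
                _ = 16 * k := by ring
            exact_mod_cast h4
          refine h3.trans (h2.trans (mul_le_mul_of_nonneg_left ?_ (by positivity)))
          have h5 := vol_pow hG x k 4
          rw [← hvx]
          exact_mod_cast h5
      _ = 8 * (1 / (72 * κ * ((D : ℝ) + 1) ^ 4) * ((D : ℝ) ^ 4 * v)) := by
          rw [Finset.sum_const, Finset.card_range, nsmul_eq_mul]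
          norm_num
  -- near part with large loss
  have hrest : ∑ y ∈ S with (¬ 8 ≤ n y ∧ ¬ loss G o k x y < w), f y ≤ ε * ((D : ℝ) ^ 4 * v) := by
    calc ∑ y ∈ S with (¬ 8 ≤ n y ∧ ¬ loss G o k x y < w), f y
        ≤ ∑ y ∈ S with (¬ 8 ≤ n y ∧ ¬ loss G o k x y < w), ε := by
          refine Finset.sum_le_sum fun y hy => ?_
          have h2 := (Finset.mem_filter.mp hy).2.2
          rw [hf]
          refine le_trans (Real.exp_le_exp.mpr ?_) hexp1
          have h3 : (w : ℝ) ≤ loss G o k x y := not_lt.mp h2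
          have h4 : (k : ℝ) ≤ 2 * m * w := by exact_mod_cast hw2
          have h5 : 1 / ε ≤ lam * loss G o k x y / k := by
            rw [le_div_iff₀ hkpos, hlam]
            have h6 : 0 < 1 / ε := by positivity
            calc 1 / ε * k ≤ 1 / ε * (2 * m * w) := mul_le_mul_of_nonneg_left h4 h6.le
              _ ≤ 1 / ε * (2 * m * loss G o k x y) := by
                  refine mul_le_mul_of_nonneg_left ?_ h6.le
                  exact mul_le_mul_of_nonneg_left h3 (by positivity)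
              _ = 2 * m * (1 / ε) * loss G o k x y := by ring
          linarith
      _ = ((S.filter fun y => ¬ 8 ≤ n y ∧ ¬ loss G o k x y < w).card : ℝ) * ε := by
          rw [Finset.sum_const, nsmul_eq_mul]
      _ ≤ ((D : ℝ) ^ 4 * v) * ε := by
          refine mul_le_mul_of_nonneg_right ?_ hε.le
          rw [← hvx]
          refine tTB_card hG x (16 * k) 4 k (by norm_num) _ ?_
          intro y hy
          rw [Finset.mem_filter] at hy
          have h2 := (hfacts y hy.1).1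
          have h3 : n y ≤ 8 := by omega
          calc G.dist x y ≤ 2 * k * n y := h2
            _ ≤ 2 * k * 8 := Nat.mul_le_mul_left _ h3
            _ = 16 * k := by ring
      _ = ε * ((D : ℝ) ^ 4 * v) := by ring
  have hDD : (D : ℝ) ^ 4 ≤ ((D : ℝ) + 1) ^ 4 := pow_le_pow_left₀ (by linarith) (by linarith) 4
  have hDD1 : (D : ℝ) ≤ ((D : ℝ) + 1) ^ 4 := by
    have : (D : ℝ) + 1 ≤ (D + 1) ^ 4 := le_self_pow₀ (by linarith) (by norm_num)
    linarith
  have hE : (0 : ℝ) < ((D : ℝ) + 1) ^ 4 := by positivity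
  have b1 : κ * (4 * (D * Real.exp (-lam))) ≤ 1 / 9 := by
    have h2 : (D : ℝ) * Real.exp (-lam) ≤ D * ε := mul_le_mul_of_nonneg_left hexp2 (by linarith)
    have h3 : κ * (4 * (D * ε)) ≤ 1 / 9 := by
      rw [hεdef]
      have h4 : κ * (4 * ((D : ℝ) * (1 / ((36 * κ + 4) * ((D : ℝ) + 1) ^ 4)))) =
        (4 * κ * D) / ((36 * κ + 4) * ((D : ℝ) + 1) ^ 4) := by ring
      rw [h4, div_le_iff₀ (by positivity)]
      nlinarith [mul_le_mul_of_nonneg_left hDD1 hκ.le]
    have h5 : κ * (4 * (D * Real.exp (-lam))) ≤ κ * (4 * (D * ε)) := by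
      apply mul_le_mul_of_nonneg_left _ hκ.le
      linarith
    linarith
  have b2 : κ * (8 * (1 / (72 * κ * ((D : ℝ) + 1) ^ 4) * (D : ℝ) ^ 4)) ≤ 1 / 9 := by
    have h4 : κ * (8 * (1 / (72 * κ * ((D : ℝ) + 1) ^ 4) * (D : ℝ) ^ 4)) =
        (8 * κ * (D : ℝ) ^ 4) / (72 * κ * ((D : ℝ) + 1) ^ 4) := by ring
    rw [h4, div_le_iff₀ (by positivity)]
    nlinarith [mul_le_mul_of_nonneg_left hDD hκ.le]
  have b3 : κ * (ε * (D : ℝ) ^ 4) ≤ 1 / 9 := by
    rw [hεdef]
    have h4 : κ * (1 / ((36 * κ + 4) * ((D : ℝ) + 1) ^ 4) * (D : ℝ) ^ 4) =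
        (κ * (D : ℝ) ^ 4) / ((36 * κ + 4) * ((D : ℝ) + 1) ^ 4) := by ring
    rw [h4, div_le_iff₀ (by positivity)]
    nlinarith [mul_le_mul_of_nonneg_left hDD hκ.le]
  have he3 : (1 / 3 : ℝ) ≤ Real.exp (-1) := by
    rw [Real.exp_neg, one_div]
    have h2 := Real.exp_one_lt_d9
    exact inv_anti₀ (Real.exp_pos 1) (by linarith)
  rw [hsplit]
  calc κ * (∑ y ∈ S with 8 ≤ n y, f y +
      (∑ y ∈ S with (¬ 8 ≤ n y ∧ loss G o k x y < w), f y +
        ∑ y ∈ S with (¬ 8 ≤ n y ∧ ¬ loss G o k x y < w), f y))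
      ≤ κ * (4 * (D * Real.exp (-lam)) * v +
        (8 * (1 / (72 * κ * ((D : ℝ) + 1) ^ 4) * ((D : ℝ) ^ 4 * v)) + ε * ((D : ℝ) ^ 4 * v))) := by
        refine mul_le_mul_of_nonneg_left ?_ hκ.le
        linarith
    _ = (κ * (4 * (D * Real.exp (-lam))) +
        (κ * (8 * (1 / (72 * κ * ((D : ℝ) + 1) ^ 4) * (D : ℝ) ^ 4)) +
          κ * (ε * (D : ℝ) ^ 4))) * v := by ring
    _ ≤ (1 / 3) * v := by
        refine mul_le_mul_of_nonneg_right ?_ hv0
        linarith
    _ ≤ Real.exp (-1) * v := mul_le_mul_of_nonneg_right he3 hv0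

end Pool.Agent.NetGraphs.SL

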