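import Pool.Agent.NetGraphs.SL.Stmts

set_option autoImplicit false

namespace Pool.Agent.NetGraphs.SL

open SimpleGraph Pool.Agent.NetGraphs

/-! Proof. Section 2 of the paper. (a) RS G F y z is finite: for rho in it and x in F, d(z, rho x) = d(y,x), so rho x lies in a finite ball (Set.Finite.subset
of Set.Finite.pi). Nonempty by transitivity. (b) (RS G F y z).ncard = (RS G F y z').ncard: compose with an automorphism psi, psi z = z'. (c) for
y,y' in F: let RR = {rho | exists phi, phi y = y, phi y' = y', phi = rho on F}. RS G F y y is the disjoint union over w in the orbit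
O(y,y')={w | exists phi, phi y=y, phi y'=w} of {rho in RS G F y y, rho y' = w}, each in bijection with RR (compose). So n(y) := ncard RS G F y y
= |O(y,y')| |RR| and n(y') = |O(y',y)| |RR|. O(y,y') is contained in the ball of radius d(y,y') about y, so it is finite and 1 <= |O(y,y')| <=
vol(d(y,y')). Hence n(y)|O(y',y)| = n(y')|O(y,y')| for every F containing y,y'; the numbers |O| do not depend on F. (d) suppose
|O(y,y')| > |O(y',y)| for some pair. phi y = y'. y_n = phi^n y; |O(y_n,y_(n+1))| = |O(y,y')| and |O(y_(n+1),y_n)|=|O(y',y)| (conjugate by phi^n).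
With F = {y_0..y_n} multiply the relations: n(y_0) b^n = n(y_n) a^n, a=|O(y,y')|>b=|O(y',y)|>=1, and n(y_0)|O(y_n,y_0)|=n(y_n)|O(y_0,y_n)|, so
(a/b)^n = |O(y_0,y_n)|/|O(y_n,y_0)| <= vol(n d(y,y')) <= polynomial in n (vol_pow: vol(2^i m) <= D^i vol m with n <= 2^i): take n = 2^i, then
(a/b)^(2^i) <= D^i vol(d(y,y')) for all i, a contradiction. So |O(y,y')| = |O(y',y)| for all pairs (symmetry) and n(y)=n(y'). -/

variable {V : Type} {G : SimpleGraph V} {D : ℕ}

/-- orbit of `y'` under the stabilizer of `y` -/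
def uMO_O (G : SimpleGraph V) (y y' : V) : Set V := {w | ∃ φ : G ≃g G, φ y = y ∧ φ y' = w}

/-- restrictions of automorphisms which fix `y` and `y'` -/
def uMO_R (G : SimpleGraph V) (F : Finset V) (y y' : V) : Set (F → V) :=
  {ρ | ∃ φ : G ≃g G, φ y = y ∧ φ y' = y' ∧ ∀ x : F, φ x.1 = ρ x}

theorem uMO_R_comm (F : Finset V) (y y' : V) : uMO_R G F y y' = uMO_R G F y' y := by
  ext ρ
  constructor
  · rintro ⟨φ, h1, h2, h3⟩
    exact ⟨φ, h2, h1, h3⟩
  · rintro ⟨φ, h1, h2, h3⟩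
    exact ⟨φ, h2, h1, h3⟩

theorem uMO_RS_finite (hG : Standing G) (F : Finset V) (y z : V) : (RS G F y z).Finite := by
  refine (Set.Finite.pi' (t := fun x : F => nb G z (G.dist y x.1))
    (fun x => nb_finite hG _ _)).subset ?_
  rintro ρ ⟨φ, h1, h2⟩ x
  change G.dist z (ρ x) ≤ G.dist y x.1
  rw [← h1, ← h2, dist_iso hG.connected]

theorem uMO_RS_pos (hG : Standing G) (ht : VertexTransitive G) (F : Finset V) (y z : V) :
    0 < (RS G F y z).ncard := by
  obtain ⟨φ, hφ⟩ := ht y z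
  exact (Set.ncard_pos (uMO_RS_finite hG F y z)).2 ⟨fun x => φ x.1, φ, hφ, fun x => rfl⟩

theorem uMO_RS_shift (ht : VertexTransitive G) (F : Finset V) (y z z' : V) :
    (RS G F y z).ncard = (RS G F y z').ncard := by
  obtain ⟨ψ, hψ⟩ := ht z z'
  have h1 : RS G F y z' = (fun (ρ : F → V) (x : F) => ψ (ρ x)) '' RS G F y z := by
    ext ρ
    constructor
    · rintro ⟨φ, h1, h2⟩
      refine ⟨fun x => ψ.symm (ρ x), ⟨φ.trans ψ.symm, ?_, fun x => ?_⟩, ?_⟩
      · rw [RelIso.trans_apply, h1, ← hψ, RelIso.symm_apply_apply]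
      · rw [RelIso.trans_apply, h2]
      · funext x
        simp
    · rintro ⟨ρ', ⟨φ, h1, h2⟩, rfl⟩
      refine ⟨φ.trans ψ, ?_, fun x => ?_⟩
      · rw [RelIso.trans_apply, h1, hψ]
      · rw [RelIso.trans_apply, h2]
  rw [h1, Set.ncard_image_of_injective]
  intro ρ ρ' h
  funext x
  exact ψ.injective (congrFun h x)

theorem uMO_prod (F : Finset V) {y y' : V} (hy' : y' ∈ F) :
    (RS G F y y).ncard = (uMO_O G y y').ncard * (uMO_R G F y y').ncard := by
  have h0 : ∀ w, ∃ ψ : G ≃g G, w ∈ uMO_O G y y' → ψ y = y ∧ ψ y' = w := by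
    intro w
    by_cases hw : w ∈ uMO_O G y y'
    · obtain ⟨ψ, h⟩ := hw
      exact ⟨ψ, fun _ => h⟩
    · exact ⟨RelIso.refl _, fun h => absurd h hw⟩
  choose ψ hψ using h0
  have h1 : RS G F y y = (fun (p : V × (F → V)) (x : F) => ψ p.1 (p.2 x)) ''
      (uMO_O G y y' ×ˢ uMO_R G F y y') := by
    ext ρ
    constructor
    · rintro ⟨φ, h1, h2⟩
      have hw : φ y' ∈ uMO_O G y y' := ⟨φ, h1, rfl⟩
      obtain ⟨h3, h4⟩ := hψ _ hw
      refine ⟨(φ y', fun x => (ψ (φ y')).symm (ρ x)), ⟨hw, φ.trans (ψ (φ y')).symm, ?_, ?_,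
        fun x => ?_⟩, ?_⟩
      · rw [RelIso.trans_apply, h1]
        exact (ψ (φ y')).symm_apply_eq.2 h3.symm
      · rw [RelIso.trans_apply]
        exact (ψ (φ y')).symm_apply_eq.2 h4.symm
      · rw [RelIso.trans_apply, h2]
      · funext x
        simp
    · rintro ⟨⟨w, ρ'⟩, ⟨hw, φ, h1, h2, h3⟩, rfl⟩
      obtain ⟨h4, h5⟩ := hψ w hw
      refine ⟨φ.trans (ψ w), ?_, fun x => ?_⟩
      · rw [RelIso.trans_apply, h1, h4]
      · rw [RelIso.trans_apply, h3]
  rw [h1, Set.InjOn.ncard_image, Set.ncard_prod]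
  rintro ⟨w, ρ⟩ ⟨hw, φ, -, h2, h3⟩ ⟨w', ρ'⟩ ⟨hw', φ', -, h2', h3'⟩ h
  have h4 : ρ ⟨y', hy'⟩ = y' := (h3 ⟨y', hy'⟩).symm.trans h2
  have h5 : ρ' ⟨y', hy'⟩ = y' := (h3' ⟨y', hy'⟩).symm.trans h2'
  have h6 := congrFun h ⟨y', hy'⟩
  simp only [h4, h5] at h6
  rw [(hψ w hw).2, (hψ w' hw').2] at h6
  subst h6
  have h7 : ρ = ρ' := by
    funext x
    exact (ψ w).injective (congrFun h x)
  rw [h7]

theorem uMO_rel (F : Finset V) {y y' : V} (hy : y ∈ F) (hy' : y' ∈ F) :
    (RS G F y y).ncard * (uMO_O G y' y).ncard = (RS G F y' y').ncard * (uMO_O G y y').ncard := by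
  rw [uMO_prod F hy', uMO_prod F hy, uMO_R_comm F y' y]
  ring

theorem uMO_O_sub (hG : Standing G) (y y' : V) : uMO_O G y y' ⊆ nb G y (G.dist y y') := by
  rintro w ⟨φ, h1, rfl⟩
  change G.dist y (φ y') ≤ _
  nth_rw 1 [← h1]
  rw [dist_iso hG.connected]

theorem uMO_O_pos (hG : Standing G) (y y' : V) : 0 < (uMO_O G y y').ncard :=
  (Set.ncard_pos ((nb_finite hG _ _).subset (uMO_O_sub hG y y'))).2 ⟨y', RelIso.refl _, rfl, rfl⟩

theorem uMO_O_le (hG : Standing G) (y y' : V) :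
    (uMO_O G y y').ncard ≤ vol G y (G.dist y y') :=
  Set.ncard_le_ncard (uMO_O_sub hG y y') (nb_finite hG _ _)

theorem uMO_O_iso (φ : G ≃g G) (y y' : V) :
    (uMO_O G (φ y) (φ y')).ncard = (uMO_O G y y').ncard := by
  have h1 : uMO_O G (φ y) (φ y') = φ '' uMO_O G y y' := by
    ext w
    constructor
    · rintro ⟨ψ, h1, rfl⟩
      refine ⟨φ.symm (ψ (φ y')), ⟨(φ.trans ψ).trans φ.symm, ?_, ?_⟩, by simp⟩
      · rw [RelIso.trans_apply, RelIso.trans_apply, h1, RelIso.symm_apply_apply]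
      · rw [RelIso.trans_apply, RelIso.trans_apply]
    · rintro ⟨w, ⟨ψ, h1, rfl⟩, rfl⟩
      refine ⟨(φ.symm.trans ψ).trans φ, ?_, ?_⟩
      · rw [RelIso.trans_apply, RelIso.trans_apply, RelIso.symm_apply_apply, h1]
      · rw [RelIso.trans_apply, RelIso.trans_apply, RelIso.symm_apply_apply]
  rw [h1, Set.ncard_image_of_injective _ φ.injective]

theorem uMO_growth (a b D W : ℕ) (hb : 1 ≤ b) (hab : b < a) (hD : 1 ≤ D) (hW : 1 ≤ W)
    (h : ∀ i : ℕ, a ^ 2 ^ i ≤ b ^ 2 ^ i * (D ^ i * W)) : False := by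
  have hb0 : (0 : ℝ) < b := by exact_mod_cast hb
  have ha0 : (0 : ℝ) < a := by exact_mod_cast (lt_trans (by omega) hab : 0 < a)
  have hD0 : (0 : ℝ) < D := by exact_mod_cast hD
  have hW0 : (0 : ℝ) < W := by exact_mod_cast hW
  have hlog : Real.log b < Real.log a := Real.log_lt_log hb0 (by exact_mod_cast hab)
  have h1 : Filter.Tendsto (fun i : ℕ => (i : ℝ) ^ 1 / 2 ^ i) Filter.atTop (nhds 0) :=
    tendsto_pow_const_div_const_pow_of_one_lt 1 (by norm_num)
  have h2 : Filter.Tendsto (fun i : ℕ => (i : ℝ) ^ 0 / 2 ^ i) Filter.atTop (nhds 0) :=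
    tendsto_pow_const_div_const_pow_of_one_lt 0 (by norm_num)
  have h3 := (h1.const_mul (Real.log D)).add (h2.const_mul (Real.log W))
  rw [mul_zero, mul_zero, add_zero] at h3
  obtain ⟨i, hi⟩ := (h3.eventually_lt_const (sub_pos.2 hlog)).exists
  have h4 : ((a : ℝ) ^ 2 ^ i) ≤ (b : ℝ) ^ 2 ^ i * ((D : ℝ) ^ i * W) := by exact_mod_cast h i
  have h5 := Real.log_le_log (pow_pos ha0 _) h4
  rw [Real.log_mul (pow_pos hb0 _).ne' (by positivity), Real.log_mul (pow_pos hD0 _).ne' hW0.ne',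
    Real.log_pow, Real.log_pow, Real.log_pow] at h5
  push_cast at h5
  have h6 : (0 : ℝ) < 2 ^ i := by positivity
  have h7 : Real.log D * ((i : ℝ) ^ 1 / 2 ^ i) + Real.log W * ((i : ℝ) ^ 0 / 2 ^ i) =
      (i * Real.log D + Real.log W) / 2 ^ i := by
    rw [pow_one, pow_zero]
    field_simp
  rw [h7, div_lt_iff₀ h6] at hi
  nlinarith [h5, hi]

/-- iterates of an automorphism -/
def uMO_it (φ : G ≃g G) : ℕ → (G ≃g G)
  | 0 => RelIso.refl _
  | n + 1 => φ.trans (uMO_it φ n)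

theorem uMO_it_succ (φ : G ≃g G) (n : ℕ) (v : V) : uMO_it φ (n + 1) v = uMO_it φ n (φ v) := rfl

theorem uMO_not_lt (h : Hyp G D) (y y' : V) : ¬ (uMO_O G y' y).ncard < (uMO_O G y y').ncard := by
  classical
  intro hlt
  have hG := h.st
  obtain ⟨φ, hφ⟩ := h.tr y y'
  set a := (uMO_O G y y').ncard with ha
  set b := (uMO_O G y' y).ncard with hb
  set p : ℕ → V := fun n => uMO_it φ n y with hp
  have hp1 : ∀ n, p (n + 1) = uMO_it φ n y' := fun n => by
    simp only [hp]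
    rw [uMO_it_succ, hφ]
  have hp0 : p 0 = y := rfl
  have hpa : ∀ n, (uMO_O G (p n) (p (n + 1))).ncard = a := fun n => by
    rw [hp1]
    exact uMO_O_iso _ _ _
  have hpb : ∀ n, (uMO_O G (p (n + 1)) (p n)).ncard = b := fun n => by
    rw [hp1]
    exact uMO_O_iso _ _ _
  have hpd : ∀ n, G.dist (p n) (p (n + 1)) = G.dist y y' := fun n => by
    rw [hp1]
    exact dist_iso hG.connected _ _ _
  have hdist : ∀ n, G.dist (p 0) (p n) ≤ n * G.dist y y' := by
    intro n
    induction n with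
    | zero => simp
    | succ n ih =>
      have h1 := hG.connected.dist_triangle (u := p 0) (v := p n) (w := p (n + 1))
      rw [hpd] at h1
      rw [Nat.succ_mul]
      omega
  have hmain : ∀ n, a ^ n ≤ b ^ n * vol G y (n * G.dist y y') := by
    intro n
    set F : Finset V := (Finset.range (n + 1)).image p with hF
    have hmem : ∀ i, i ≤ n → p i ∈ F := fun i hi =>
      Finset.mem_image.2 ⟨i, Finset.mem_range.2 (by omega), rfl⟩
    have h1 : ∀ i, i ≤ n → (RS G F (p 0) (p 0)).ncard * b ^ i =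
        (RS G F (p i) (p i)).ncard * a ^ i := by
      intro i
      induction i with
      | zero => intro _; simp
      | succ i ih =>
        intro hi
        have h2 := ih (by omega)
        have h3 := uMO_rel (G := G) F (hmem i (by omega)) (hmem (i + 1) hi)
        rw [hpa, hpb] at h3
        rw [pow_succ, pow_succ, ← mul_assoc, h2]
        calc (RS G F (p i) (p i)).ncard * a ^ i * b =
            ((RS G F (p i) (p i)).ncard * b) * a ^ i := by ring
          _ = ((RS G F (p (i + 1)) (p (i + 1))).ncard * a) * a ^ i := by rw [h3]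
          _ = (RS G F (p (i + 1)) (p (i + 1))).ncard * (a ^ i * a) := by ring
    have h2 := h1 n le_rfl
    have h3 := uMO_rel (G := G) F (hmem 0 (Nat.zero_le _)) (hmem n le_rfl)
    have h4 := uMO_RS_pos hG h.tr F (p 0) (p 0)
    have h5 := uMO_O_pos hG (p n) (p 0)
    have h6 : b ^ n * (uMO_O G (p 0) (p n)).ncard = a ^ n * (uMO_O G (p n) (p 0)).ncard := by
      refine Nat.eq_of_mul_eq_mul_left h4 ?_
      calc (RS G F (p 0) (p 0)).ncard * (b ^ n * (uMO_O G (p 0) (p n)).ncard) =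
          ((RS G F (p 0) (p 0)).ncard * b ^ n) * (uMO_O G (p 0) (p n)).ncard := by ring
        _ = ((RS G F (p n) (p n)).ncard * a ^ n) * (uMO_O G (p 0) (p n)).ncard := by rw [h2]
        _ = ((RS G F (p n) (p n)).ncard * (uMO_O G (p 0) (p n)).ncard) * a ^ n := by ring
        _ = ((RS G F (p 0) (p 0)).ncard * (uMO_O G (p n) (p 0)).ncard) * a ^ n := by rw [h3]
        _ = (RS G F (p 0) (p 0)).ncard * (a ^ n * (uMO_O G (p n) (p 0)).ncard) := by ring
    have h7 : a ^ n ≤ b ^ n * (uMO_O G (p 0) (p n)).ncard := by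
      rw [h6]
      exact Nat.le_mul_of_pos_right _ h5
    refine h7.trans (Nat.mul_le_mul_left _ ?_)
    exact (uMO_O_le hG _ _).trans (vol_mono hG _ (hdist n))
  refine uMO_growth a b D (vol G y (G.dist y y')) (uMO_O_pos hG _ _) hlt h.one_le (vol_pos hG _ _)
    fun i => (hmain (2 ^ i)).trans (Nat.mul_le_mul_left _ (vol_pow h y _ i))

theorem uMO_symm (h : Hyp G D) (y y' : V) : (uMO_O G y y').ncard = (uMO_O G y' y).ncard :=
  le_antisymm (not_lt.1 (uMO_not_lt h y y')) (not_lt.1 (uMO_not_lt h y' y))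

theorem t_UNIMOD : S_UNIMOD := by
  intro D V G h F y y' z z' hy hy'
  refine ⟨uMO_RS_finite h.st F y z, uMO_RS_pos h.st h.tr F y z, ?_⟩
  rw [uMO_RS_shift h.tr F y z y, uMO_RS_shift h.tr F y' z' y']
  have h1 := uMO_rel (G := G) F hy hy'
  rw [uMO_symm h y' y] at h1
  exact Nat.eq_of_mul_eq_mul_right (uMO_O_pos h.st y y') h1

end Pool.Agent.NetGraphs.SL
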