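import Pool.Agent.NetGraphs.SL.Stmts

set_option autoImplicit false

namespace Pool.Agent.NetGraphs.SL

open SimpleGraph Pool.Agent.NetGraphs

/-! Proof. (4.3) of the paper. c from S_COARSE (replace by max c 1). r₀ = 2c. x≠y in T: k r <= k d_N(x,y) <= c (d(x,y)+k), so c d(x,y) >= kr-ck >= kr/2, i.e. 2 c d(x,y) >= k r; so with
s := (k r + 2c - 1)/(2c) (ceiling) >= 1 we have s <= d(x,y), and 12 c s >= 6 k r. For x in T choose i(x)<=I with d(x,h i) < 2k(r+1), and g(x) = i(x)/r, a number <= I/r. If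
g(x)=g then d(h (g r), h i(x)) <= 2k r (Road; g r <= i(x) <= I), so d(h (g r),x) < 2k(2r+1) <= 6kr <= 12 c s <= 2^i0 s with 2^i0 >= 12c (e.g. i0 = 12c). sep_card_le
(for the image of the fibre in V) : each fibre has at most D^(i0+3) =: Q0 elements. So |T| <= Q0 (I/r+1), |T| r <= Q0 (I + r). -/

theorem t_ZC (h1 : S_COARSE) : S_ZC := by
  classical
  intro D
  obtain ⟨c₁, hc₁⟩ := h1 D
  obtain ⟨c, hc⟩ : ∃ c, c = max c₁ 1 := ⟨_, rfl⟩
  have hc1 : 1 ≤ c := by rw [hc]; exact le_max_right _ _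
  have hcc : c₁ ≤ c := by rw [hc]; exact le_max_left _ _
  refine ⟨D ^ (12 * c + 3), 2 * c, ?_⟩
  intro V G hG k I h N r hk hr hroad hN T hT hnear
  have hr1 : 1 ≤ r := by omega
  have hkr : 1 ≤ k * r := Nat.mul_pos hk hr1
  -- the separation in `G`
  have hsep : ∀ x ∈ T, ∀ y ∈ T, x ≠ y → k * r ≤ 2 * c * G.dist x.1 y.1 := by
    intro x hx y hy hxy
    have h2 := hc₁ V G hG k hk N hN x y
    have h3 := hT x hx y hy hxy
    have h4 : k * r ≤ k * (netGraph G k N).dist x y := Nat.mul_le_mul_left k h3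
    have h5 : c₁ * (G.dist x.1 y.1 + k) ≤ c * (G.dist x.1 y.1 + k) := Nat.mul_le_mul_right _ hcc
    have h6 : k * (2 * c) ≤ k * r := Nat.mul_le_mul_left k hr
    nlinarith
  obtain ⟨s, hs⟩ : ∃ s, s = (k * r + 2 * c - 1) / (2 * c) := ⟨_, rfl⟩
  have hc2 : 0 < 2 * c := by omega
  have hs1 : 1 ≤ s := by
    rw [hs, Nat.le_div_iff_mul_le hc2]
    omega
  have hs2 : k * r ≤ 2 * c * s := by
    have h2 := Nat.lt_mul_div_succ (k * r + 2 * c - 1) hc2
    rw [← hs, mul_add, mul_one] at h2
    omega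
  have hs3 : ∀ x ∈ T, ∀ y ∈ T, x ≠ y → s ≤ G.dist x.1 y.1 := by
    intro x hx y hy hxy
    have h2 := hsep x hx y hy hxy
    rw [hs]
    have h3 : (k * r + 2 * c - 1) / (2 * c) < G.dist x.1 y.1 + 1 := by
      rw [Nat.div_lt_iff_lt_mul hc2, add_mul, one_mul]
      have h4 : 2 * c * G.dist x.1 y.1 = G.dist x.1 y.1 * (2 * c) := mul_comm _ _
      omega
    omega
  -- the fibres
  choose! i hi hid using hnear
  have hmaps : ∀ x ∈ T, i x / r ∈ Finset.range (I / r + 1) := by
    intro x hx
    rw [Finset.mem_range]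
    have := Nat.div_le_div_right (c := r) (hi x hx)
    omega
  have hcard := Finset.card_le_mul_card_image_of_maps_to hmaps (D ^ (12 * c + 3)) (by
    intro g hg
    have h2 : (T.filter fun x => i x / r = g).card =
        ((T.filter fun x => i x / r = g).image Subtype.val).card :=
      (Finset.card_image_of_injective _ Subtype.val_injective).symm
    rw [h2]
    have hgr : g * r ≤ I := by
      rw [Finset.mem_range] at hg
      have h3 : g ≤ I / r := by omega
      exact (Nat.mul_le_mul_right r h3).trans (Nat.div_mul_le_self I r)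
    apply sep_card_le hG hs1 (h (g * r))
    · intro a ha b hb hab
      rw [Finset.mem_image] at ha hb
      obtain ⟨x, hx, rfl⟩ := ha
      obtain ⟨y, hy, rfl⟩ := hb
      exact hs3 x (Finset.mem_filter.1 hx).1 y (Finset.mem_filter.1 hy).1
        (fun h0 => hab (by rw [h0]))
    · intro a ha
      rw [Finset.mem_image] at ha
      obtain ⟨x, hx, rfl⟩ := ha
      obtain ⟨hxT, hxg⟩ := Finset.mem_filter.1 hx
      have h3 : g * r ≤ i x := by
        rw [← hxg]
        exact Nat.div_mul_le_self _ _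
      have h4 : i x < g * r + r := by
        have := Nat.lt_mul_div_succ (i x) (by omega : 0 < r)
        rw [hxg] at this
        linarith
      have h5 := hroad (g * r) (i x) h3 (hi x hxT)
      have h6 : G.dist (h (g * r)) (h (i x)) ≤ 2 * k * r := by
        rw [h5]
        exact Nat.mul_le_mul_left _ (by omega)
      have h7 := hid x hxT
      have h8 : G.dist (h (g * r)) x.1 ≤ G.dist (h (g * r)) (h (i x)) + G.dist (h (i x)) x.1 :=
        hG.st.connected.dist_triangle
      rw [G.dist_comm (u := h (i x))] at h8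
      have h9 : 12 * c ≤ 2 ^ (12 * c) := Nat.lt_two_pow_self.le
      have h10 : 12 * c * s ≤ 2 ^ (12 * c) * s := Nat.mul_le_mul_right s h9
      have h11 : k ≤ k * r := Nat.le_mul_of_pos_right k hr1
      nlinarith)
  rw [Finset.card_range] at hcard
  calc T.card * r ≤ D ^ (12 * c + 3) * (I / r + 1) * r := Nat.mul_le_mul_right r hcard
    _ = D ^ (12 * c + 3) * (I / r * r + r) := by ring
    _ ≤ D ^ (12 * c + 3) * (I + r) :=
      Nat.mul_le_mul_left _ (Nat.add_le_add_right (Nat.div_mul_le_self I r) r)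

end Pool.Agent.NetGraphs.SL
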