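import Pool.Agent.NetGraphs.SL.UNI
import Pool.Agent.NetGraphs.SL.DBL
import Pool.Agent.NetGraphs.SL.COARSE
import Pool.Agent.NetGraphs.SL.ANN
import Pool.Agent.NetGraphs.SL.UNIMOD
import Pool.Agent.NetGraphs.SL.AVG
import Pool.Agent.NetGraphs.SL.TB
import Pool.Agent.NetGraphs.SL.SEQ
import Pool.Agent.NetGraphs.SL.SLOW
import Pool.Agent.NetGraphs.SL.HW
import Pool.Agent.NetGraphs.SL.CMP1
import Pool.Agent.NetGraphs.SL.CMP2
import Pool.Agent.NetGraphs.SL.ZC
import Pool.Agent.NetGraphs.SL.PK12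
import Pool.Agent.NetGraphs.SL.PK3
import Pool.Agent.NetGraphs.SL.SCALE
import Pool.Agent.NetGraphs.SL.DET

set_option autoImplicit false

namespace Pool.Agent.NetGraphs.SL

/-- sub scale invariant vertex transitive graphs have linear growth -/
theorem t_MAIN : S_MAIN :=
  main_of t_UNI t_DBL (t_SLOW (t_SEQ (t_AVG t_UNIMOD) (t_TB t_ANN))) (t_SCALE t_PK1 t_PK2 t_PK3)
    (t_DET t_HW (t_CMP1 t_COARSE) t_CMP2 (t_ZC t_COARSE))

end Pool.Agent.NetGraphs.SL
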