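import Pool.Agent.NetGraphs.SL.Stmts

set_option autoImplicit false

namespace Pool.Agent.NetGraphs.SL

open SimpleGraph Pool.Agent.NetGraphs

/-! Proof. By contradiction: for every k0 there are k >= max k0 1 and a net N (scale k) without a C-rough isometry. Let N k be such a net if k>=1 and one exists, and
any k-net otherwise (net_exists_ge from the empty set). This is a NetChoice, so CC G N tends to 1, eventually roughConst < ENNReal.ofReal C, and
exists_rough_of_lt (NetGraphs/Main.lean) gives a C-rough isometry for all large k: contradiction at a bad k. (k₀ at least 1.) -/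

/-- bad nets -/
def uNI_Bad {V : Type} (G : SimpleGraph V) (C : ℝ) (k : ℕ) (N : Set V) : Prop :=
  IsNet G k N ∧ ∀ f : V → N, ¬ IsRoughIsometry C G (netGraph G k N) f

theorem uNI_choice {V : Type} (G : SimpleGraph V) (C : ℝ) : ∃ F : ℕ → Set V,
    (∀ k, IsNet G k (F k)) ∧ ∀ k, (∃ N, uNI_Bad G C k N) → uNI_Bad G C k (F k) := by
  have h : ∀ k, ∃ N : Set V, IsNet G k N ∧ ((∃ N', uNI_Bad G C k N') → uNI_Bad G C k N) := by
    intro k
    by_cases hb : ∃ N', uNI_Bad G C k N'
    · obtain ⟨N, hN⟩ := hb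
      exact ⟨N, hN.1, fun _ => hN⟩
    · have h0 : Separated G k (∅ : Set V) := fun u hu => absurd hu (Set.notMem_empty u)
      obtain ⟨N, _, hN⟩ := net_exists_ge G k h0
      exact ⟨N, hN, fun h => absurd h hb⟩
  choose F hF using h
  exact ⟨F, fun k => (hF k).1, fun k => (hF k).2⟩

theorem t_UNI : S_UNI := by
  intro V G _ hs C hC
  by_contra hno
  push Not at hno
  obtain ⟨F, hF, hB⟩ := uNI_choice G C
  have hlim := hs F (fun k _ => hF k)
  have h1 : (1 : ENNReal) < ENNReal.ofReal C := by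
    rw [← ENNReal.ofReal_one]
    exact (ENNReal.ofReal_lt_ofReal_iff (by linarith)).2 hC
  have hev : ∀ᶠ k in Filter.atTop, CC G F k < ENNReal.ofReal C :=
    hlim.eventually (gt_mem_nhds h1)
  obtain ⟨k₀, hk₀⟩ := Filter.eventually_atTop.1 hev
  obtain ⟨k, hk, N, hN, hNf⟩ := hno k₀
  have hbad := hB k ⟨N, hN, hNf⟩
  obtain ⟨f, hf⟩ := exists_rough_of_lt (hk₀ k hk)
  exact hbad.2 f hf

end Pool.Agent.NetGraphs.SL
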